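import Mathlib

set_option autoImplicit false

/-!
# Binary codes and the coordinatewise operations which preserve them: the basic lemmas
-/

open Finset Function

namespace Pool.Agent.Q257.PC

/-- the alphabet -/
abbrev K := ZMod 2

lemma two_values (a : K) : a = 0 ∨ a = 1 := by
  fin_cases a
  · exact Or.inl rfl
  · exact Or.inr rfl

lemma eq_of_ne_ne {a b c : K} (h1 : a ≠ b) (h2 : c ≠ b) : a = c := by
  revert a b c; decide

lemma add_eq_zero_iff' {a b : K} : a + b = 0 ↔ a = b := by
  revert a b; decide

/-- `f` is affine: a constant plus a linear form -/
def Affine {r : ℕ} (f : (Fin r → K) → K) : Prop :=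
  ∃ (a : Fin r → K) (b : K), ∀ z, f z = b + ∑ k, a k * z k

/-- `f` depends on at most one variable -/
def Unary {r : ℕ} (f : (Fin r → K) → K) : Prop :=
  (∃ k, ∀ z z', z k = z' k → f z = f z') ∨ ∀ z z', f z = f z'

section functions

variable {r : ℕ}

/-- a function which does not change if one coordinate is changed is constant -/
lemma const_of_step {β : Type*} (g : (Fin r → K) → β)
    (h : ∀ l w, g (update w l 0) = g (update w l 1)) (w w' : Fin r → K) : g w = g w' := by
  have key : ∀ w : Fin r → K, ∀ s : Finset (Fin r), g (s.piecewise w 0) = g 0 := by
    intro w s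
    induction s using Finset.induction_on with
    | empty => simp
    | insert k s hk ih =>
      rw [Finset.piecewise_insert]
      rcases two_values (w k) with h0 | h0
      · rw [h0, ← ih]
        congr 1
        funext j
        by_cases hj : j = k
        · subst hj; simp [hk]
        · simp [hj]
      · rw [h0, ← h k, ← ih]
        congr 1
        funext j
        by_cases hj : j = k
        · subst hj; simp [hk]
        · simp [hj]
  have h1 := key w Finset.univ
  have h2 := key w' Finset.univ
  simp only [Finset.piecewise_univ] at h1 h2
  rw [h1, h2]

/-- the difference in direction `k` -/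
def der (f : (Fin r → K) → K) (k : Fin r) (w : Fin r → K) : K :=
  f (update w k 0) + f (update w k 1)

lemma affine_of_der (f : (Fin r → K) → K)
    (h : ∀ k l w, k ≠ l → der f k (update w l 0) = der f k (update w l 1)) : Affine f := by
  have hconst : ∀ k w w', der f k w = der f k w' := by
    intro k
    refine const_of_step (der f k) ?_
    intro l w
    by_cases hkl : k = l
    · subst hkl
      simp [der]
    · exact h k l w hkl
  refine ⟨fun k => der f k 0, f 0, ?_⟩
  have key : ∀ w : Fin r → K, ∀ s : Finset (Fin r),
      f (s.piecewise w 0) = f 0 + ∑ k ∈ s, der f k 0 * w k := by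
    intro w s
    induction s using Finset.induction_on with
    | empty => simp
    | insert k s hk ih =>
      rw [Finset.piecewise_insert, Finset.sum_insert hk]
      have e0 : update (s.piecewise w 0) k 0 = s.piecewise w 0 := by
        funext j
        by_cases hj : j = k
        · subst hj; simp [hk]
        · simp [hj]
      rcases two_values (w k) with h0 | h0
      · rw [h0, e0, ih]; ring
      · rw [h0]
        have h1 := hconst k (s.piecewise w 0) 0
        unfold der at h1
        rw [e0, ih] at h1
        have h2 : der f k 0 = f (update 0 k 0) + f (update 0 k 1) := rfl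
        rw [← h2] at h1
        have h3 : ∀ a b c : K, a + b = c → b = a + c := by decide
        rw [h3 _ _ _ h1]
        ring
  intro z
  have h1 := key z Finset.univ
  simpa using h1

lemma Affine.der_const {f : (Fin r → K) → K} (hf : Affine f) (k : Fin r) (w w' : Fin r → K) :
    der f k w = der f k w' := by
  obtain ⟨a, b, h⟩ := hf
  have key : ∀ w : Fin r → K, der f k w = a k := by
    intro w
    unfold der
    rw [h, h]
    have e1 : ∀ t : K, ∑ j, a j * update w k t j = a k * t + ∑ j ∈ univ.erase k, a j * w j := by
      intro t
      rw [← Finset.add_sum_erase _ _ (Finset.mem_univ k)]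
      congr 1
      · simp
      · refine Finset.sum_congr rfl fun j hj => ?_
        rw [Finset.mem_erase] at hj
        simp [hj.1]
    rw [e1, e1]
    have : ∀ a b c : K, b + (a * 0 + c) + (b + (a * 1 + c)) = a := by decide
    exact this _ _ _
  rw [key, key]

/-- `f` depends on its variable `k` -/
def Dep (f : (Fin r → K) → K) (k : Fin r) : Prop := der f k 0 ≠ 0

lemma Affine.dep_iff {f : (Fin r → K) → K} (hf : Affine f) (k : Fin r) (w : Fin r → K) :
    Dep f k ↔ f (update w k 0) ≠ f (update w k 1) := by
  unfold Dep
  rw [hf.der_const k 0 w]
  unfold der
  rw [Ne, add_eq_zero_iff']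

lemma Affine.dep_iff' {f : (Fin r → K) → K} (hf : Affine f) (k : Fin r) (w : Fin r → K)
    {s t : K} (hst : s ≠ t) : Dep f k ↔ f (update w k s) ≠ f (update w k t) := by
  rw [hf.dep_iff k w]
  rcases two_values s with h | h <;> rcases two_values t with h' | h' <;> subst h <;> subst h'
  · exact absurd rfl hst
  · rfl
  · exact ne_comm
  · exact absurd rfl hst

/-- an affine function which is not unary depends on two variables -/
lemma Affine.two_dep {f : (Fin r → K) → K} (hf : Affine f) (hu : ¬ Unary f) :
    ∃ k l, k ≠ l ∧ Dep f k ∧ Dep f l := by
  by_contra hcon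
  push Not at hcon
  apply hu
  by_cases hex : ∃ k, Dep f k
  · obtain ⟨k, hk⟩ := hex
    left
    refine ⟨k, ?_⟩
    intro z z' hz
    have h1 : ∀ l w, l ≠ k → f (update w l 0) = f (update w l 1) := by
      intro l w hl
      by_contra hne
      exact hcon k l (Ne.symm hl) hk ((hf.dep_iff l w).2 hne)
    have h2 := const_of_step (fun w => f (update w k (z k))) (fun l w => by
      by_cases hl : l = k
      · subst hl; simp
      · show f (update (update w l 0) k (z k)) = f (update (update w l 1) k (z k))
        rw [update_comm hl, update_comm hl]
        exact h1 l _ hl) z z'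
    replace h2 : f (update z k (z k)) = f (update z' k (z k)) := h2
    rw [update_eq_self] at h2
    rw [hz, update_eq_self] at h2
    exact h2
  · push Not at hex
    right
    refine const_of_step f fun l w => ?_
    by_contra hne
    exact hex l ((hf.dep_iff l w).2 hne)

lemma Unary.not_two {f : (Fin r → K) → K} (hu : Unary f) {k l : Fin r} (hkl : k ≠ l) :
    (∀ w s t, f (update w k s) = f (update w k t)) ∨
      ∀ w s t, f (update w l s) = f (update w l t) := by
  rcases hu with ⟨k0, h⟩ | h
  · by_cases hk : k = k0
    · right
      intro w s t
      apply h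
      subst hk
      rw [update_of_ne hkl, update_of_ne hkl]
    · left
      intro w s t
      apply h
      rw [update_of_ne (Ne.symm hk), update_of_ne (Ne.symm hk)]
  · left
    intro w s t
    exact h _ _

end functions

end Pool.Agent.Q257.PC
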