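import Mathlib
import Pool.Agent.Q257.PC.Core

set_option autoImplicit false

/-!
# Minimal pairs of words of a code which is closed under coordinatewise operations
-/

open Finset Function

namespace Pool.Agent.Q257.PC

variable {ι : Type*}

/-- coordinatewise operations of any arity -/
abbrev Op (ι : Type*) := Σ r : ℕ, ι → (Fin r → K) → K

/-- the value of a coordinatewise operation -/
def Op.val (F : Op ι) (z : Fin F.1 → ι → K) : ι → K := fun i => F.2 i fun k => z k i

/-- closed under all operations of `P` -/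
def Closed (P : Set (Op ι)) (C : Finset (ι → K)) : Prop :=
  ∀ F ∈ P, ∀ z : Fin F.1 → ι → K, (∀ k, z k ∈ C) → F.val z ∈ C

/-- coordinatewise unary maps -/
def ap (φ : ι → K → K) (z : ι → K) : ι → K := fun i => φ i (z i)

def Un (C : Finset (ι → K)) (φ : ι → K → K) : Prop := ∀ z ∈ C, ap φ z ∈ C

def Perm (φ : ι → K → K) (i : ι) : Prop := φ i 0 ≠ φ i 1

lemma perm_iff {φ : ι → K → K} {i : ι} {s t : K} (h : s ≠ t) : Perm φ i ↔ φ i s ≠ φ i t := by
  unfold Perm
  rcases two_values s with h1 | h1 <;> rcases two_values t with h2 | h2 <;> subst h1 <;> subst h2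
  · exact absurd rfl h
  · rfl
  · exact ne_comm
  · exact absurd rfl h

lemma not_perm {φ : ι → K → K} {i : ι} (h : ¬ Perm φ i) (s t : K) : φ i s = φ i t := by
  by_cases hst : s = t
  · rw [hst]
  · by_contra hne
    exact h ((perm_iff hst).2 hne)

lemma perm_add {φ : ι → K → K} {i : ι} (h : Perm φ i) (s t : K) : φ i s + φ i t = s + t := by
  by_cases hst : s = t
  · rw [hst]
    have : ∀ a b : K, a + a = b + b := by decide
    exact this _ _
  · have h1 := (perm_iff hst).1 h
    have : ∀ a b c d : K, a ≠ b → c ≠ d → a + b = c + d := by decide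
    exact this _ _ _ _ h1 hst

/-- composition -/
def comp (p φ : ι → K → K) : ι → K → K := fun i t => p i (φ i t)

lemma ap_comp (p φ : ι → K → K) (z : ι → K) : ap (comp p φ) z = ap p (ap φ z) := rfl

lemma Un.comp {C : Finset (ι → K)} {p φ : ι → K → K} (hp : Un C p) (hφ : Un C φ) :
    Un C (comp p φ) := fun z hz => hp _ (hφ z hz)

lemma perm_comp {p φ : ι → K → K} {i : ι} : Perm (comp p φ) i ↔ Perm p i ∧ Perm φ i := by
  constructor
  · intro h
    refine ⟨?_, ?_⟩
    · by_contra hp
      exact h (not_perm hp _ _)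
    · by_contra hp
      apply h
      unfold comp
      rw [not_perm hp 0 1]
  · rintro ⟨h1, h2⟩
    exact (perm_iff h2).1 h1

lemma ap_add {p : ι → K → K} {u v : ι → K} (h : ∀ j, v j ≠ 0 → Perm p j) :
    ap p (u + v) = ap p u + v := by
  funext j
  show p j (u j + v j) = p j (u j) + v j
  by_cases hv : v j = 0
  · rw [hv, add_zero, add_zero]
  · have h1 := perm_add (h j hv) (u j + v j) (u j)
    have : ∀ a b u v : K, a + b = u + v + u → a = b + v := by decide
    exact this _ _ _ _ h1

/-- put a variable in the slot `k` -/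
def slot (F : Op ι) (w : Fin F.1 → ι → K) (k : Fin F.1) : ι → K → K :=
  fun i t => F.2 i (update (fun j => w j i) k t)

lemma upd_apply {r : ℕ} (w : Fin r → ι → K) (k : Fin r) (z : ι → K) (i : ι) :
    (fun j => update w k z j i) = update (fun j => w j i) k (z i) := by
  funext j
  by_cases hj : j = k
  · subst hj; simp
  · simp [hj]

lemma slot_un {P : Set (Op ι)} {C : Finset (ι → K)} (hC : Closed P C) {F : Op ι} (hF : F ∈ P)
    {w : Fin F.1 → ι → K} (hw : ∀ j, w j ∈ C) (k : Fin F.1) : Un C (slot F w k) := by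
  intro z hz
  have h1 := hC F hF (update w k z) (fun j => by
    by_cases hj : j = k
    · subst hj; simpa using hz
    · simpa [hj] using hw j)
  have h2 : F.val (update w k z) = ap (slot F w k) z := by
    funext i
    unfold Op.val ap slot
    rw [upd_apply]
  rwa [h2] at h1

/-- minimal pairs -/
structure MinPair (C : Finset (ι → K)) (Z : Finset ι) (x y : ι → K) : Prop where
  hx : x ∈ C
  hy : y ∈ C
  ne : x ≠ y
  agree : ∀ i ∈ Z, x i = y i
  min : ∀ a ∈ C, ∀ b ∈ C, a ≠ b → (∀ i ∈ Z, a i = b i) → (∀ i, a i ≠ b i → x i ≠ y i) →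
    ∀ i, x i ≠ y i → a i ≠ b i

lemma exists_min [Fintype ι] [DecidableEq ι] {C : Finset (ι → K)} {Z : Finset ι} :
    ∀ (n : ℕ) (a b : ι → K), (univ.filter fun i => a i ≠ b i).card ≤ n → a ∈ C → b ∈ C → a ≠ b →
      (∀ i ∈ Z, a i = b i) → ∃ x y, MinPair C Z x y ∧ ∀ i, x i ≠ y i → a i ≠ b i := by
  intro n
  induction n with
  | zero =>
    intro a b hn ha hb hab hZ
    exfalso
    apply hab
    funext i
    by_contra hne
    have : i ∈ (univ.filter fun i => a i ≠ b i) := by simp [hne]
    have := Finset.card_pos.2 ⟨i, this⟩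
    omega
  | succ n ih =>
    intro a b hn ha hb hab hZ
    by_cases hmin : MinPair C Z a b
    · exact ⟨a, b, hmin, fun i h => h⟩
    · have : ∃ a' ∈ C, ∃ b' ∈ C, a' ≠ b' ∧ (∀ i ∈ Z, a' i = b' i) ∧
          (∀ i, a' i ≠ b' i → a i ≠ b i) ∧ ∃ i, a i ≠ b i ∧ a' i = b' i := by
        by_contra hcon
        push Not at hcon
        exact hmin ⟨ha, hb, hab, hZ, fun a' ha' b' hb' h1 h2 h3 i hi => by
          intro heq
          exact hcon a' ha' b' hb' h1 h2 h3 i hi heq⟩
      obtain ⟨a', ha', b', hb', h1, h2, h3, i, hi, heq⟩ := this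
      have hlt : (univ.filter fun i => a' i ≠ b' i).card < (univ.filter fun i => a i ≠ b i).card := by
        apply Finset.card_lt_card
        rw [Finset.ssubset_iff_of_subset]
        · exact ⟨i, by simp [hi], by simp [heq]⟩
        · intro j hj
          simp only [mem_filter, mem_univ, true_and] at hj ⊢
          exact h3 j hj
      obtain ⟨x, y, hxy, h4⟩ := ih a' b' (by omega) ha' hb' h1 h2
      exact ⟨x, y, hxy, fun i hi => h3 i (h4 i hi)⟩

lemma MinPair.perm_iff_perm {C : Finset (ι → K)} {Z : Finset ι} {x y : ι → K}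
    (h : MinPair C Z x y) {φ : ι → K → K} (hφ : Un C φ) {i j : ι} (hi : x i ≠ y i)
    (hj : x j ≠ y j) : Perm φ i ↔ Perm φ j := by
  have key : ∀ i j, x i ≠ y i → x j ≠ y j → Perm φ i → Perm φ j := by
    intro i j hi hj hp
    have hne : ap φ x ≠ ap φ y := by
      intro heq
      exact (perm_iff hi).1 hp (congrFun heq i)
    have h1 := h.min (ap φ x) (hφ x h.hx) (ap φ y) (hφ y h.hy) hne
      (fun l hl => by unfold ap; rw [h.agree l hl])
      (fun l hl heq => hl (by unfold ap; rw [heq])) j hj
    exact (perm_iff hj).2 h1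
  exact ⟨key i j hi hj, key j i hj hi⟩

/-- non-affine operations allow two patterns only on a minimal difference set -/
lemma MinPair.two_patterns {P : Set (Op ι)} {C : Finset (ι → K)} (hC : Closed P C)
    {Z : Finset ι} {x y : ι → K} (h : MinPair C Z x y) {F : Op ι} (hF : F ∈ P) {i0 : ι}
    (hi0 : x i0 ≠ y i0) (hna : ¬ Affine (F.2 i0)) :
    (∀ c ∈ C, (∀ i, x i ≠ y i → c i = x i) ∨ ∀ i, x i ≠ y i → c i = y i) ∧
      ∀ i, x i ≠ y i → ¬ Affine (F.2 i) := by
  classical
  have hex : ∃ k l w, k ≠ l ∧ der (F.2 i0) k (update w l 0) ≠ der (F.2 i0) k (update w l 1) := by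
    by_contra hcon
    push Not at hcon
    exact hna (affine_of_der _ fun k l w hkl => hcon k l w hkl)
  obtain ⟨k, l, w, hkl, hder⟩ := hex
  set z : Fin F.1 → ι → K := fun j => if w j = x i0 then x else y with hz
  have hzC : ∀ j, z j ∈ C := by
    intro j
    rw [hz]
    by_cases hw : w j = x i0
    · simp only [hw, if_true]; exact h.hx
    · simp only [hw, if_false]; exact h.hy
  have hzi0 : (fun j => z j i0) = w := by
    funext j
    rw [hz]
    by_cases hw : w j = x i0
    · simp only [hw, if_true]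
    · simp only [hw, if_false]
      exact eq_of_ne_ne (Ne.symm hi0) hw
  have hun : ∀ v ∈ C, Un C (slot F (update z l v) k) := by
    intro v hv
    refine slot_un hC hF (fun j => ?_) k
    by_cases hj : j = l
    · subst hj; simpa using hv
    · simpa [hj] using hzC j
  have hperm : ∀ v i, Perm (slot F (update z l v) k) i ↔
      der (F.2 i) k (update (fun j => z j i) l (v i)) ≠ 0 := by
    intro v i
    unfold Perm slot der
    rw [upd_apply, Ne, Ne, add_eq_zero_iff']
  have hcongr : ∀ v v' i, v i = v' i → (Perm (slot F (update z l v) k) i ↔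
      Perm (slot F (update z l v') k) i) := by
    intro v v' i hv
    rw [hperm, hperm, hv]
  have hdiff : ¬ (Perm (slot F (update z l x) k) i0 ↔ Perm (slot F (update z l y) k) i0) := by
    rw [hperm, hperm, hzi0]
    rcases two_values (x i0) with h1 | h1 <;> rcases two_values (y i0) with h2 | h2
    · exact absurd (h1.trans h2.symm) hi0
    · rw [h1, h2]
      revert hder
      generalize der (F.2 i0) k (update w l 0) = a
      generalize der (F.2 i0) k (update w l 1) = b
      revert a b
      decide
    · rw [h1, h2]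
      revert hder
      generalize der (F.2 i0) k (update w l 0) = a
      generalize der (F.2 i0) k (update w l 1) = b
      revert a b
      decide
    · exact absurd (h1.trans h2.symm) hi0
  refine ⟨?_, ?_⟩
  · intro c hc
    by_contra hcon
    push Not at hcon
    obtain ⟨⟨i, hi, hci⟩, ⟨j, hj, hcj⟩⟩ := hcon
    have hci' : c i = y i := eq_of_ne_ne hci (Ne.symm hi)
    have hcj' : c j = x j := eq_of_ne_ne hcj hj
    apply hdiff
    rw [h.perm_iff_perm (hun x h.hx) hi0 hj, h.perm_iff_perm (hun y h.hy) hi0 hi,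
      ← hcongr c x j hcj', ← hcongr c y i hci']
    exact h.perm_iff_perm (hun c hc) hj hi
  · intro i hi haff
    apply hdiff
    rw [h.perm_iff_perm (hun x h.hx) hi0 hi, h.perm_iff_perm (hun y h.hy) hi0 hi, hperm, hperm,
      haff.der_const k (update (fun j => z j i) l (x i)) (update (fun j => z j i) l (y i))]

lemma slot_perm {F : Op ι} {i : ι} (hi : Affine (F.2 i)) (w : Fin F.1 → ι → K) (k : Fin F.1) :
    Perm (slot F w k) i ↔ Dep (F.2 i) k := by
  rw [hi.dep_iff k (fun j => w j i)]
  rfl

lemma MinPair.dep_iff_dep {P : Set (Op ι)} {C : Finset (ι → K)} (hC : Closed P C)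
    {Z : Finset ι} {x y : ι → K} (h : MinPair C Z x y) {F : Op ι} (hF : F ∈ P) {i j : ι}
    (hi : x i ≠ y i) (hj : x j ≠ y j) (hai : Affine (F.2 i)) (haj : Affine (F.2 j))
    (k : Fin F.1) : Dep (F.2 i) k ↔ Dep (F.2 j) k := by
  rw [← slot_perm hai (fun _ => x) k, ← slot_perm haj (fun _ => x) k]
  exact h.perm_iff_perm (slot_un hC hF (fun _ => h.hx) k) hi hj

/-- adding the difference of a minimal pair -/
lemma MinPair.flip {P : Set (Op ι)} {C : Finset (ι → K)} (hC : Closed P C)
    {Z : Finset ι} {x y : ι → K} (h : MinPair C Z x y) {F : Op ι} (hF : F ∈ P)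
    {k l : Fin F.1} (hkl : k ≠ l) (ha : ∀ i, x i ≠ y i → Affine (F.2 i))
    (hd : ∀ i, x i ≠ y i → Dep (F.2 i) k) :
    ∀ z ∈ C, ap (slot F (fun _ => x) l) z + (x + y) ∈ C := by
  intro z hz
  have h1 := slot_un hC hF (w := update (fun _ => x) k y) (fun j => by
    by_cases hj : j = k
    · subst hj; simpa using h.hy
    · simpa [hj] using h.hx) l z hz
  have h2 : ap (slot F (update (fun _ => x) k y) l) z = ap (slot F (fun _ => x) l) z + (x + y) := by
    funext i
    show F.2 i (update (fun j => update (fun _ => x) k y j i) l (z i)) =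
      F.2 i (update (fun _ => x i) l (z i)) + (x i + y i)
    rw [upd_apply, update_comm hkl]
    have e : update (fun _ : Fin F.1 => x i) l (z i) =
        update (update (fun _ : Fin F.1 => x i) l (z i)) k (x i) := by
      rw [update_comm (Ne.symm hkl)]
      congr 1
      exact (update_eq_self k (fun _ : Fin F.1 => x i)).symm
    by_cases hxy : x i = y i
    · rw [← hxy]
      rw [← e]
      have : ∀ a b : K, a = a + (b + b) := by decide
      exact this _ _
    · have h3 := ((ha i hxy).dep_iff' k (update (fun _ : Fin F.1 => x i) l (z i)) hxy).1 (hd i hxy)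
      rw [← e] at h3
      have : ∀ a b c d : K, a ≠ b → c ≠ d → b = a + (c + d) := by decide
      exact this _ _ _ _ h3 hxy
  rwa [h2] at h1

end Pool.Agent.Q257.PC
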