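import Mathlib
import Pool.Agent.Q257.PC.Pairs

set_option autoImplicit false
set_option linter.unusedSectionVars false

/-!
# The linear part
-/

open Finset Function

namespace Pool.Agent.Q257.PC

variable {ι : Type*} [Fintype ι] [DecidableEq ι]

/-- some operation of `P` is not affine in the coordinate `i` -/
def NonAff (P : Set (Op ι)) (i : ι) : Prop := ∃ F ∈ P, ¬ Affine (F.2 i)

/-- the operations of `P` are affine in the coordinate `i`, and one of them depends on two
variables -/
def Lin (P : Set (Op ι)) (i : ι) : Prop :=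
  (∀ F ∈ P, Affine (F.2 i)) ∧ ∃ F ∈ P, ¬ Unary (F.2 i)

variable {P : Set (Op ι)} {C : Finset (ι → K)} {Z : Finset ι}

/-- the vectors which generate the linear part -/
def IsE (P : Set (Op ι)) (C : Finset (ι → K)) (Z : Finset ι) (e : ι → K) : Prop :=
  ∃ x y, MinPair C Z x y ∧ e = x + y ∧ ∀ i, x i ≠ y i → Lin P i

lemma sum_ne {x y : ι → K} (i : ι) : (x + y) i ≠ 0 ↔ x i ≠ y i := by
  show x i + y i ≠ 0 ↔ _
  rw [Ne, add_eq_zero_iff']

lemma IsE.perm_iff_perm {e : ι → K} (he : IsE P C Z e) {φ : ι → K → K} (hφ : Un C φ) {i j : ι}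
    (hi : e i ≠ 0) (hj : e j ≠ 0) : Perm φ i ↔ Perm φ j := by
  obtain ⟨x, y, h, rfl, -⟩ := he
  rw [sum_ne] at hi hj
  exact h.perm_iff_perm hφ hi hj

lemma IsE.lin {e : ι → K} (he : IsE P C Z e) {i : ι} (hi : e i ≠ 0) : Lin P i := by
  obtain ⟨x, y, h, rfl, hl⟩ := he
  rw [sum_ne] at hi
  exact hl i hi

lemma IsE.exists_ne {e : ι → K} (he : IsE P C Z e) : ∃ i, e i ≠ 0 := by
  obtain ⟨x, y, h, rfl, -⟩ := he
  by_contra hcon
  push Not at hcon
  apply h.ne
  funext i
  exact add_eq_zero_iff'.1 (hcon i)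

lemma IsE.agree {e : ι → K} (he : IsE P C Z e) {i : ι} (hi : i ∈ Z) : e i = 0 := by
  obtain ⟨x, y, h, rfl, -⟩ := he
  exact add_eq_zero_iff'.2 (h.agree i hi)

lemma IsE.mem {e : ι → K} (he : IsE P C Z e) : C.Nonempty := by
  obtain ⟨x, y, h, rfl, -⟩ := he
  exact ⟨x, h.hx⟩

/-- a unary map and its translate -/
lemma IsE.translate (hC : Closed P C) {e : ι → K} (he : IsE P C Z e) :
    ∃ p, Un C p ∧ (∀ i, e i ≠ 0 → Perm p i) ∧ ∀ z ∈ C, ap p z + e ∈ C := by
  obtain ⟨i, hi⟩ := he.exists_ne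
  obtain ⟨x, y, h, rfl, hl⟩ := he
  rw [sum_ne] at hi
  obtain ⟨haff, F, hF, hu⟩ := hl i hi
  obtain ⟨k, l, hkl, hk, hl'⟩ := (haff F hF).two_dep hu
  refine ⟨slot F (fun _ => x) l, slot_un hC hF (fun _ => h.hx) l, ?_, ?_⟩
  · intro j hj
    rw [sum_ne] at hj
    rw [slot_perm ((hl j hj).1 F hF)]
    exact (h.dep_iff_dep hC hF hi hj (haff F hF) ((hl j hj).1 F hF) l).1 hl'
  · exact h.flip hC hF hkl (fun j hj => (hl j hj).1 F hF)
      (fun j hj => (h.dep_iff_dep hC hF hi hj (haff F hF) ((hl j hj).1 F hF) k).1 hk)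

/-- a unary map which is constant on a generator and a permutation at `i` -/
lemma IsE.drop (hC : Closed P C) {e : ι → K} (he : IsE P C Z e) {i : ι} (hi : Lin P i)
    {p : ι → K → K} (hp : Un C p) (hpe : ∀ j, e j ≠ 0 → Perm p j) (hpi : ¬ Perm p i) :
    ∃ ψ, Un C ψ ∧ Perm ψ i ∧ ∃ j, e j ≠ 0 ∧ ¬ Perm ψ j := by
  obtain ⟨j, hj⟩ := he.exists_ne
  have hlj := he.lin hj
  obtain ⟨x, hx⟩ := he.mem
  obtain ⟨haff, F, hF, hu⟩ := hi
  obtain ⟨k, l, hkl, hk, hl⟩ := (haff F hF).two_dep hu
  have haj := hlj.1 F hF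
  by_cases hkj : Dep (F.2 j) k
  · by_cases hlj' : Dep (F.2 j) l
    · refine ⟨fun i t => F.2 i (update (update (fun _ => x i) k (p i t)) l t), ?_, ?_, j, hj, ?_⟩
      · intro z hz
        have h1 := hC F hF (update (update (fun _ => x) k (ap p z)) l z) (fun j => by
          by_cases hj : j = l
          · subst hj; simpa using hz
          · rw [update_of_ne hj]
            by_cases hj2 : j = k
            · subst hj2; simpa using hp z hz
            · simpa [hj2] using hx)
        have h2 : F.val (update (update (fun _ => x) k (ap p z)) l z) =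
            ap (fun i t => F.2 i (update (update (fun _ => x i) k (p i t)) l t)) z := by
          funext i
          unfold Op.val
          rw [upd_apply, upd_apply]
          rfl
        rwa [h2] at h1
      · show F.2 i (update (update (fun _ => x i) k (p i 0)) l 0) ≠
          F.2 i (update (update (fun _ => x i) k (p i 1)) l 1)
        rw [not_perm hpi 0 1]
        exact ((haff F hF).dep_iff l _).1 hl
      · unfold Perm
        rw [not_not]
        show F.2 j (update (update (fun _ => x j) k (p j 0)) l 0) =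
          F.2 j (update (update (fun _ => x j) k (p j 1)) l 1)
        have h1 := ((haj).dep_iff l (update (fun _ => x j) k (p j 0))).1 hlj'
        have h2 := (haj.dep_iff' k (update (fun _ => x j) l 1) (hpe j hj)).1 hkj
        rw [update_comm (Ne.symm hkl), update_comm (Ne.symm hkl)] at h2
        exact eq_of_ne_ne h1 (Ne.symm h2)
    · refine ⟨slot F (fun _ => x) l, slot_un hC hF (fun _ => hx) l, ?_, j, hj, ?_⟩
      · rw [slot_perm (haff F hF)]; exact hl
      · rw [slot_perm haj]; exact hlj'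
  · refine ⟨slot F (fun _ => x) k, slot_un hC hF (fun _ => hx) k, ?_, j, hj, ?_⟩
    · rw [slot_perm (haff F hF)]; exact hk
    · rw [slot_perm haj]; exact hkj

lemma sum_apply_ne {S : Finset (ι → K)} {i : ι} (h : (∑ e ∈ S, e) i ≠ 0) : ∃ e ∈ S, e i ≠ 0 := by
  by_contra hcon
  push Not at hcon
  apply h
  rw [Finset.sum_apply]
  exact Finset.sum_eq_zero hcon

/-- the generators which survive at `i` can be added freely -/
lemma free_sums (hC : Closed P C) {i : ι} (hi : Lin P i) (S : Finset (ι → K))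
    (hS : ∀ e ∈ S, IsE P C Z e) : ∃ φ, Un C φ ∧ Perm φ i ∧ ∀ T ⊆ S,
      (∀ e ∈ T, ∀ j, e j ≠ 0 → Perm φ j) → ∀ z ∈ C, ap φ z + ∑ e ∈ T, e ∈ C := by
  classical
  induction S using Finset.induction_on with
  | empty =>
    refine ⟨fun _ t => t, fun z hz => hz, (show (0 : K) ≠ 1 by decide), ?_⟩
    intro T hT _ z hz
    rw [Finset.subset_empty.1 hT, Finset.sum_empty, add_zero]
    exact hz
  | insert e0 S he0 ih =>
    obtain ⟨φ, hφ, hφi, hT⟩ := ih fun e he => hS e (Finset.mem_insert_of_mem he)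
    have hE0 := hS e0 (Finset.mem_insert_self _ _)
    obtain ⟨p, hp, hpe, hpz⟩ := hE0.translate hC
    by_cases hpi : Perm p i
    · refine ⟨comp p φ, hp.comp hφ, perm_comp.2 ⟨hpi, hφi⟩, ?_⟩
      intro T hTS hperm z hz
      have hT' : T.erase e0 ⊆ S := by
        intro e he
        rw [Finset.mem_erase] at he
        rcases Finset.mem_insert.1 (hTS he.2) with h | h
        · exact absurd h he.1
        · exact h
      have h1 := hT (T.erase e0) hT' (fun e he j hj =>
        (perm_comp.1 (hperm e (Finset.mem_of_mem_erase he) j hj)).2) z hz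
      have h2 : ap p (ap φ z + ∑ e ∈ T.erase e0, e) = ap (comp p φ) z + ∑ e ∈ T.erase e0, e := by
        rw [ap_comp]
        refine ap_add fun j hj => ?_
        obtain ⟨e, he, hej⟩ := sum_apply_ne hj
        exact (perm_comp.1 (hperm e (Finset.mem_of_mem_erase he) j hej)).1
      by_cases hmem : e0 ∈ T
      · have h3 := hpz _ h1
        rw [h2, add_assoc, Finset.sum_erase_add _ _ hmem] at h3
        exact h3
      · have h3 := hp _ h1
        rw [h2, Finset.erase_eq_of_notMem hmem] at h3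
        exact h3
    · obtain ⟨ψ, hψ, hψi, j0, hj0, hψj⟩ := hE0.drop hC hi hp hpe hpi
      refine ⟨comp ψ φ, hψ.comp hφ, perm_comp.2 ⟨hψi, hφi⟩, ?_⟩
      intro T hTS hperm z hz
      have hmem : e0 ∉ T := fun hmem => hψj (perm_comp.1 (hperm e0 hmem j0 hj0)).1
      have hT' : T ⊆ S := by
        intro e he
        rcases Finset.mem_insert.1 (hTS he) with h | h
        · exact absurd (h ▸ he) hmem
        · exact h
      have h1 := hT T hT' (fun e he j hj => (perm_comp.1 (hperm e he j hj)).2) z hz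
      have h2 : ap ψ (ap φ z + ∑ e ∈ T, e) = ap (comp ψ φ) z + ∑ e ∈ T, e := by
        rw [ap_comp]
        refine ap_add fun j hj => ?_
        obtain ⟨e, he, hej⟩ := sum_apply_ne hj
        exact (perm_comp.1 (hperm e he j hej)).1
      rw [← h2]
      exact hψ _ h1

/-- the linear code spanned by the generators -/
def W (P : Set (Op ι)) (C : Finset (ι → K)) (Z : Finset ι) : Submodule K (ι → K) :=
  Submodule.span K {e | IsE P C Z e}

lemma mem_W_iff {w : ι → K} (hw : w ∈ W P C Z) :
    ∃ S : Finset (ι → K), (∀ e ∈ S, IsE P C Z e) ∧ w = ∑ e ∈ S, e := by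
  classical
  unfold W at hw
  induction hw using Submodule.span_induction with
  | mem e he => exact ⟨{e}, by simpa using he, by simp⟩
  | zero => exact ⟨∅, by simp, by simp⟩
  | add u v _ _ hu hv =>
    obtain ⟨S, hS, rfl⟩ := hu
    obtain ⟨T, hT, rfl⟩ := hv
    refine ⟨symmDiff S T, ?_, ?_⟩
    · intro e he
      rw [Finset.mem_symmDiff] at he
      rcases he with h | h
      · exact hS e h.1
      · exact hT e h.1
    · have h1 : symmDiff S T = (S \ T) ∪ (T \ S) := rfl
      rw [h1, Finset.sum_union (disjoint_sdiff_sdiff)]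
      have h2 : ∑ e ∈ S, e = ∑ e ∈ S \ T, e + ∑ e ∈ S ∩ T, e := by
        rw [← Finset.sum_union]
        · rw [Finset.sdiff_union_inter]
        · exact Finset.disjoint_sdiff_inter S T
      have h3 : ∑ e ∈ T, e = ∑ e ∈ T \ S, e + ∑ e ∈ S ∩ T, e := by
        rw [Finset.inter_comm, ← Finset.sum_union]
        · rw [Finset.sdiff_union_inter]
        · exact Finset.disjoint_sdiff_inter T S
      rw [h2, h3]
      have h4 : ∀ a b c : ι → K, a + c + (b + c) = a + b := by
        intro a b c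
        funext i
        have : ∀ a b c : K, a + c + (b + c) = a + b := by decide
        exact this _ _ _
      exact h4 _ _ _
  | smul a u _ hu =>
    obtain ⟨S, hS, rfl⟩ := hu
    rcases two_values a with h | h
    · exact ⟨∅, by simp, by rw [h]; simp⟩
    · exact ⟨S, hS, by rw [h, one_smul]⟩

/-- minimum distance at least `d` -/
def Far (d : ℕ) (C : Finset (ι → K)) : Prop :=
  ∀ x ∈ C, ∀ y ∈ C, x ≠ y → d ≤ hammingDist x y

lemma W_supp {w : ι → K} (hw : w ∈ W P C Z) {i : ι} (hi : w i ≠ 0) : Lin P i := by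
  obtain ⟨S, hS, rfl⟩ := mem_W_iff hw
  obtain ⟨e, he, hei⟩ := sum_apply_ne hi
  exact (hS e he).lin hei

lemma W_far (hC : Closed P C) {d : ℕ} (hd : Far d C) {w : ι → K} (hw : w ∈ W P C Z)
    (hw0 : w ≠ 0) : d ≤ hammingNorm w := by
  classical
  obtain ⟨i, hi⟩ : ∃ i, w i ≠ 0 := by
    by_contra hcon
    push Not at hcon
    exact hw0 (funext hcon)
  have hli := W_supp hw hi
  obtain ⟨S, hS, rfl⟩ := mem_W_iff hw
  obtain ⟨φ, hφ, hφi, hT⟩ := free_sums hC hli S hS
  set T := S.filter fun e => ∀ j, e j ≠ 0 → Perm φ j with hTdef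
  have hout : ∀ e ∈ S, e ∉ T → ∀ j, Perm φ j → e j = 0 := by
    intro e he heT j hj
    by_contra hne
    apply heT
    rw [hTdef, Finset.mem_filter]
    exact ⟨he, fun j' hj' => ((hS e he).perm_iff_perm hφ hne hj').1 hj⟩
  have hsum : ∀ j, Perm φ j → (∑ e ∈ T, e) j = (∑ e ∈ S, e) j := by
    intro j hj
    rw [Finset.sum_apply, Finset.sum_apply]
    exact Finset.sum_subset (Finset.filter_subset _ _) fun e he heT => hout e he heT j hj
  obtain ⟨e1, he1, -⟩ := sum_apply_ne hi
  obtain ⟨z, hz⟩ := (hS e1 he1).mem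
  have h1 := hT T (Finset.filter_subset _ _) (fun e he => (Finset.mem_filter.1 he).2) z hz
  have h2 : ap φ z + ∑ e ∈ T, e ≠ ap φ z := by
    intro heq
    have h3 : (ap φ z + ∑ e ∈ T, e) i = ap φ z i := congrFun heq i
    have h4 : ap φ z i + (∑ e ∈ T, e) i = ap φ z i := h3
    rw [hsum i hφi] at h4
    exact hi (by simpa using h4)
  refine (hd _ h1 _ (hφ z hz) h2).trans ?_
  unfold hammingDist hammingNorm
  apply Finset.card_le_card
  intro j hj
  simp only [mem_filter, mem_univ, true_and] at hj ⊢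
  have h5 : (∑ e ∈ T, e) j ≠ 0 := by
    intro h0
    apply hj
    show ap φ z j + (∑ e ∈ T, e) j = ap φ z j
    rw [h0, add_zero]
  obtain ⟨e, he, hej⟩ := sum_apply_ne h5
  rw [← hsum j ((Finset.mem_filter.1 he).2 j hej)]
  exact h5

end Pool.Agent.Q257.PC
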