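import Mathlib
import Pool.Agent.Q257.PC.Lin

set_option autoImplicit false
set_option linter.unusedSectionVars false

/-!
# The count
-/

open Finset Function

namespace Pool.Agent.Q257.PC

/-- the largest size of a binary code of length `n` and minimum distance at least `d` -/
noncomputable def A (n d : ℕ) : ℕ :=
  sSup {k | ∃ C : Finset (Fin n → K), Far d C ∧ C.card = k}

/-- the largest size of a binary linear code of length `n` and minimum distance at least `d` -/
noncomputable def B (n d : ℕ) : ℕ :=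
  sSup {k | ∃ V : Submodule K (Fin n → K), (∀ w ∈ V, w ≠ 0 → d ≤ hammingNorm w) ∧ Nat.card V = k}

lemma A_bdd (n d : ℕ) : BddAbove {k | ∃ C : Finset (Fin n → K), Far d C ∧ C.card = k} := by
  refine ⟨Fintype.card (Fin n → K), ?_⟩
  rintro k ⟨C, -, rfl⟩
  exact Finset.card_le_univ C

lemma B_bdd (n d : ℕ) : BddAbove {k | ∃ V : Submodule K (Fin n → K),
    (∀ w ∈ V, w ≠ 0 → d ≤ hammingNorm w) ∧ Nat.card V = k} := by
  refine ⟨Nat.card (Fin n → K), ?_⟩
  rintro k ⟨V, -, rfl⟩
  exact Nat.card_le_card_of_injective (fun v : V => (v : Fin n → K)) Subtype.val_injective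

lemma card_le_A {κ : Type*} [Fintype κ] [DecidableEq κ] {d : ℕ} {C : Finset (κ → K)}
    (h : Far d C) : C.card ≤ A (Fintype.card κ) d := by
  classical
  set e := Fintype.equivFin κ
  set g : (κ → K) → (Fin (Fintype.card κ) → K) := fun x => x ∘ e.symm with hg
  have hinj : Function.Injective g := by
    intro x y hxy
    funext i
    have := congrFun hxy (e i)
    simpa [hg] using this
  have hdist : ∀ x y : κ → K, hammingDist (g x) (g y) = hammingDist x y := by
    intro x y
    unfold hammingDist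
    refine Finset.card_equiv e.symm ?_
    intro i
    simp [hg]
  rw [← Finset.card_image_of_injective C hinj]
  refine le_csSup (A_bdd _ _) ⟨_, ?_, rfl⟩
  intro x hx y hy hxy
  obtain ⟨x', hx', rfl⟩ := Finset.mem_image.1 hx
  obtain ⟨y', hy', rfl⟩ := Finset.mem_image.1 hy
  rw [hdist]
  exact h x' hx' y' hy' fun heq => hxy (by rw [heq])

lemma card_le_B {κ : Type*} [Fintype κ] [DecidableEq κ] {d : ℕ} {V : Submodule K (κ → K)}
    (h : ∀ w ∈ V, w ≠ 0 → d ≤ hammingNorm w) : Nat.card V ≤ B (Fintype.card κ) d := by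
  classical
  set e := Fintype.equivFin κ
  set g := LinearEquiv.funCongrLeft K K e.symm with hg
  have hnorm : ∀ x : κ → K, hammingNorm (g x) = hammingNorm x := by
    intro x
    unfold hammingNorm
    refine Finset.card_equiv e.symm ?_
    intro i
    simp [hg]
  have hcard : Nat.card V = Nat.card (V.map (g : (κ → K) →ₗ[K] (Fin (Fintype.card κ) → K))) :=
    Nat.card_congr (g.submoduleMap V).toEquiv
  rw [hcard]
  refine le_csSup (B_bdd _ _) ⟨_, ?_, rfl⟩
  intro w hw hw0
  obtain ⟨v, hv, rfl⟩ := hw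
  have h1 : hammingNorm (g v) = hammingNorm v := hnorm v
  refine (h v hv ?_).trans_eq h1.symm
  rintro rfl
  exact hw0 (map_zero _)

variable {ι : Type*} [Fintype ι] [DecidableEq ι]
variable {P : Set (Op ι)} {C : Finset (ι → K)} {Z : Finset ι}

/-- the coordinates where `F` depends on its variables `k` and `l` -/
def Mk (P : Set (Op ι)) (F : Op ι) (k l : Fin F.1) (i : ι) : Prop :=
  Lin P i ∧ Dep (F.2 i) k ∧ Dep (F.2 i) l

open Classical in
/-- restriction -/
noncomputable def res (Q : ι → Prop) (v : ι → K) : ι → K := fun i => if Q i then v i else 0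

lemma res_pos {Q : ι → Prop} {v : ι → K} {i : ι} (h : Q i) : res Q v i = v i := by
  unfold res; rw [if_pos h]

lemma res_neg {Q : ι → Prop} {v : ι → K} {i : ι} (h : ¬ Q i) : res Q v i = 0 := by
  unfold res; rw [if_neg h]

/-- no minimal pair meets the non-affine coordinates -/
def Terminal (P : Set (Op ι)) (C : Finset (ι → K)) (Z : Finset ι) : Prop :=
  ∀ x y, MinPair C Z x y → ∀ i, x i ≠ y i → ¬ NonAff P i

lemma claim3 (hC : Closed P C) (hT : Terminal P C Z) {F : Op ι} (hF : F ∈ P) {k l : Fin F.1}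
    (hkl : k ≠ l) : ∀ (n : ℕ) (a b : ι → K), (univ.filter fun i => a i ≠ b i).card ≤ n → a ∈ C →
      b ∈ C → (∀ i ∈ Z, a i = b i) → (∀ i, ¬ NonAff P i → ¬ Lin P i → a i = b i) →
      (∀ i, Lin P i → a i ≠ b i → Mk P F k l i) → res (Lin P) (a + b) ∈ W P C Z := by
  classical
  have hzero : ∀ a : ι → K, res (Lin P) (a + a) = 0 := by
    intro a
    funext i
    by_cases h : Lin P i
    · rw [res_pos h]
      exact add_eq_zero_iff'.2 rfl
    · rw [res_neg h]; rfl
  intro n
  induction n with
  | zero =>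
    intro a b hn ha hb _ _ _
    have hab : a = b := by
      funext i
      by_contra hne
      have : i ∈ (univ.filter fun i => a i ≠ b i) := by simp [hne]
      have := Finset.card_pos.2 ⟨i, this⟩
      omega
    rw [hab, hzero]
    exact Submodule.zero_mem _
  | succ n ih =>
    intro a b hn ha hb hZ hU hM
    by_cases hab : a = b
    · rw [hab, hzero]
      exact Submodule.zero_mem _
    obtain ⟨x, y, hxy, hsub⟩ := exists_min _ a b le_rfl ha hb hab hZ
    have hlin : ∀ i, x i ≠ y i → Lin P i := by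
      intro i hi
      by_contra hl
      exact hsub i hi (hU i (hT x y hxy i hi) hl)
    have hMk : ∀ i, x i ≠ y i → Mk P F k l i := fun i hi => hM i (hlin i hi) (hsub i hi)
    have hE : x + y ∈ W P C Z := Submodule.subset_span ⟨x, y, hxy, rfl, hlin⟩
    set φ := slot F (fun _ => x) l with hφ
    have hun : Un C φ := slot_un hC hF (fun _ => hxy.hx) l
    have hb' : ap φ b + (x + y) ∈ C :=
      hxy.flip hC hF hkl (fun i hi => (hlin i hi).1 F hF) (fun i hi => (hMk i hi).2.1) b hb
    have hperm : ∀ i, Mk P F k l i → Perm φ i := fun i hi => by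
      rw [hφ, slot_perm (hi.1.1 F hF)]
      exact hi.2.2
    have hkey : ∀ i, ap φ a i ≠ (ap φ b + (x + y)) i → a i ≠ b i ∧ x i = y i := by
      intro i hi
      by_cases h1 : x i = y i
      · refine ⟨?_, h1⟩
        intro h2
        apply hi
        show φ i (a i) = φ i (b i) + (x i + y i)
        rw [h1, h2]
        have : ∀ a b : K, a = a + (b + b) := by decide
        exact this _ _
      · exfalso
        apply hi
        have h2 := hperm i (hMk i h1)
        have h3 := (perm_iff (hsub i h1)).1 h2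
        show φ i (a i) = φ i (b i) + (x i + y i)
        have : ∀ a b c d : K, a ≠ b → c ≠ d → a = b + (c + d) := by decide
        exact this _ _ _ _ h3 h1
    have hlt : (univ.filter fun i => ap φ a i ≠ (ap φ b + (x + y)) i).card ≤ n := by
      obtain ⟨i, hi⟩ : ∃ i, x i ≠ y i := by
        by_contra hcon
        push Not at hcon
        exact hxy.ne (funext hcon)
      have : (univ.filter fun i => ap φ a i ≠ (ap φ b + (x + y)) i).card <
          (univ.filter fun i => a i ≠ b i).card := by
        apply Finset.card_lt_card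
        rw [Finset.ssubset_iff_of_subset]
        · refine ⟨i, by simpa using hsub i hi, ?_⟩
          intro hmem
          simp only [mem_filter, mem_univ, true_and] at hmem
          exact hi (hkey i hmem).2
        · intro j hj
          simp only [mem_filter, mem_univ, true_and] at hj ⊢
          exact (hkey j hj).1
      omega
    have h1 := ih (ap φ a) (ap φ b + (x + y)) hlt (hun a ha) hb' ?_ ?_ ?_
    · have h2 : res (Lin P) (a + b) =
          res (Lin P) (ap φ a + (ap φ b + (x + y))) + (x + y) := by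
        funext i
        by_cases hl : Lin P i
        · rw [res_pos hl]
          show a i + b i = res (Lin P) (ap φ a + (ap φ b + (x + y))) i + (x i + y i)
          rw [res_pos hl]
          show a i + b i = φ i (a i) + (φ i (b i) + (x i + y i)) + (x i + y i)
          have h3 : φ i (a i) + φ i (b i) = a i + b i := by
            by_cases h4 : a i = b i
            · rw [h4]
              have : ∀ a b : K, a + a = b + b := by decide
              exact this _ _
            · exact perm_add (hperm i (hM i hl h4)) _ _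
          have : ∀ a b c d : K, a + b = c → c = a + (b + d) + d := by decide
          exact this _ _ _ _ h3
        · rw [res_neg hl]
          show 0 = res (Lin P) (ap φ a + (ap φ b + (x + y))) i + (x i + y i)
          rw [res_neg hl]
          have h3 : x i = y i := by
            by_contra h4
            exact hl (hlin i h4)
          rw [h3]
          have : ∀ a : K, 0 = 0 + (a + a) := by decide
          exact this _
      rw [h2]
      exact Submodule.add_mem _ h1 hE
    · intro i hi
      by_contra h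
      exact (hkey i h).1 (hZ i hi)
    · intro i h2 h3
      by_contra h
      exact (hkey i h).1 (hU i h2 h3)
    · intro i h2 h3
      exact hM i h2 (hkey i h3).1

/-- projection to the coordinates of `Mk` -/
def gam (F : Op ι) (k l : Fin F.1) (c : ι → K) : ι → K → K :=
  comp (slot F (fun _ => c) l) (slot F (fun _ => c) k)

lemma gam_un (hC : Closed P C) {F : Op ι} (hF : F ∈ P) (k l : Fin F.1) {c : ι → K}
    (hc : c ∈ C) : Un C (gam F k l c) :=
  (slot_un hC hF (fun _ => hc) l).comp (slot_un hC hF (fun _ => hc) k)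

lemma gam_perm {F : Op ι} (hF : F ∈ P) (k l : Fin F.1) (c : ι → K) {i : ι} (hi : Lin P i) :
    Perm (gam F k l c) i ↔ Mk P F k l i := by
  unfold gam
  rw [perm_comp, slot_perm (hi.1 F hF), slot_perm (hi.1 F hF)]
  exact ⟨fun h => ⟨hi, h.2, h.1⟩, fun h => ⟨h.2.2, h.2.1⟩⟩

lemma gam_const {F : Op ι} (hF : F ∈ P) {k l : Fin F.1} (hkl : k ≠ l) (c : ι → K) {i : ι}
    (hi : ¬ NonAff P i) (hi' : ¬ Lin P i) : ¬ Perm (gam F k l c) i := by
  have hu : Unary (F.2 i) := by
    by_contra hu
    apply hi'
    refine ⟨fun G hG => ?_, F, hF, hu⟩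
    by_contra hG'
    exact hi ⟨G, hG, hG'⟩
  unfold gam
  rw [perm_comp]
  rintro ⟨h1, h2⟩
  rcases hu.not_two hkl with h | h
  · exact h2 (h _ _ _)
  · exact h1 (h _ _ _)

lemma gam_add {F : Op ι} (hF : F ∈ P) (k l : Fin F.1) (c a b : ι → K) {i : ι} (hi : Lin P i) :
    (ap (gam F k l c) a + ap (gam F k l c) b) i = res (Mk P F k l) (a + b) i := by
  show gam F k l c i (a i) + gam F k l c i (b i) = _
  by_cases h : Mk P F k l i
  · rw [res_pos h]
    exact perm_add ((gam_perm hF k l c hi).2 h) _ _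
  · rw [res_neg h]
    exact add_eq_zero_iff'.2 (not_perm (fun h1 => h ((gam_perm hF k l c hi).1 h1)) _ _)

lemma claim2 (hC : Closed P C) (hT : Terminal P C Z) {F : Op ι} (hF : F ∈ P) {k l : Fin F.1}
    (hkl : k ≠ l) {a b : ι → K} (ha : a ∈ C) (hb : b ∈ C) (hZ : ∀ i ∈ Z, a i = b i) :
    res (Mk P F k l) (a + b) ∈ W P C Z := by
  classical
  have h1 := claim3 hC hT hF hkl _ (ap (gam F k l a) a) (ap (gam F k l a) b) le_rfl
    (gam_un hC hF k l ha a ha) (gam_un hC hF k l ha b hb)
    (fun i hi => by unfold ap; rw [hZ i hi])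
    (fun i h1 h2 => not_perm (gam_const hF hkl a h1 h2) _ _)
    (fun i h1 h2 => by
      by_contra h3
      exact h2 (not_perm (fun h4 => h3 ((gam_perm hF k l a h1).1 h4)) _ _))
  have h2 : res (Lin P) (ap (gam F k l a) a + ap (gam F k l a) b) =
      res (Mk P F k l) (a + b) := by
    funext i
    by_cases h : Lin P i
    · rw [res_pos h, gam_add hF k l a a b h]
    · rw [res_neg h, res_neg fun h' => h h'.1]
  rwa [h2] at h1

lemma union_claim (hC : Closed P C) (hT : Terminal P C Z)
    (ts : List (Σ F : Op ι, Fin F.1 × Fin F.1)) (hts : ∀ t ∈ ts, t.1 ∈ P ∧ t.2.1 ≠ t.2.2) :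
    ∀ a ∈ C, ∀ b ∈ C, (∀ i ∈ Z, a i = b i) →
      res (fun i => ∃ t ∈ ts, Mk P t.1 t.2.1 t.2.2 i) (a + b) ∈ W P C Z := by
  classical
  induction ts with
  | nil =>
    intro a _ b _ _
    have : res (fun i => ∃ t ∈ ([] : List (Σ F : Op ι, Fin F.1 × Fin F.1)),
        Mk P t.1 t.2.1 t.2.2 i) (a + b) = 0 := by
      funext i
      rw [res_neg (by simp)]
      rfl
    rw [this]
    exact Submodule.zero_mem _
  | cons t ts ih =>
    intro a ha b hb hZ
    obtain ⟨hF, hkl⟩ := hts t List.mem_cons_self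
    have hts' : ∀ t ∈ ts, t.1 ∈ P ∧ t.2.1 ≠ t.2.2 := fun t ht => hts t (List.mem_cons_of_mem _ ht)
    have h1 := claim2 hC hT hF hkl ha hb hZ
    have h2 := ih hts' a ha b hb hZ
    have hg := gam_un hC hF t.2.1 t.2.2 ha
    have h3 := ih hts' _ (hg a ha) _ (hg b hb) (fun i hi => by unfold ap; rw [hZ i hi])
    have h4 : res (fun i => ∃ t' ∈ t :: ts, Mk P t'.1 t'.2.1 t'.2.2 i) (a + b) =
        res (Mk P t.1 t.2.1 t.2.2) (a + b) +
          res (fun i => ∃ t ∈ ts, Mk P t.1 t.2.1 t.2.2 i) (a + b) +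
          res (fun i => ∃ t ∈ ts, Mk P t.1 t.2.1 t.2.2 i)
            (ap (gam t.1 t.2.1 t.2.2 a) a + ap (gam t.1 t.2.1 t.2.2 a) b) := by
      funext i
      show _ = res (Mk P t.1 t.2.1 t.2.2) (a + b) i +
          res (fun i => ∃ t ∈ ts, Mk P t.1 t.2.1 t.2.2 i) (a + b) i +
          res (fun i => ∃ t ∈ ts, Mk P t.1 t.2.1 t.2.2 i)
            (ap (gam t.1 t.2.1 t.2.2 a) a + ap (gam t.1 t.2.1 t.2.2 a) b) i
      by_cases hR : ∃ t ∈ ts, Mk P t.1 t.2.1 t.2.2 i
      · have hli : Lin P i := by
          obtain ⟨t', -, h⟩ := hR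
          exact h.1
        have hR' : ∃ t' ∈ t :: ts, Mk P t'.1 t'.2.1 t'.2.2 i := by
          obtain ⟨t', ht', h⟩ := hR
          exact ⟨t', List.mem_cons_of_mem _ ht', h⟩
        rw [res_pos (Q := fun i => ∃ t' ∈ t :: ts, Mk P t'.1 t'.2.1 t'.2.2 i) hR',
          res_pos (Q := fun i => ∃ t ∈ ts, Mk P t.1 t.2.1 t.2.2 i) hR,
          res_pos (Q := fun i => ∃ t ∈ ts, Mk P t.1 t.2.1 t.2.2 i) hR,
          gam_add hF _ _ _ _ _ hli]
        have : ∀ a b : K, a = b + a + b := by decide
        exact this _ _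
      · rw [res_neg (Q := fun i => ∃ t ∈ ts, Mk P t.1 t.2.1 t.2.2 i) hR,
          res_neg (Q := fun i => ∃ t ∈ ts, Mk P t.1 t.2.1 t.2.2 i) hR, add_zero, add_zero]
        by_cases hM : Mk P t.1 t.2.1 t.2.2 i
        · rw [res_pos hM, res_pos ⟨t, List.mem_cons_self, hM⟩]
        · rw [res_neg hM, res_neg]
          rintro ⟨t', ht', h⟩
          rcases List.mem_cons.1 ht' with h5 | h5
          · subst h5; exact hM h
          · exact hR ⟨t', h5, h⟩
    rw [h4]
    exact Submodule.add_mem _ (Submodule.add_mem _ h1 h2) h3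

lemma exists_cover (P : Set (Op ι)) (s : Finset ι) :
    ∃ ts : List (Σ F : Op ι, Fin F.1 × Fin F.1), (∀ t ∈ ts, t.1 ∈ P ∧ t.2.1 ≠ t.2.2) ∧
      ∀ i ∈ s, Lin P i → ∃ t ∈ ts, Mk P t.1 t.2.1 t.2.2 i := by
  induction s using Finset.induction_on with
  | empty => exact ⟨[], by simp, by simp⟩
  | insert i s _ ih =>
    obtain ⟨ts, h1, h2⟩ := ih
    by_cases hi : Lin P i
    · obtain ⟨haff, F, hF, hu⟩ := id hi
      obtain ⟨k, l, hkl, hk, hl⟩ := (haff F hF).two_dep hu
      refine ⟨⟨F, k, l⟩ :: ts, ?_, ?_⟩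
      · intro t ht
        rcases List.mem_cons.1 ht with h | h
        · subst h; exact ⟨hF, hkl⟩
        · exact h1 t h
      · intro j hj hlj
        rcases Finset.mem_insert.1 hj with h | h
        · subst h; exact ⟨_, List.mem_cons_self, hi, hk, hl⟩
        · obtain ⟨t, ht, h3⟩ := h2 j h hlj
          exact ⟨t, List.mem_cons_of_mem _ ht, h3⟩
    · refine ⟨ts, h1, ?_⟩
      intro j hj hlj
      rcases Finset.mem_insert.1 hj with h | h
      · subst h; exact absurd hlj hi
      · exact h2 j h hlj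

lemma lin_part (hC : Closed P C) (hT : Terminal P C Z) {a b : ι → K} (ha : a ∈ C) (hb : b ∈ C)
    (hZ : ∀ i ∈ Z, a i = b i) : res (Lin P) (a + b) ∈ W P C Z := by
  obtain ⟨ts, h1, h2⟩ := exists_cover P (univ : Finset ι)
  have h3 := union_claim hC hT ts h1 a ha b hb hZ
  have h4 : res (fun i => ∃ t ∈ ts, Mk P t.1 t.2.1 t.2.2 i) (a + b) = res (Lin P) (a + b) := by
    funext i
    by_cases h : Lin P i
    · rw [res_pos h, res_pos (Q := fun i => ∃ t ∈ ts, Mk P t.1 t.2.1 t.2.2 i)
        (h2 i (Finset.mem_univ i) h)]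
    · rw [res_neg h, res_neg]
      rintro ⟨t, -, h5⟩
      exact h h5.1
  rwa [h4] at h3

end Pool.Agent.Q257.PC
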