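import Mathlib
import Pool.Agent.Q257.PC.Count

set_option autoImplicit false
set_option linter.unusedSectionVars false

/-!
# The bound
-/

open Finset Function

namespace Pool.Agent.Q257.PC

variable {ι : Type*} [Fintype ι] [DecidableEq ι]
variable {P : Set (Op ι)} {C : Finset (ι → K)} {Z : Finset ι}

open Classical in
/-- the number of non-affine coordinates outside `Z` -/
noncomputable def numN (P : Set (Op ι)) (Z : Finset ι) : ℕ :=
  (univ.filter fun i => NonAff P i ∧ i ∉ Z).card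

/-- a restricted code -/
lemma far_image {d : ℕ} (hd : Far d C) (Q : ι → Prop) [Fintype {i // Q i}]
    [DecidableEq ({i // Q i} → K)] (S : Finset (ι → K))
    (h : ∀ a ∈ S, ∀ b ∈ S, (∃ i, Q i ∧ a i ≠ b i) → ∃ x ∈ C, ∃ y ∈ C, x ≠ y ∧
      ∀ i, x i ≠ y i → Q i ∧ a i ≠ b i) :
    (S.image (fun (a : ι → K) (i : {i // Q i}) => a i)).card ≤ A (Fintype.card {i // Q i}) d := by
  refine card_le_A ?_
  intro u hu v hv huv
  obtain ⟨a, ha, rfl⟩ := Finset.mem_image.1 hu
  obtain ⟨b, hb, rfl⟩ := Finset.mem_image.1 hv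
  have hex : ∃ i, Q i ∧ a i ≠ b i := by
    by_contra hcon
    push Not at hcon
    exact huv (funext fun i => hcon i.1 i.2)
  obtain ⟨x, hx, y, hy, hxy, hsub⟩ := h a ha b hb hex
  refine (hd x hx y hy hxy).trans ?_
  have hsub2 : (univ.filter fun i => x i ≠ y i) ⊆
      (univ.filter fun j : {i // Q i} => a j ≠ b j).map (Embedding.subtype _) := by
    intro i hi
    rw [Finset.mem_filter] at hi
    rw [Finset.mem_map]
    refine ⟨⟨i, (hsub i hi.2).1⟩, ?_, rfl⟩
    rw [Finset.mem_filter]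
    exact ⟨Finset.mem_univ _, (hsub i hi.2).2⟩
  have h1 := Finset.card_le_card hsub2
  rw [Finset.card_map] at h1
  exact h1

lemma min_in_U (hT : Terminal P C Z) {a b : ι → K} (ha : a ∈ C) (hb : b ∈ C) (hab : a ≠ b)
    (hZ : ∀ i ∈ Z, a i = b i) (hL : ∀ i, Lin P i → a i = b i) :
    ∃ x ∈ C, ∃ y ∈ C, x ≠ y ∧ ∀ i, x i ≠ y i → (¬ NonAff P i ∧ ¬ Lin P i) ∧ a i ≠ b i := by
  obtain ⟨x, y, hxy, hsub⟩ := exists_min _ a b le_rfl ha hb hab hZ
  exact ⟨x, hxy.hx, y, hxy.hy, hxy.ne, fun i hi =>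
    ⟨⟨hT x y hxy i hi, fun hl => hsub i hi (hL i hl)⟩, hsub i hi⟩⟩

open Classical in
lemma fiber1 (hT : Terminal P C Z) {d : ℕ} (hd : Far d C)
    {S : Finset (ι → K)} (hSC : ∀ a ∈ S, a ∈ C) (hSZ : ∀ a ∈ S, ∀ b ∈ S, ∀ i ∈ Z, a i = b i)
    (hSL : ∀ a ∈ S, ∀ b ∈ S, ∀ i, Lin P i → a i = b i) {φ : ι → K → K} (hφ : Un C φ) :
    (S.image (fun (a : ι → K) (i : {i // ¬ NonAff P i ∧ ¬ Lin P i ∧ Perm φ i}) => a i)).card ≤
        A (Fintype.card {i // ¬ NonAff P i ∧ ¬ Lin P i ∧ Perm φ i}) d := by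
  refine far_image hd (fun i => ¬ NonAff P i ∧ ¬ Lin P i ∧ Perm φ i) S ?_
  rintro a ha b hb ⟨i, hQ, hi⟩
  have hne : ap φ a ≠ ap φ b := fun heq => (perm_iff hi).1 hQ.2.2 (congrFun heq i)
  obtain ⟨x, hx, y, hy, hxy, hsub⟩ := min_in_U hT (hφ a (hSC a ha))
    (hφ b (hSC b hb)) hne (fun j hj => by unfold ap; rw [hSZ a ha b hb j hj])
    (fun j hj => by unfold ap; rw [hSL a ha b hb j hj])
  refine ⟨x, hx, y, hy, hxy, fun j hj => ?_⟩
  obtain ⟨⟨h1, h2⟩, h3⟩ := hsub j hj
  refine ⟨⟨h1, h2, ?_⟩, ?_⟩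
  · by_contra hp
    exact h3 (not_perm hp _ _)
  · intro heq
    apply h3
    unfold ap
    rw [heq]

open Classical in
lemma fiber2 (hT : Terminal P C Z) {d : ℕ} (hd : Far d C)
    {S : Finset (ι → K)} (hSC : ∀ a ∈ S, a ∈ C) (hSZ : ∀ a ∈ S, ∀ b ∈ S, ∀ i ∈ Z, a i = b i)
    (hSL : ∀ a ∈ S, ∀ b ∈ S, ∀ i, Lin P i → a i = b i) (φ : ι → K → K)
    (hSφ : ∀ a ∈ S, ∀ b ∈ S, ∀ i, ¬ NonAff P i → ¬ Lin P i → Perm φ i → a i = b i) :
    S.card ≤ A (Fintype.card {i // ¬ NonAff P i ∧ ¬ Lin P i ∧ ¬ Perm φ i}) d := by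
  have hsub3 : ∀ a ∈ S, ∀ b ∈ S, a ≠ b →
      ∃ x ∈ C, ∃ y ∈ C, x ≠ y ∧ ∀ i, x i ≠ y i →
        (¬ NonAff P i ∧ ¬ Lin P i ∧ ¬ Perm φ i) ∧ a i ≠ b i := by
    intro a ha b hb hab
    obtain ⟨x, hx, y, hy, hxy, hsub⟩ := min_in_U hT (hSC a ha) (hSC b hb) hab
      (hSZ a ha b hb) (hSL a ha b hb)
    refine ⟨x, hx, y, hy, hxy, fun j hj => ?_⟩
    obtain ⟨⟨h1, h2⟩, h3⟩ := hsub j hj
    exact ⟨⟨h1, h2, fun hp => h3 (hSφ a ha b hb j h1 h2 hp)⟩, h3⟩
  have hinj : Set.InjOn (fun (a : ι → K)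
      (i : {i // ¬ NonAff P i ∧ ¬ Lin P i ∧ ¬ Perm φ i}) => a i) S := by
    intro a ha b hb heq
    by_contra hab
    obtain ⟨x, hx, y, hy, hxy, hsub⟩ := hsub3 a ha b hb hab
    obtain ⟨i, hi⟩ : ∃ i, x i ≠ y i := by
      by_contra hcon
      push Not at hcon
      exact hxy (funext hcon)
    exact (hsub i hi).2 (congrFun heq ⟨i, (hsub i hi).1⟩)
  rw [← Finset.card_image_of_injOn hinj]
  refine far_image hd (fun i => ¬ NonAff P i ∧ ¬ Lin P i ∧ ¬ Perm φ i) _ ?_
  rintro a ha b hb ⟨i, -, hi⟩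
  exact hsub3 a ha b hb fun heq => hi (by rw [heq])

open Classical in
lemma lin_image (hC : Closed P C) (hT : Terminal P C Z) {d : ℕ} (hd : Far d C)
    {C' : Finset (ι → K)} (hC' : C' ⊆ C) (hag : ∀ a ∈ C', ∀ b ∈ C', ∀ i ∈ Z, a i = b i) :
    (C'.image (fun (a : ι → K) (i : {i // Lin P i}) => a i)).card ≤
      B (Fintype.card {i // Lin P i}) d := by
  rcases C'.eq_empty_or_nonempty with h0 | ⟨a0, ha0⟩
  · rw [h0]; simp
  · have hc : Nat.card ((W P C Z).map (LinearMap.funLeft K K
        (Subtype.val : {i // Lin P i} → ι))) =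
        ((((W P C Z).map (LinearMap.funLeft K K (Subtype.val : {i // Lin P i} → ι)) :
          Submodule K ({i // Lin P i} → K)) : Set ({i // Lin P i} → K))).ncard := rfl
    refine le_trans ?_ (card_le_B (V := (W P C Z).map (LinearMap.funLeft K K
        (Subtype.val : {i // Lin P i} → ι))) ?_)
    · have hinj : Function.Injective (fun v : {i // Lin P i} → K => v + fun i => a0 i.1) :=
        add_left_injective _
      rw [← Finset.card_image_of_injective _ hinj, hc, ← Set.ncard_coe_finset]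
      refine Set.ncard_le_ncard ?_ (Set.toFinite _)
      intro v hv
      rw [Finset.mem_coe, Finset.mem_image] at hv
      obtain ⟨u, hu, rfl⟩ := hv
      obtain ⟨a, ha, rfl⟩ := Finset.mem_image.1 hu
      refine ⟨res (Lin P) (a + a0), lin_part hC hT (hC' ha) (hC' ha0) (hag a ha a0 ha0), ?_⟩
      funext i
      show res (Lin P) (a + a0) i.1 = a i.1 + a0 i.1
      rw [res_pos i.2]
      rfl
    · intro w hw hw0
      obtain ⟨v, hv, rfl⟩ := hw
      have hv0 : v ≠ 0 := by
        rintro rfl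
        exact hw0 (map_zero _)
      refine (W_far hC hd hv hv0).trans ?_
      have h1 : (univ.filter fun i => v i ≠ 0).card =
          (univ.filter fun j : {i // Lin P i} => v j ≠ 0).card := by
        symm
        refine Finset.card_bij (fun j _ => j.1) ?_ ?_ ?_
        · intro j hj
          simpa using hj
        · intro j _ j' _ h
          exact Subtype.ext h
        · intro i hi
          have hi' : v i ≠ 0 := by simpa using hi
          exact ⟨⟨i, W_supp hv hi'⟩, by simpa using hi', rfl⟩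
      exact h1.le

open Classical in
lemma terminal_count (hC : Closed P C) (hT : Terminal P C Z) {d : ℕ} (hd : Far d C)
    {C' : Finset (ι → K)} (hC' : C' ⊆ C) (hag : ∀ a ∈ C', ∀ b ∈ C', ∀ i ∈ Z, a i = b i)
    {φ : ι → K → K} (hφ : Un C φ) :
    C'.card ≤ A (Fintype.card {i // ¬ NonAff P i ∧ ¬ Lin P i ∧ ¬ Perm φ i}) d *
      A (Fintype.card {i // ¬ NonAff P i ∧ ¬ Lin P i ∧ Perm φ i}) d *
      B (Fintype.card {i // Lin P i}) d := by
  refine (Finset.card_le_mul_card_image
    (f := fun (a : ι → K) (i : {i // Lin P i}) => a i) C' _ ?_).trans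
    (Nat.mul_le_mul_left _ (lin_image hC hT hd hC' hag))
  intro τ _
  refine (Finset.card_le_mul_card_image
    (f := fun (a : ι → K) (i : {i // ¬ NonAff P i ∧ ¬ Lin P i ∧ Perm φ i}) => a i) _ _ ?_).trans
    (Nat.mul_le_mul_left _ (fiber1 hT hd ?_ ?_ ?_ hφ))
  · intro σ _
    refine fiber2 hT hd ?_ ?_ ?_ φ ?_
    · intro a ha
      exact hC' (Finset.mem_filter.1 (Finset.mem_filter.1 ha).1).1
    · intro a ha b hb
      exact hag a (Finset.mem_filter.1 (Finset.mem_filter.1 ha).1).1 b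
        (Finset.mem_filter.1 (Finset.mem_filter.1 hb).1).1
    · intro a ha b hb i hl
      have h1 := (Finset.mem_filter.1 (Finset.mem_filter.1 ha).1).2
      have h2 := (Finset.mem_filter.1 (Finset.mem_filter.1 hb).1).2
      exact congrFun (h1.trans h2.symm) ⟨i, hl⟩
    · intro a ha b hb i h1 h2 h3
      have h4 := (Finset.mem_filter.1 ha).2
      have h5 := (Finset.mem_filter.1 hb).2
      exact congrFun (h4.trans h5.symm) ⟨i, h1, h2, h3⟩
  · intro a ha
    exact hC' (Finset.mem_filter.1 ha).1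
  · intro a ha b hb
    exact hag a (Finset.mem_filter.1 ha).1 b (Finset.mem_filter.1 hb).1
  · intro a ha b hb i hl
    have h1 := (Finset.mem_filter.1 ha).2
    have h2 := (Finset.mem_filter.1 hb).2
    exact congrFun (h1.trans h2.symm) ⟨i, hl⟩

open Classical in
lemma chain (hC : Closed P C) {d : ℕ} (hd1 : 1 ≤ d) (hd : Far d C) {φ : ι → K → K}
    (hφ : Un C φ) : ∀ (n : ℕ) (Z : Finset ι),
    numN P Z ≤ n → ∀ C' ⊆ C, (∀ a ∈ C', ∀ b ∈ C', ∀ i ∈ Z, a i = b i) →
      C'.card ≤ 2 ^ (numN P Z / d) *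
        (A (Fintype.card {i // ¬ NonAff P i ∧ ¬ Lin P i ∧ ¬ Perm φ i}) d *
          A (Fintype.card {i // ¬ NonAff P i ∧ ¬ Lin P i ∧ Perm φ i}) d *
          B (Fintype.card {i // Lin P i}) d) := by
  intro n
  induction n with
  | zero =>
    intro Z hn C' hC' hag
    have hT : Terminal P C Z := by
      intro x y hxy i hi hna
      have hmem : i ∈ (univ.filter fun i => NonAff P i ∧ i ∉ Z) := by
        rw [Finset.mem_filter]
        exact ⟨Finset.mem_univ _, hna, fun hz => hi (hxy.agree i hz)⟩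
      have := Finset.card_pos.2 ⟨i, hmem⟩
      unfold numN at hn
      omega
    refine (terminal_count hC hT hd hC' hag hφ).trans ?_
    exact Nat.le_mul_of_pos_left _ (by positivity)
  | succ n ih =>
    intro Z hn C' hC' hag
    by_cases hT : Terminal P C Z
    · refine (terminal_count hC hT hd hC' hag hφ).trans ?_
      exact Nat.le_mul_of_pos_left _ (by positivity)
    · unfold Terminal at hT
      push Not at hT
      obtain ⟨x, y, hxy, i0, hi0, F, hF, hna⟩ := hT
      obtain ⟨hpat, hall⟩ := hxy.two_patterns hC hF hi0 hna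
      set D := univ.filter fun i => x i ≠ y i with hD
      have hdD : d ≤ D.card := hd x hxy.hx y hxy.hy hxy.ne
      have hsplit : numN P Z = numN P (Z ∪ D) + D.card := by
        unfold numN
        rw [← Finset.card_union_of_disjoint]
        · congr 1
          ext i
          simp only [Finset.mem_filter, Finset.mem_univ, true_and, Finset.mem_union, hD]
          constructor
          · rintro ⟨h1, h2⟩
            by_cases h3 : x i = y i
            · left
              exact ⟨h1, fun h => h.elim h2 (fun h => h h3)⟩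
            · right; exact h3
          · rintro (⟨h1, h2⟩ | h1)
            · exact ⟨h1, fun h => h2 (Or.inl h)⟩
            · exact ⟨⟨F, hF, hall i h1⟩, fun h => h1 (hxy.agree i h)⟩
        · rw [Finset.disjoint_left]
          intro i hi hi'
          rw [Finset.mem_filter] at hi
          exact hi.2.2 (Finset.mem_union_right _ hi')
      set M := A (Fintype.card {i // ¬ NonAff P i ∧ ¬ Lin P i ∧ ¬ Perm φ i}) d *
          A (Fintype.card {i // ¬ NonAff P i ∧ ¬ Lin P i ∧ Perm φ i}) d *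
          B (Fintype.card {i // Lin P i}) d
      have hcard : ∀ v : ι → K, (C'.filter fun c => ∀ i, x i ≠ y i → c i = v i).card ≤
          2 ^ (numN P (Z ∪ D) / d) * M := by
        intro v
        refine ih (Z ∪ D) (by omega) _ ((Finset.filter_subset _ _).trans hC') ?_
        intro a ha b hb i hi
        rw [Finset.mem_filter] at ha hb
        rcases Finset.mem_union.1 hi with h | h
        · exact hag a ha.1 b hb.1 i h
        · rw [hD, Finset.mem_filter] at h
          rw [ha.2 i h.2, hb.2 i h.2]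
      have hcov : C' ⊆ (C'.filter fun c => ∀ i, x i ≠ y i → c i = x i) ∪
          (C'.filter fun c => ∀ i, x i ≠ y i → c i = y i) := by
        intro c hc
        rw [Finset.mem_union, Finset.mem_filter, Finset.mem_filter]
        rcases hpat c (hC' hc) with h | h
        · exact Or.inl ⟨hc, h⟩
        · exact Or.inr ⟨hc, h⟩
      have h1 := (Finset.card_le_card hcov).trans (Finset.card_union_le _ _)
      have h2 := hcard x
      have h3 := hcard y
      have h4 : numN P (Z ∪ D) / d + 1 ≤ numN P Z / d := by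
        have h5 : (numN P (Z ∪ D) + d) / d = numN P (Z ∪ D) / d + 1 :=
          Nat.add_div_right _ (by omega)
        rw [← h5]
        exact Nat.div_le_div_right (by omega)
      calc C'.card ≤ 2 ^ (numN P (Z ∪ D) / d) * M + 2 ^ (numN P (Z ∪ D) / d) * M := by omega
        _ = 2 ^ (numN P (Z ∪ D) / d + 1) * M := by rw [pow_succ]; ring
        _ ≤ 2 ^ (numN P Z / d) * M :=
          Nat.mul_le_mul_right _ (Nat.pow_le_pow_right (by norm_num) h4)

open Classical in
/-- The bound for codes closed under the operations of `P` and a unary map. -/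
theorem bound_unary (hC : Closed P C) {d : ℕ} (hd1 : 1 ≤ d) (hd : Far d C) {φ : ι → K → K}
    (hφ : Un C φ) :
    C.card ≤ 2 ^ ((univ.filter fun i => NonAff P i).card / d) *
      B (univ.filter fun i => Lin P i).card d *
        (A (univ.filter fun i => ¬ NonAff P i ∧ ¬ Lin P i ∧ Perm φ i).card d *
          A (univ.filter fun i => ¬ NonAff P i ∧ ¬ Lin P i ∧ ¬ Perm φ i).card d) := by
  have h1 := chain hC hd1 hd hφ _ ∅ le_rfl C (Finset.Subset.refl C) (by simp)
  have h2 : numN P (∅ : Finset ι) = (univ.filter fun i => NonAff P i).card := by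
    unfold numN
    congr 1
    ext i
    simp
  rw [h2, Fintype.card_subtype, Fintype.card_subtype, Fintype.card_subtype] at h1
  calc C.card ≤ _ := h1
    _ = _ := by ring

lemma A_le_one_of_lt {n d : ℕ} (h : n < d) : A n d ≤ 1 := by
  apply csSup_le'
  rintro k ⟨C, hC, rfl⟩
  rw [Finset.card_le_one]
  intro a ha b hb
  by_contra hab
  have h1 := hC a ha b hb hab
  have h2 := hammingDist_le_card_fintype (x := a) (y := b)
  rw [Fintype.card_fin] at h2
  omega

lemma one_le_A (n d : ℕ) : 1 ≤ A n d := by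
  refine le_csSup (A_bdd n d) ⟨{0}, ?_, Finset.card_singleton _⟩
  intro x hx y hy hxy
  rw [Finset.mem_singleton] at hx hy
  exact absurd (hx.trans hy.symm) hxy

lemma A_zero (d : ℕ) : A 0 d = 1 := by
  apply le_antisymm _ (one_le_A 0 d)
  apply csSup_le'
  rintro k ⟨C, hC, rfl⟩
  rw [Finset.card_le_one]
  intro a _ b _
  exact Subsingleton.elim _ _

lemma one_le_B (n d : ℕ) : 1 ≤ B n d := by
  refine le_csSup (B_bdd n d) ⟨⊥, ?_, by simp⟩
  intro w hw hw0
  exact absurd ((Submodule.mem_bot K).1 hw) hw0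

lemma B_le_A (n d : ℕ) : B n d ≤ A n d := by
  classical
  apply csSup_le'
  rintro k ⟨V, hV, rfl⟩
  have h1 : Far d (univ.filter fun x : Fin n → K => x ∈ V) := by
    intro x hx y hy hxy
    rw [Finset.mem_filter] at hx hy
    rw [hammingDist_eq_hammingNorm]
    refine hV _ (V.add_mem (V.neg_mem hx.2) hy.2) ?_
    intro h0
    exact hxy (neg_add_eq_zero.1 h0)
  have h2 := le_csSup (A_bdd n d) ⟨_, h1, rfl⟩
  refine le_trans (le_of_eq ?_) h2
  rw [Nat.card_eq_fintype_card, Fintype.card_subtype]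

open Classical in
/-- The bound for codes closed under the operations of `P`. -/
theorem bound (hC : Closed P C) {d : ℕ} (hd1 : 1 ≤ d) (hd : Far d C) :
    C.card ≤ 2 ^ ((univ.filter fun i => NonAff P i).card / d) *
      B (univ.filter fun i => Lin P i).card d *
        A (univ.filter fun i => ¬ NonAff P i ∧ ¬ Lin P i).card d := by
  have h1 := bound_unary hC hd1 hd (φ := fun _ t => t) (fun z hz => hz)
  have h2 : ∀ i, Perm (fun (_ : ι) (t : K) => t) i := by
    intro i
    show (0 : K) ≠ 1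
    decide
  have h3 : (univ.filter fun i => ¬ NonAff P i ∧ ¬ Lin P i ∧
      ¬ Perm (fun (_ : ι) (t : K) => t) i) = ∅ := by
    rw [Finset.filter_eq_empty_iff]
    intro i _ h
    exact h.2.2 (h2 i)
  have h4 : (univ.filter fun i => ¬ NonAff P i ∧ ¬ Lin P i ∧
      Perm (fun (_ : ι) (t : K) => t) i) = univ.filter fun i => ¬ NonAff P i ∧ ¬ Lin P i := by
    refine Finset.filter_congr fun i _ => ?_
    exact ⟨fun h => ⟨h.1, h.2.1⟩, fun h => ⟨h.1, h.2, h2 i⟩⟩
  rw [h3, h4, Finset.card_empty, A_zero, mul_one] at h1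
  exact h1

end Pool.Agent.Q257.PC
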