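import Mathlib
import Pool.Agent.Q257.PC.Main

set_option autoImplicit false
set_option linter.unusedSectionVars false

/-!
# The bound is attained
-/

open Finset Function

namespace Pool.Agent.Q257.PC

section pieces

variable (κ : Type*) [Fintype κ] [DecidableEq κ]

lemma exists_A (d : ℕ) : ∃ C : Finset (κ → K), Far d C ∧ C.card = A (Fintype.card κ) d := by
  classical
  obtain ⟨C, hC, hcard⟩ := Nat.sSup_mem (s := {k | ∃ C : Finset (Fin (Fintype.card κ) → K),
    Far d C ∧ C.card = k}) ⟨_, ∅, (fun x hx => absurd hx (Finset.notMem_empty x)), rfl⟩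
    (A_bdd _ d)
  set e := Fintype.equivFin κ
  set g : (Fin (Fintype.card κ) → K) → (κ → K) := fun x => x ∘ e with hg
  have hinj : Function.Injective g := by
    intro x y hxy
    funext i
    have := congrFun hxy (e.symm i)
    simpa [hg] using this
  have hdist : ∀ x y, hammingDist (g x) (g y) = hammingDist x y := by
    intro x y
    unfold hammingDist
    refine Finset.card_equiv e ?_
    intro i
    simp [hg]
  refine ⟨C.image g, ?_, ?_⟩
  · intro x hx y hy hxy
    obtain ⟨x', hx', rfl⟩ := Finset.mem_image.1 hx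
    obtain ⟨y', hy', rfl⟩ := Finset.mem_image.1 hy
    rw [hdist]
    exact hC x' hx' y' hy' fun heq => hxy (by rw [heq])
  · rw [Finset.card_image_of_injective C hinj, hcard]
    rfl

lemma exists_B (d : ℕ) : ∃ V : Submodule K (κ → K), (∀ w ∈ V, w ≠ 0 → d ≤ hammingNorm w) ∧
    Nat.card V = B (Fintype.card κ) d := by
  classical
  obtain ⟨V, hV, hcard⟩ := Nat.sSup_mem (s := {k | ∃ V : Submodule K
    (Fin (Fintype.card κ) → K), (∀ w ∈ V, w ≠ 0 → d ≤ hammingNorm w) ∧ Nat.card V = k})
    ⟨_, ⊥, (fun w hw hw0 => absurd ((Submodule.mem_bot K).1 hw) hw0), rfl⟩ (B_bdd _ d)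
  set e := Fintype.equivFin κ
  set g := LinearEquiv.funCongrLeft K K e with hg
  have hnorm : ∀ x : Fin (Fintype.card κ) → K, hammingNorm (g x) = hammingNorm x := by
    intro x
    unfold hammingNorm
    refine Finset.card_equiv e ?_
    intro i
    simp [hg]
  refine ⟨V.map (g : (Fin (Fintype.card κ) → K) →ₗ[K] (κ → K)), ?_, ?_⟩
  · intro w hw hw0
    obtain ⟨v, hv, rfl⟩ := hw
    have h1 : hammingNorm (g v) = hammingNorm v := hnorm v
    refine (hV v hv ?_).trans_eq h1.symm
    rintro rfl
    exact hw0 (map_zero _)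
  · rw [← Nat.card_congr (g.submoduleMap V).toEquiv, hcard]
    rfl

/-- repeated words -/
lemma exists_rep {d : ℕ} (hd1 : 1 ≤ d) (hdn : d ≤ Fintype.card κ) :
    ∃ C : Finset (κ → K), Far d C ∧ C.card = 2 ^ (Fintype.card κ / d) ∧
      ∀ (r : ℕ) (f : (Fin r → K) → K) (z : Fin r → κ → K), (∀ k, z k ∈ C) →
        (fun i => f fun k => z k i) ∈ C := by
  classical
  set m := Fintype.card κ with hm
  set e := Fintype.equivFin κ
  set q := m / d with hq
  have hq1 : 1 ≤ q := (Nat.one_le_div_iff (by omega)).2 hdn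
  set β : κ → Fin q := fun i => ⟨min ((e i : ℕ) / d) (q - 1), by omega⟩ with hβ
  have hqd : q * d ≤ m := Nat.div_mul_le_self m d
  have hfib : ∀ s : Fin q, d ≤ (univ.filter fun i => β i = s).card := by
    intro s
    have hlt : ∀ t : Fin d, (s : ℕ) * d + t < m := by
      intro t
      have h1 := s.2
      have h2 := t.2
      calc (s : ℕ) * d + t < s * d + d := by omega
        _ = (s + 1) * d := by ring
        _ ≤ q * d := Nat.mul_le_mul_right _ h1
        _ ≤ m := hqd
    have h1 : (univ.image fun t : Fin d => e.symm ⟨(s : ℕ) * d + t, hlt t⟩) ⊆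
        univ.filter fun i => β i = s := by
      intro i hi
      obtain ⟨t, -, rfl⟩ := Finset.mem_image.1 hi
      rw [Finset.mem_filter]
      refine ⟨Finset.mem_univ _, ?_⟩
      apply Fin.ext
      show min (((e (e.symm ⟨(s : ℕ) * d + t, hlt t⟩) : Fin m) : ℕ) / d) (q - 1) = s
      rw [Equiv.apply_symm_apply]
      have h2 : ((s : ℕ) * d + t) / d = s := by
        rw [mul_comm, Nat.mul_add_div (by omega), Nat.div_eq_of_lt t.2, add_zero]
      show min (((s : ℕ) * d + t) / d) (q - 1) = s
      rw [h2]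
      have := s.2
      omega
    have h2 := Finset.card_le_card h1
    rw [Finset.card_image_of_injective, Finset.card_univ, Fintype.card_fin] at h2
    · exact h2
    · intro t t' htt
      have h3 := congrArg Fin.val (e.symm.injective htt)
      apply Fin.ext
      simp only at h3
      omega
  have hsurj : Function.Surjective β := by
    intro s
    have h1 := hfib s
    obtain ⟨i, hi⟩ := Finset.card_pos.1 (lt_of_lt_of_le (by omega) h1)
    exact ⟨i, (Finset.mem_filter.1 hi).2⟩
  have hinj : Function.Injective (fun v : Fin q → K => v ∘ β) := hsurj.injective_comp_right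
  refine ⟨univ.image (fun v : Fin q → K => v ∘ β), ?_, ?_, ?_⟩
  · intro x hx y hy hxy
    obtain ⟨v, -, rfl⟩ := Finset.mem_image.1 hx
    obtain ⟨w, -, rfl⟩ := Finset.mem_image.1 hy
    obtain ⟨s, hs⟩ : ∃ s, v s ≠ w s := by
      by_contra hcon
      push Not at hcon
      exact hxy (by rw [funext hcon])
    refine (hfib s).trans (Finset.card_le_card ?_)
    intro i hi
    rw [Finset.mem_filter] at hi ⊢
    refine ⟨Finset.mem_univ _, ?_⟩
    show v (β i) ≠ w (β i)
    rw [hi.2]
    exact hs
  · rw [Finset.card_image_of_injective _ hinj, Finset.card_univ, Fintype.card_fun,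
      Fintype.card_fin, ZMod.card]
  · intro r f z hz
    have hz' : ∀ k, ∃ v : Fin q → K, v ∘ β = z k := by
      intro k
      obtain ⟨v, -, hv⟩ := Finset.mem_image.1 (hz k)
      exact ⟨v, hv⟩
    choose v hv using hz'
    rw [Finset.mem_image]
    refine ⟨fun s => f fun k => v k s, Finset.mem_univ _, ?_⟩
    funext i
    show f (fun k => v k (β i)) = f fun k => z k i
    congr 1
    funext k
    rw [← hv k]
    rfl

end pieces

variable {ι : Type*} [Fintype ι] [DecidableEq ι]

/-- product of two codes -/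
lemma prod_code {d : ℕ} (p : ι → Prop) [DecidablePred p] (C1 : Finset ({i // p i} → K))
    (C2 : Finset ({i // ¬ p i} → K)) (h1 : Far d C1) (h2 : Far d C2) :
    ∃ C : Finset (ι → K), Far d C ∧ C.card = C1.card * C2.card ∧
      ∀ c, c ∈ C ↔ (fun i : {i // p i} => c i) ∈ C1 ∧ (fun i : {i // ¬ p i} => c i) ∈ C2 := by
  classical
  set e := Equiv.piEquivPiSubtypeProd p (fun _ : ι => K) with he
  have hmem : ∀ c, c ∈ (C1 ×ˢ C2).map e.symm.toEmbedding ↔
      (fun i : {i // p i} => c i) ∈ C1 ∧ (fun i : {i // ¬ p i} => c i) ∈ C2 := by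
    intro c
    rw [Finset.mem_map_equiv, Equiv.symm_symm, Finset.mem_product]
    rfl
  refine ⟨(C1 ×ˢ C2).map e.symm.toEmbedding, ?_, ?_, hmem⟩
  · intro x hx y hy hxy
    rw [hmem] at hx hy
    have key : ∀ (Q : ι → Prop) [DecidablePred Q] (D : Finset ({i // Q i} → K)), Far d D →
        (fun i : {i // Q i} => x i) ∈ D → (fun i : {i // Q i} => y i) ∈ D →
        (∃ i, Q i ∧ x i ≠ y i) → d ≤ hammingDist x y := by
      intro Q _ D hD hxD hyD ⟨i, hQi, hi⟩
      have h3 := hD _ hxD _ hyD (fun heq => hi (congrFun heq ⟨i, hQi⟩))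
      refine h3.trans ?_
      have h4 : (univ.filter fun j : {i // Q i} => x j ≠ y j).map (Embedding.subtype _) ⊆
          univ.filter fun i => x i ≠ y i := by
        intro i hi
        obtain ⟨j, hj, rfl⟩ := Finset.mem_map.1 hi
        rw [Finset.mem_filter] at hj ⊢
        exact ⟨Finset.mem_univ _, hj.2⟩
      have h5 := Finset.card_le_card h4
      rw [Finset.card_map] at h5
      exact h5
    obtain ⟨i, hi⟩ : ∃ i, x i ≠ y i := by
      by_contra hcon
      push Not at hcon
      exact hxy (funext hcon)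
    by_cases hp : p i
    · exact key p C1 h1 hx.1 hy.1 ⟨i, hp, hi⟩
    · exact key (fun i => ¬ p i) C2 h2 hx.2 hy.2 ⟨i, hp, hi⟩
  · rw [Finset.card_map, Finset.card_product]

/-- the operation `xy` on `N`, `x + y + z` on `L`, `x` elsewhere -/
def F0 (N L : Finset ι) : Op ι :=
  ⟨3, fun i z => if i ∈ N then z 0 * z 1 else if i ∈ L then z 0 + z 1 + z 2 else z 0⟩

lemma affine_sum : Affine (fun z : Fin 3 → K => z 0 + z 1 + z 2) :=
  ⟨fun _ => 1, 0, fun z => by simp [Fin.sum_univ_three]⟩

lemma affine_proj : Affine (fun z : Fin 3 → K => z 0) :=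
  ⟨![1, 0, 0], 0, fun z => by simp [Fin.sum_univ_three]⟩

lemma not_affine_mul : ¬ Affine (fun z : Fin 3 → K => z 0 * z 1) := by
  intro h
  have h1 := h.der_const 0 0 (fun _ => 1)
  revert h1
  unfold der
  decide

lemma not_unary_sum : ¬ Unary (fun z : Fin 3 → K => z 0 + z 1 + z 2) := by
  intro h
  rcases h.not_two (show (0 : Fin 3) ≠ 1 by decide) with h | h
  · have := h 0 0 1
    revert this
    decide
  · have := h 0 0 1
    revert this
    decide

lemma unary_proj : Unary (fun z : Fin 3 → K => z 0) := Or.inl ⟨0, fun _ _ h => h⟩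

lemma nonaff_F0 {N L : Finset ι} (i : ι) : NonAff {F0 N L} i ↔ i ∈ N := by
  unfold NonAff
  constructor
  · rintro ⟨F, hF, hna⟩
    rw [Set.mem_singleton_iff] at hF
    subst hF
    by_contra hi
    apply hna
    show Affine (fun z : Fin 3 → K => if i ∈ N then z 0 * z 1 else if i ∈ L then
      z 0 + z 1 + z 2 else z 0)
    simp only [hi, if_false]
    by_cases hl : i ∈ L
    · simp only [hl, if_true]; exact affine_sum
    · simp only [hl, if_false]; exact affine_proj
  · intro hi
    refine ⟨F0 N L, rfl, ?_⟩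
    show ¬ Affine (fun z : Fin 3 → K => if i ∈ N then z 0 * z 1 else if i ∈ L then
      z 0 + z 1 + z 2 else z 0)
    simp only [hi, if_true]
    exact not_affine_mul

lemma lin_F0 {N L : Finset ι} (hNL : Disjoint N L) (i : ι) : Lin {F0 N L} i ↔ i ∈ L := by
  constructor
  · rintro ⟨haff, F, hF, hu⟩
    rw [Set.mem_singleton_iff] at hF
    subst hF
    by_contra hl
    have hN : i ∉ N := by
      intro hi
      exact (nonaff_F0 (L := L) i).2 hi |>.elim fun F h => h.2 (haff F h.1)
    apply hu
    show Unary (fun z : Fin 3 → K => if i ∈ N then z 0 * z 1 else if i ∈ L then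
      z 0 + z 1 + z 2 else z 0)
    simp only [hN, hl, if_false]
    exact unary_proj
  · intro hi
    have hN : i ∉ N := fun h => (Finset.disjoint_left.1 hNL h) hi
    refine ⟨?_, F0 N L, rfl, ?_⟩
    · intro F hF
      by_contra hna
      exact hN ((nonaff_F0 (L := L) i).1 ⟨F, hF, hna⟩)
    · show ¬ Unary (fun z : Fin 3 → K => if i ∈ N then z 0 * z 1 else if i ∈ L then
        z 0 + z 1 + z 2 else z 0)
      simp only [hN, hi, if_true, if_false]
      exact not_unary_sum

theorem sharp {d : ℕ} (hd1 : 1 ≤ d) (N L : Finset ι) (hNL : Disjoint N L) :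
    ∃ C : Finset (ι → K), Closed {F0 N L} C ∧ Far d C ∧
      C.card = 2 ^ (N.card / d) * B L.card d * A (Fintype.card ι - N.card - L.card) d := by
  classical
  obtain ⟨p, hp⟩ : ∃ p : ι → Prop, ∀ i, p i ↔ i ∈ N := ⟨fun i => i ∈ N, fun i => Iff.rfl⟩
  have hcardN : Fintype.card {i // p i} = N.card := by
    rw [Fintype.card_subtype]
    congr 1
    ext i
    simp [hp]
  -- the part on `N`
  obtain ⟨C1, h1far, h1card, h1mul⟩ : ∃ C1 : Finset ({i // p i} → K), Far d C1 ∧
      C1.card = 2 ^ (N.card / d) ∧ ∀ x ∈ C1, ∀ y ∈ C1, x * y ∈ C1 := by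
    by_cases hdn : d ≤ Fintype.card {i // p i}
    · obtain ⟨C1, h1, h2, h3⟩ := exists_rep {i // p i} hd1 hdn
      refine ⟨C1, h1, by rw [h2, hcardN], ?_⟩
      intro x hx y hy
      have h4 := h3 2 (fun t => t 0 * t 1) ![x, y] (fun k => by fin_cases k <;> simpa)
      exact h4
    · refine ⟨{0}, ?_, ?_, ?_⟩
      · intro x hx y hy hxy
        rw [Finset.mem_singleton] at hx hy
        exact absurd (hx.trans hy.symm) hxy
      · rw [hcardN] at hdn
        rw [Nat.div_eq_of_lt (by omega)]
        simp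
      · intro x hx y hy
        rw [Finset.mem_singleton] at hx hy ⊢
        rw [hx, hy, mul_zero]
  -- the part on `L`
  obtain ⟨V, hV, hVcard⟩ := exists_B {j : {i // ¬ p i} // (j : ι) ∈ L} d
  obtain ⟨C3, h3far, h3card⟩ := exists_A {j : {i // ¬ p i} // ¬ (j : ι) ∈ L} d
  set C2 : Finset ({j : {i // ¬ p i} // (j : ι) ∈ L} → K) := univ.filter fun x => x ∈ V with hC2
  have h2far : Far d C2 := by
    intro x hx y hy hxy
    rw [hC2, Finset.mem_filter] at hx hy
    rw [hammingDist_eq_hammingNorm]
    refine hV _ (V.add_mem (V.neg_mem hx.2) hy.2) ?_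
    intro h0
    exact hxy (neg_add_eq_zero.1 h0)
  have h2card : C2.card = B (Fintype.card {j : {i // ¬ p i} // (j : ι) ∈ L}) d := by
    rw [← hVcard, Nat.card_eq_fintype_card, hC2, Fintype.card_subtype]
  obtain ⟨C4, h4far, h4card, h4mem⟩ := prod_code (fun j : {i // ¬ p i} => (j : ι) ∈ L) C2 C3
    h2far h3far
  obtain ⟨C, hfar, hcard, hmem⟩ := prod_code p C1 C4 h1far h4far
  refine ⟨C, ?_, hfar, ?_⟩
  · intro F hF z hz
    rw [Set.mem_singleton_iff] at hF
    subst hF
    rw [hmem]
    refine ⟨?_, ?_⟩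
    · have h5 := h1mul _ ((hmem _).1 (hz (0 : Fin 3))).1 _ ((hmem _).1 (hz (1 : Fin 3))).1
      have h6 : (fun i : {i // p i} => (F0 N L).val z i) =
          (fun i : {i // p i} => z (0 : Fin 3) i) *
            (fun i : {i // p i} => z (1 : Fin 3) i) := by
        funext i
        show (if (i : ι) ∈ N then z (0 : Fin 3) i * z (1 : Fin 3) i else _) =
          z (0 : Fin 3) i * z (1 : Fin 3) i
        rw [if_pos ((hp i).1 i.2)]
      rw [h6]
      exact h5
    · rw [h4mem]
      have hz4 : ∀ k, (fun i : {i // ¬ p i} => z k i) ∈ C4 := fun k => ((hmem _).1 (hz k)).2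
      have h7 := fun k => (h4mem _).1 (hz4 k)
      refine ⟨?_, ?_⟩
      · have h8 : ∀ k, (fun j : {j : {i // ¬ p i} // (j : ι) ∈ L} => z k j) ∈ V := by
          intro k
          have := (h7 k).1
          rw [hC2, Finset.mem_filter] at this
          exact this.2
        rw [hC2, Finset.mem_filter]
        refine ⟨Finset.mem_univ _, ?_⟩
        have h9 := V.add_mem (V.add_mem (h8 (0 : Fin 3)) (h8 (1 : Fin 3))) (h8 (2 : Fin 3))
        have h10 : (fun j : {j : {i // ¬ p i} // (j : ι) ∈ L} => (F0 N L).val z j) =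
            (fun j : {j : {i // ¬ p i} // (j : ι) ∈ L} => z (0 : Fin 3) (j : ι)) +
              (fun j : {j : {i // ¬ p i} // (j : ι) ∈ L} => z (1 : Fin 3) (j : ι)) +
              (fun j : {j : {i // ¬ p i} // (j : ι) ∈ L} => z (2 : Fin 3) (j : ι)) := by
          funext j
          show (if ((j : {i // ¬ p i}) : ι) ∈ N then _ else if ((j : {i // ¬ p i}) : ι) ∈ L then
            z (0 : Fin 3) j + z (1 : Fin 3) j + z (2 : Fin 3) j else _) =
            z (0 : Fin 3) j + z (1 : Fin 3) j + z (2 : Fin 3) j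
          rw [if_neg (fun h => j.1.2 ((hp _).2 h)), if_pos j.2]
        rw [h10]
        exact h9
      · have h10 : (fun j : {j : {i // ¬ p i} // ¬ (j : ι) ∈ L} => (F0 N L).val z j) =
            fun j : {j : {i // ¬ p i} // ¬ (j : ι) ∈ L} => z (0 : Fin 3) (j : ι) := by
          funext j
          show (if ((j : {i // ¬ p i}) : ι) ∈ N then _ else if ((j : {i // ¬ p i}) : ι) ∈ L then
            _ else z (0 : Fin 3) j) = z (0 : Fin 3) j
          rw [if_neg (fun h => j.1.2 ((hp _).2 h)), if_neg j.2]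
        have h11 := (h7 (0 : Fin 3)).2
        rw [← h10] at h11
        exact h11
  · rw [hcard, h4card, h1card, h2card, h3card, ← mul_assoc]
    have c1 : Fintype.card {j : {i // ¬ p i} // (j : ι) ∈ L} = L.card := by
      rw [Fintype.card_subtype]
      refine Finset.card_bij (fun j _ => (j : ι)) ?_ ?_ ?_
      · intro j hj
        exact (Finset.mem_filter.1 hj).2
      · intro j _ j' _ h
        exact Subtype.ext h
      · intro i hi
        exact ⟨⟨i, fun h => (Finset.disjoint_left.1 hNL ((hp i).1 h)) hi⟩, by simpa using hi, rfl⟩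
    have c2 : Fintype.card {j : {i // ¬ p i} // ¬ (j : ι) ∈ L} =
        Fintype.card ι - N.card - L.card := by
      rw [Fintype.card_subtype_compl, c1, Fintype.card_subtype_compl, hcardN]
    rw [c1, c2]

end Pool.Agent.Q257.PC
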