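import Mathlib
import Pool.Agent.Q257.PC.Sharp

set_option autoImplicit false
set_option linter.unusedSectionVars false

/-!
# Nearly optimal codes
-/

open Finset Function Filter Topology

namespace Pool.Agent.Q257.PC

/-- the asymptotic rate of binary codes -/
noncomputable def R (δ : ℝ) : ℝ :=
  limsup (fun n : ℕ => Real.logb 2 (A n ⌈δ * n⌉₊) / n) atTop

/-- the asymptotic rate of binary linear codes -/
noncomputable def RL (δ : ℝ) : ℝ :=
  limsup (fun n : ℕ => Real.logb 2 (B n ⌈δ * n⌉₊) / n) atTop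

lemma A_le_pow (n d : ℕ) : A n d ≤ 2 ^ n := by
  apply csSup_le'
  rintro k ⟨C, -, rfl⟩
  have h1 := Finset.card_le_univ C
  rwa [Fintype.card_fun, Fintype.card_fin, ZMod.card] at h1

lemma A_anti {n d d' : ℕ} (h : d ≤ d') : A n d' ≤ A n d := by
  apply csSup_le'
  rintro k ⟨C, hC, rfl⟩
  exact le_csSup (A_bdd n d) ⟨C, fun x hx y hy hxy => h.trans (hC x hx y hy hxy), rfl⟩

lemma B_anti {n d d' : ℕ} (h : d ≤ d') : B n d' ≤ B n d := by
  apply csSup_le'
  rintro k ⟨V, hV, rfl⟩
  exact le_csSup (B_bdd n d) ⟨V, fun w hw hw0 => h.trans (hV w hw hw0), rfl⟩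

lemma log_bound (f : ℕ → ℕ → ℕ) (h1 : ∀ n d, 1 ≤ f n d) (h2 : ∀ n d, f n d ≤ 2 ^ n)
    (h3 : ∀ n d d', d ≤ d' → f n d' ≤ f n d) {δ ρ : ℝ} (hρ : 0 ≤ ρ)
    (hlim : limsup (fun n : ℕ => Real.logb 2 (f n ⌈δ * n⌉₊) / n) atTop < ρ) :
    ∃ c : ℝ, 0 ≤ c ∧ ∀ x d : ℕ, δ * x ≤ d → Real.logb 2 (f x d) ≤ ρ * x + c := by
  have hlog : ∀ n d, Real.logb 2 (f n d) ≤ n := by
    intro n d
    have h4 : (f n d : ℝ) ≤ 2 ^ n := by exact_mod_cast h2 n d
    have h5 : (0 : ℝ) < f n d := by exact_mod_cast h1 n d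
    calc Real.logb 2 (f n d) ≤ Real.logb 2 ((2 : ℝ) ^ n) :=
          Real.logb_le_logb_of_le (by norm_num) h5 h4
      _ = n := by rw [Real.logb_pow]; simp
  have hbdd : IsBoundedUnder (· ≤ ·) atTop
      (fun n : ℕ => Real.logb 2 (f n ⌈δ * n⌉₊) / n) := by
    refine isBoundedUnder_of ⟨1, fun n => ?_⟩
    rcases Nat.eq_zero_or_pos n with h0 | h0
    · subst h0; simp
    · rw [div_le_one (by exact_mod_cast h0)]
      exact hlog _ _
  obtain ⟨N, hN⟩ := eventually_atTop.1 (eventually_lt_of_limsup_lt hlim hbdd)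
  refine ⟨N + 1, by positivity, ?_⟩
  intro x d hxd
  by_cases hx : N + 1 ≤ x
  · have h4 := hN x (by omega)
    have hx0 : (0 : ℝ) < x := by
      have : 0 < x := by omega
      exact_mod_cast this
    rw [div_lt_iff₀ hx0] at h4
    have h5 : f x d ≤ f x ⌈δ * x⌉₊ := h3 _ _ _ (Nat.ceil_le.2 hxd)
    have h6 : Real.logb 2 (f x d) ≤ Real.logb 2 (f x ⌈δ * x⌉₊) :=
      Real.logb_le_logb_of_le (by norm_num) (by exact_mod_cast h1 _ _) (by exact_mod_cast h5)
    have h7 : (0 : ℝ) ≤ (N : ℝ) + 1 := by positivity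
    linarith
  · have h4 := hlog x d
    have h5 : (x : ℝ) ≤ N + 1 := by
      have : x ≤ N + 1 := by omega
      exact_mod_cast this
    have h6 : 0 ≤ ρ * x := by positivity
    linarith

lemma puncture {u d s : ℕ} (hsd : s < d) (hsu : s ≤ u) : A u d ≤ A (u - s) (d - s) := by
  classical
  obtain ⟨C, hC, hcard⟩ := exists_A (Fin u) d
  rw [Fintype.card_fin] at hcard
  rw [← hcard]
  have hcardk : Fintype.card {i : Fin u // (i : ℕ) < u - s} = u - s := by
    rw [Fintype.card_subtype]
    have h1 : (univ.filter fun i : Fin u => (i : ℕ) < u - s).card =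
        (Finset.range (u - s)).card := by
      refine Finset.card_bij (fun i _ => (i : ℕ)) ?_ ?_ ?_
      · intro i hi
        rw [Finset.mem_filter] at hi
        exact Finset.mem_range.2 hi.2
      · intro i _ j _ h
        exact Fin.ext h
      · intro k hk
        rw [Finset.mem_range] at hk
        exact ⟨⟨k, by omega⟩, by simpa using hk, rfl⟩
    rw [h1, Finset.card_range]
  set g : (Fin u → K) → ({i : Fin u // (i : ℕ) < u - s} → K) := fun a i => a i with hg
  have hdist : ∀ a b : Fin u → K, hammingDist a b ≤ hammingDist (g a) (g b) + s := by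
    intro a b
    have h1 : (univ.filter fun i => a i ≠ b i) ⊆
        (univ.filter fun j => g a j ≠ g b j).map (Embedding.subtype _) ∪
          (univ.filter fun i : Fin u => u - s ≤ (i : ℕ)) := by
      intro i hi
      rw [Finset.mem_filter] at hi
      rw [Finset.mem_union]
      by_cases h : (i : ℕ) < u - s
      · left
        rw [Finset.mem_map]
        exact ⟨⟨i, h⟩, by rw [Finset.mem_filter]; exact ⟨Finset.mem_univ _, hi.2⟩, rfl⟩
      · right
        rw [Finset.mem_filter]
        exact ⟨Finset.mem_univ _, by omega⟩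
    have h2 := (Finset.card_le_card h1).trans (Finset.card_union_le _ _)
    rw [Finset.card_map] at h2
    have h3 : (univ.filter fun i : Fin u => u - s ≤ (i : ℕ)).card ≤ s := by
      have h4 : (univ.filter fun i : Fin u => u - s ≤ (i : ℕ)).card ≤
          (Finset.range s).card := by
        refine Finset.card_le_card_of_injOn (fun i => (i : ℕ) - (u - s)) ?_ ?_
        · intro i hi
          have hi' : u - s ≤ (i : ℕ) := by simpa using hi
          have := i.2
          simp only [Finset.coe_range, Set.mem_Iio]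
          omega
        · intro i hi j hj h
          have hi' : u - s ≤ (i : ℕ) := by simpa using hi
          have hj' : u - s ≤ (j : ℕ) := by simpa using hj
          simp only at h
          apply Fin.ext
          omega
      rwa [Finset.card_range] at h4
    unfold hammingDist
    omega
  have hinj : Set.InjOn g C := by
    intro a ha b hb hab
    by_contra hne
    have h1 := hC a ha b hb hne
    have h2 := hdist a b
    rw [hab, hammingDist_self] at h2
    omega
  rw [← Finset.card_image_of_injOn hinj]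
  have hfar : Far (d - s) (C.image g) := by
    intro x hx y hy hxy
    obtain ⟨a, ha, rfl⟩ := Finset.mem_image.1 hx
    obtain ⟨b, hb, rfl⟩ := Finset.mem_image.1 hy
    have h1 := hC a ha b hb fun heq => hxy (by rw [heq])
    have h2 := hdist a b
    omega
  have h3 := card_le_A hfar
  rw [hcardk] at h3
  exact h3

lemma pair_bound {δ ρ c : ℝ} (hδ : 0 < δ) (hρ : 0 ≤ ρ) (hc : 0 ≤ c)
    (hA : ∀ x d : ℕ, δ * x ≤ d → Real.logb 2 (A x d) ≤ ρ * x + c) {n u v d : ℕ}
    (huv : u + v ≤ n) (hd : δ * n ≤ d) :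
    Real.logb 2 (A u d) + Real.logb 2 (A v d) ≤
      ρ * ((u : ℝ) + v - min (min (u : ℝ) v) (δ * n)) + (2 * c + 2 * ρ) := by
  have huv' : (u : ℝ) + v ≤ n := by exact_mod_cast huv
  have hu0 : (0 : ℝ) ≤ u := by positivity
  have hv0 : (0 : ℝ) ≤ v := by positivity
  have hdu : δ * u ≤ d := by nlinarith
  have hdv : δ * v ≤ d := by nlinarith
  have hzero : ∀ w : ℕ, w < d → Real.logb 2 (A w d) = 0 := by
    intro w hw
    have : A w d = 1 := le_antisymm (A_le_one_of_lt hw) (one_le_A w d)
    rw [this]; simp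
  by_cases hu : u < d
  · rw [hzero u hu]
    have h1 := hA v d hdv
    have h2 : min (min (u : ℝ) v) (δ * n) ≤ u := (min_le_left _ _).trans (min_le_left _ _)
    nlinarith
  by_cases hv : v < d
  · rw [hzero v hv]
    have h1 := hA u d hdu
    have h2 : min (min (u : ℝ) v) (δ * n) ≤ v := (min_le_left _ _).trans (min_le_right _ _)
    nlinarith
  push Not at hu hv
  rcases Nat.eq_zero_or_pos d with hd0 | hd0
  · subst hd0
    have hn0 : (n : ℝ) ≤ 0 := by
      have h1 : δ * n ≤ 0 := by simpa using hd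
      by_contra h2
      push Not at h2
      nlinarith
    have hn : n = 0 := by
      have : n ≤ 0 := by exact_mod_cast hn0
      omega
    have hu1 : u = 0 := by omega
    have hv1 : v = 0 := by omega
    subst hu1 hv1 hn
    rw [A_zero]
    simp
    positivity
  have key : ∀ w : ℕ, d ≤ w → δ * w ≤ d →
      Real.logb 2 (A w d) ≤ ρ * (w - (d - δ * w) + 1) + c := by
    intro w hdw hw
    have hwpos : (0 : ℝ) < w := by
      have : 0 < w := by omega
      exact_mod_cast this
    set s := ⌊(d : ℝ) - δ * w⌋₊ with hs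
    have hs1 : (s : ℝ) ≤ d - δ * w := Nat.floor_le (by linarith)
    have hs2 : (d : ℝ) - δ * w < s + 1 := Nat.lt_floor_add_one _
    have hsd : s < d := by
      have : (s : ℝ) < d := by nlinarith
      exact_mod_cast this
    have hsw : s ≤ w := by omega
    have h1 := puncture hsd hsw
    have h2 : δ * ((w - s : ℕ) : ℝ) ≤ ((d - s : ℕ) : ℝ) := by
      rw [Nat.cast_sub hsw, Nat.cast_sub hsd.le]
      have hs0 : (0 : ℝ) ≤ s := by positivity
      nlinarith
    have h3 := hA (w - s) (d - s) h2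
    have h4 : Real.logb 2 (A w d) ≤ Real.logb 2 (A (w - s) (d - s)) :=
      Real.logb_le_logb_of_le (by norm_num) (by exact_mod_cast one_le_A _ _)
        (by exact_mod_cast h1)
    rw [Nat.cast_sub hsw] at h3
    have h5 : ρ * ((w : ℝ) - s) ≤ ρ * (w - (d - δ * w) + 1) :=
      mul_le_mul_of_nonneg_left (by linarith) hρ
    linarith
  have h1 := key u hu hdu
  have h2 := key v hv hdv
  have h3 : min (min (u : ℝ) v) (δ * n) ≤ δ * n := min_le_right _ _
  have h4 : ρ * (u - (d - δ * u) + 1) + ρ * (v - (d - δ * v) + 1) ≤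
      ρ * ((u : ℝ) + v - min (min (u : ℝ) v) (δ * n)) + 2 * ρ := by
    have h5 : δ * (u + v) ≤ δ * n := mul_le_mul_of_nonneg_left huv' hδ.le
    have h6 : (u - (d - δ * u) + 1) + (v - (d - δ * v) + 1) ≤
        ((u : ℝ) + v - min (min (u : ℝ) v) (δ * n)) + 2 := by nlinarith
    nlinarith [mul_le_mul_of_nonneg_left h6 hρ]
  linarith

end Pool.Agent.Q257.PC
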