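import Mathlib
import Pool.Agent.Q257.PC.Asym

set_option autoImplicit false
set_option linter.unusedSectionVars false

/-!
# The two kinds of nearly optimal codes
-/

open Finset Function Filter Topology

namespace Pool.Agent.Q257.PC

/-- all operations which preserve `C` -/
def Pol {n : ℕ} (C : Finset (Fin n → K)) : Set (Op (Fin n)) :=
  {F | ∀ z : Fin F.1 → Fin n → K, (∀ k, z k ∈ C) → F.val z ∈ C}

lemma closed_Pol {n : ℕ} (C : Finset (Fin n → K)) : Closed (Pol C) C := fun _ hF z hz => hF z hz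

section unary

variable {r : ℕ}

/-- the unary function with the variable in the slots of `S` -/
def put (f : (Fin r → K) → K) (S : Finset (Fin r)) (c t : K) : K :=
  f fun k => if k ∈ S then t else c

lemma put_eq {f : (Fin r → K) → K} {k0 : Fin r} (h : ∀ z z', z k0 = z' k0 → f z = f z')
    (S : Finset (Fin r)) (c t : K) : put f S c t = f fun _ => if k0 ∈ S then t else c := by
  unfold put
  apply h
  rfl

lemma unary_const {f : (Fin r → K) → K} (hf : Unary f) (c : K)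
    (h : ¬ put f univ c 0 ≠ put f univ c 1) : ∃ b, ∀ z, f z = b := by
  rcases hf with ⟨k0, hk⟩ | hc
  · push Not at h
    rw [put_eq hk, put_eq hk] at h
    simp only [Finset.mem_univ, if_true] at h
    refine ⟨f fun _ => 0, fun z => ?_⟩
    rw [hk z (fun _ => z k0) rfl]
    rcases two_values (z k0) with h0 | h0
    · rw [h0]
    · rw [h0, h]
  · exact ⟨f 0, fun z => hc _ _⟩

lemma unary_split {f : (Fin r → K) → K} (hf : Unary f) (c : K) {S : Finset (Fin r)} (k : Fin r)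
    (h : put f S c 0 ≠ put f S c 1) :
    put f (S.erase k) c 0 ≠ put f (S.erase k) c 1 ∨ put f {k} c 0 ≠ put f {k} c 1 := by
  rcases hf with ⟨k0, hk⟩ | hc
  · rw [put_eq hk, put_eq hk] at h
    by_cases hS : k0 ∈ S
    · simp only [hS, if_true] at h
      by_cases hkk : k0 = k
      · right
        rw [put_eq hk, put_eq hk]
        simp only [hkk, Finset.mem_singleton, if_true]
        exact h
      · left
        rw [put_eq hk, put_eq hk]
        simp only [Finset.mem_erase, ne_eq, hkk, not_false_eq_true, hS, and_self, if_true]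
        exact h
    · simp only [hS, if_false] at h
      exact absurd rfl h
  · exact absurd (hc _ _) h

lemma unary_single {f : (Fin r → K) → K} (hf : Unary f) (c : K) {k : Fin r}
    (h : put f {k} c 0 ≠ put f {k} c 1) : ∃ b, ∀ z, f z = z k + b := by
  rcases hf with ⟨k0, hk⟩ | hc
  · rw [put_eq hk, put_eq hk] at h
    by_cases hkk : k0 = k
    · subst hkk
      simp only [Finset.mem_singleton, if_true] at h
      refine ⟨f fun _ => 0, fun z => ?_⟩
      rw [hk z (fun _ => z k0) rfl]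
      rcases two_values (z k0) with h0 | h0
      · rw [h0, zero_add]
      · rw [h0]
        have : ∀ a b : K, a ≠ b → b = 1 + a := by decide
        exact this _ _ h
    · simp only [Finset.mem_singleton, hkk, if_false] at h
      exact absurd rfl h
  · exact absurd (hc _ _) h

lemma put_zero {f : (Fin r → K) → K} (c : K) : ¬ put f ∅ c 0 ≠ put f ∅ c 1 := by
  unfold put
  simp

end unary

lemma RL_nonneg (δ : ℝ) : 0 ≤ RL δ := by
  unfold RL
  refine le_limsup_of_frequently_le (Frequently.of_forall fun n => ?_) ?_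
  · refine div_nonneg (Real.logb_nonneg (by norm_num) ?_) (by positivity)
    exact_mod_cast one_le_B _ _
  · refine isBoundedUnder_of ⟨1, fun n => ?_⟩
    rcases Nat.eq_zero_or_pos n with h0 | h0
    · subst h0; simp
    · rw [div_le_one (by exact_mod_cast h0)]
      have h4 : (B n ⌈δ * n⌉₊ : ℝ) ≤ 2 ^ n := by
        exact_mod_cast (B_le_A n _).trans (A_le_pow n _)
      have h5 : (0 : ℝ) < B n ⌈δ * n⌉₊ := by exact_mod_cast one_le_B n _
      calc Real.logb 2 (B n ⌈δ * n⌉₊) ≤ Real.logb 2 ((2 : ℝ) ^ n) :=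
            Real.logb_le_logb_of_le (by norm_num) h5 h4
        _ = n := by rw [Real.logb_pow]; simp

open Classical in
lemma card_parts {n : ℕ} (P : Set (Op (Fin n))) (φ : Fin n → K → K) :
    (univ.filter fun i => NonAff P i).card + (univ.filter fun i => Lin P i).card +
      (univ.filter fun i => ¬ NonAff P i ∧ ¬ Lin P i).card = n ∧
    (univ.filter fun i => ¬ NonAff P i ∧ ¬ Lin P i ∧ Perm φ i).card +
      (univ.filter fun i => ¬ NonAff P i ∧ ¬ Lin P i ∧ ¬ Perm φ i).card =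
        (univ.filter fun i => ¬ NonAff P i ∧ ¬ Lin P i).card := by
  constructor
  · have h1 := Finset.card_filter_add_card_filter_not (s := (univ : Finset (Fin n)))
      (fun i => NonAff P i)
    have h2 := Finset.card_filter_add_card_filter_not
      (s := (univ.filter fun i : Fin n => ¬ NonAff P i)) (fun i => Lin P i)
    rw [Finset.filter_filter, Finset.filter_filter] at h2
    have h3 : (univ.filter fun i : Fin n => ¬ NonAff P i ∧ Lin P i) =
        univ.filter fun i => Lin P i := by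
      refine Finset.filter_congr fun i _ => ?_
      refine ⟨fun h => h.2, fun h => ⟨?_, h⟩⟩
      rintro ⟨F, hF, hna⟩
      exact hna (h.1 F hF)
    rw [h3] at h2
    rw [Finset.card_univ, Fintype.card_fin] at h1
    omega
  · have h2 := Finset.card_filter_add_card_filter_not
      (s := (univ.filter fun i : Fin n => ¬ NonAff P i ∧ ¬ Lin P i)) (fun i => Perm φ i)
    rw [Finset.filter_filter, Finset.filter_filter] at h2
    simp only [and_assoc] at h2
    exact h2

lemma log_card {k a b c e : ℕ} (h : k ≤ 2 ^ a * b * (c * e)) (hb : 1 ≤ b) (hc : 1 ≤ c)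
    (he : 1 ≤ e) :
    Real.logb 2 k ≤ a + Real.logb 2 b + (Real.logb 2 c + Real.logb 2 e) := by
  have hb' : (0 : ℝ) < b := by exact_mod_cast hb
  have hc' : (0 : ℝ) < c := by exact_mod_cast hc
  have he' : (0 : ℝ) < e := by exact_mod_cast he
  have h1 : Real.logb 2 (((2 ^ a * b * (c * e) : ℕ) : ℝ)) =
      a + Real.logb 2 b + (Real.logb 2 c + Real.logb 2 e) := by
    push_cast
    rw [Real.logb_mul (by positivity) (by positivity), Real.logb_mul (by positivity)
      (by positivity), Real.logb_mul (by positivity) (by positivity), Real.logb_pow]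
    simp
  rw [← h1]
  rcases Nat.eq_zero_or_pos k with h0 | h0
  · subst h0
    simp only [Nat.cast_zero, Real.logb_zero]
    refine Real.logb_nonneg (by norm_num) ?_
    have : 1 ≤ 2 ^ a * b * (c * e) := Nat.one_le_iff_ne_zero.2 (by positivity)
    exact_mod_cast this
  · exact Real.logb_le_logb_of_le (by norm_num) (by exact_mod_cast h0) (by exact_mod_cast h)

lemma real_pair {Rd ε ρ n md l u v Lc LB LAA c1 c2 δ η : ℝ} (hρ : ρ = Rd + ε) (hR : 0 < Rd)
    (hε : 0 < ε) (h4 : 4 * ε ≤ Rd * η) (hη : 0 < η) (hηδ : η < δ) (hn : 1 ≤ n) (hu : 0 ≤ u)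
    (hv : 0 ≤ v) (hsum : l + u + v ≤ n) (hmd : md ≤ 1 / δ) (hc1 : 0 ≤ c1)
    (hc2 : 0 ≤ c2) (hK : 1 / δ + 4 * c1 + c2 + 2 * ρ ≤ ε * n) (h0 : (Rd - ε) * n ≤ Lc)
    (h1 : Lc ≤ md + LB + LAA) (hB : LB ≤ ρ * l + c1)
    (hAA : LAA ≤ ρ * (u + v - min (min u v) (δ * n)) + (2 * c1 + 2 * ρ)) :
    min u v ≤ η * n := by
  have hρ0 : 0 < ρ := by linarith
  obtain ⟨t, ht⟩ : ∃ t, t = min (min u v) (δ * n) := ⟨_, rfl⟩
  rw [← ht] at hAA
  have hδn : 0 < δ * n := mul_pos (hη.trans hηδ) (by linarith)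
  have ht0 : 0 ≤ t := by rw [ht]; exact le_min (le_min hu hv) hδn.le
  have h5 : ρ * (l + u + v) ≤ ρ * n := mul_le_mul_of_nonneg_left hsum hρ0.le
  have h6 : ρ * l + ρ * (u + v - t) = ρ * (l + u + v) - ρ * t := by ring
  have h7 : (Rd - ε) * n = ρ * n - 2 * (ε * n) := by rw [hρ]; ring
  have h8 : ρ * t ≤ 3 * (ε * n) := by linarith
  have h9 : Rd * t ≤ ρ * t := mul_le_mul_of_nonneg_right (by linarith) ht0
  have h10 : 4 * (ε * n) ≤ Rd * (η * n) := by
    have := mul_le_mul_of_nonneg_right h4 (by linarith : (0 : ℝ) ≤ n)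
    linarith
  have h11 : Rd * t ≤ Rd * (3 / 4 * (η * n)) := by linarith
  have h12 : t ≤ 3 / 4 * (η * n) := le_of_mul_le_mul_left h11 hR
  have h13 : η * n < δ * n := mul_lt_mul_of_pos_right hηδ (by linarith)
  have h14 : 0 < η * n := mul_pos hη (by linarith)
  rcases min_choice (min u v) (δ * n) with h15 | h15
  · rw [ht, h15] at h12
    linarith
  · rw [ht, h15] at h12
    linarith

lemma real_nonaff {Rd ε ρ n m md l w Lc LB LA c1 c2 δ η : ℝ} (hρ : ρ = Rd + ε) (hR : 0 < Rd)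
    (hε : 0 < ε) (h4 : 4 * ε ≤ Rd * η) (hn : 1 ≤ n) (hm : 0 ≤ m) (hsum : m + l + w = n)
    (hmd : md ≤ 1 / δ) (hc1 : 0 ≤ c1) (hc2 : 0 ≤ c2)
    (hK : 1 / δ + 4 * c1 + c2 + 2 * ρ ≤ ε * n) (h0 : (Rd - ε) * n ≤ Lc)
    (h1 : Lc ≤ md + LB + LA) (hB : LB ≤ ρ * l + c1) (hA : LA ≤ ρ * w + c1) :
    m ≤ η * n := by
  have hρ0 : 0 < ρ := by linarith
  have h6 : ρ * l + ρ * w = ρ * n - ρ * m := by rw [← hsum]; ring
  have h7 : (Rd - ε) * n = ρ * n - 2 * (ε * n) := by rw [hρ]; ring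
  have h8 : ρ * m ≤ 3 * (ε * n) := by linarith
  have h9 : Rd * m ≤ ρ * m := mul_le_mul_of_nonneg_right (by linarith) hm
  have h10 : 4 * (ε * n) ≤ Rd * (η * n) := by
    have := mul_le_mul_of_nonneg_right h4 (by linarith : (0 : ℝ) ≤ n)
    linarith
  have h14 : 0 < ε * n := mul_pos hε (by linarith)
  have h11 : Rd * m ≤ Rd * (η * n) := by linarith
  exact le_of_mul_le_mul_left h11 hR

lemma real_lin {Rd RLd ε ρ n m md l w Lc LB LA c1 c2 δ η : ℝ} (hρ : ρ = Rd + ε) (hR : 0 < Rd)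
    (hε : 0 < ε) (h4 : 4 * ε ≤ η) (hn : 1 ≤ n) (hm : 0 ≤ m) (hsum : m + l + w = n)
    (hmd : md ≤ 1 / δ) (hc1 : 0 ≤ c1) (hc2 : 0 ≤ c2)
    (hK : 1 / δ + 4 * c1 + c2 + 2 * ρ ≤ ε * n) (h0 : (Rd - ε) * n ≤ Lc)
    (h1 : Lc ≤ md + LB + LA) (hB : LB ≤ (RLd + ε) * l + c2) (hA : LA ≤ ρ * w + c1) :
    (Rd - RLd) * l ≤ η * n := by
  have hρ0 : 0 < ρ := by linarith
  have h5 : 0 ≤ ρ * m := by positivity
  have h6 : ρ * l + ρ * w = ρ * n - ρ * m := by rw [← hsum]; ring
  have h7 : (Rd - ε) * n = ρ * n - 2 * (ε * n) := by rw [hρ]; ring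
  have h8 : (Rd - RLd) * l = ρ * l - (RLd + ε) * l := by rw [hρ]; ring
  have h14 : 0 < ε * n := mul_pos hε (by linarith)
  have h10 : 4 * (ε * n) ≤ η * n := by
    have := mul_le_mul_of_nonneg_right h4 (by linarith : (0 : ℝ) ≤ n)
    linarith
  linarith

open Classical in
/-- the basic inequalities for nearly optimal codes -/
lemma near {δ : ℝ} (hδ : 0 < δ) (hδ1 : δ < 1) (hR : 0 < R δ) {η : ℝ} (hη : 0 < η) (hηδ : η < δ) :
    ∃ ε : ℝ, 0 < ε ∧ ε < R δ ∧ ∃ n0 : ℕ, 1 ≤ n0 ∧ ∀ n ≥ n0, ∀ (C : Finset (Fin n → K)),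
      Far ⌈δ * n⌉₊ C → (R δ - ε) * n ≤ Real.logb 2 C.card →
      ((univ.filter fun i => NonAff (Pol C) i).card : ℝ) ≤ η * n ∧
      (R δ - RL δ) * (univ.filter fun i => Lin (Pol C) i).card ≤ η * n ∧
      min ((univ.filter fun i => Lin (Pol C) i).card : ℝ)
        (univ.filter fun i => ¬ NonAff (Pol C) i ∧ ¬ Lin (Pol C) i).card ≤ η * n ∧
      ∀ φ, Un C φ →
        min ((univ.filter fun i => ¬ NonAff (Pol C) i ∧ ¬ Lin (Pol C) i ∧ Perm φ i).card : ℝ)
        (univ.filter fun i => ¬ NonAff (Pol C) i ∧ ¬ Lin (Pol C) i ∧ ¬ Perm φ i).card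
          ≤ η * n := by
  obtain ⟨ε, hε⟩ : ∃ ε : ℝ, ε = min (R δ) 1 * η / 4 := ⟨_, rfl⟩
  have hm0 : 0 < min (R δ) 1 := lt_min hR one_pos
  have hε0 : 0 < ε := by rw [hε]; positivity
  have hmR : min (R δ) 1 ≤ R δ := min_le_left _ _
  have hm1 : min (R δ) 1 ≤ 1 := min_le_right _ _
  have hε1 : 4 * ε ≤ R δ * η := by
    rw [hε]; nlinarith
  have hε2 : 4 * ε ≤ η := by
    rw [hε]; nlinarith
  have hεR : ε < R δ := by nlinarith
  obtain ⟨ρ, hρ⟩ : ∃ ρ, ρ = R δ + ε := ⟨_, rfl⟩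
  have hρ0 : 0 ≤ ρ := by linarith
  obtain ⟨c1, hc1, hA⟩ := log_bound A one_le_A A_le_pow (fun n d d' h => A_anti h) (δ := δ)
    (ρ := ρ) hρ0 (by
      have : R δ < ρ := by linarith
      exact this)
  have hRL := RL_nonneg δ
  obtain ⟨c2, hc2, hB⟩ := log_bound B one_le_B (fun n d => (B_le_A n d).trans (A_le_pow n d))
    (fun n d d' h => B_anti h) (δ := δ) (ρ := RL δ + ε) (by linarith) (by
      have : RL δ < RL δ + ε := by linarith
      exact this)
  obtain ⟨Kc, hKc⟩ : ∃ Kc : ℝ, Kc = 1 / δ + 4 * c1 + c2 + 2 * ρ := ⟨_, rfl⟩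
  refine ⟨ε, hε0, hεR, max 1 ⌈Kc / ε⌉₊, le_max_left _ _, ?_⟩
  intro n hn C hC hlog
  have hn1 : 1 ≤ n := (le_max_left _ _).trans hn
  have hnr : (1 : ℝ) ≤ n := by exact_mod_cast hn1
  have hn2 : 1 / δ + 4 * c1 + c2 + 2 * ρ ≤ ε * n := by
    have h1 : Kc / ε ≤ n := (Nat.le_ceil _).trans (by exact_mod_cast (le_max_right _ _).trans hn)
    rw [div_le_iff₀ hε0] at h1
    linarith
  have hδn : 0 < δ * n := by positivity
  obtain ⟨d, hd⟩ : ∃ d, d = ⌈δ * n⌉₊ := ⟨_, rfl⟩
  rw [← hd] at hC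
  have hdn : δ * n ≤ d := by rw [hd]; exact Nat.le_ceil _
  have hd1 : 1 ≤ d := by rw [hd]; exact Nat.one_le_ceil_iff.2 hδn
  have hd0 : (0 : ℝ) < d := by exact_mod_cast hd1
  have hbound := bound (closed_Pol C) hd1 hC
  have hbu := fun φ hφ => bound_unary (closed_Pol C) hd1 hC (φ := φ) hφ
  have hparts := fun φ => card_parts (Pol C) φ
  generalize hm : (univ.filter fun i => NonAff (Pol C) i).card = m at *
  generalize hl : (univ.filter fun i => Lin (Pol C) i).card = l at *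
  generalize hw : (univ.filter fun i => ¬ NonAff (Pol C) i ∧ ¬ Lin (Pol C) i).card = w at *
  have hpart := (hparts fun _ t => t).1
  have hpart' : (m : ℝ) + l + w = n := by exact_mod_cast hpart
  have hm0' : (0 : ℝ) ≤ m := by positivity
  have hl0' : (0 : ℝ) ≤ l := by positivity
  have hw0' : (0 : ℝ) ≤ w := by positivity
  have hmd : ((m / d : ℕ) : ℝ) ≤ 1 / δ := by
    refine Nat.cast_div_le.trans ?_
    rw [div_le_div_iff₀ hd0 hδ, one_mul]
    have : (m : ℝ) ≤ n := by linarith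
    nlinarith
  have hdl : δ * l ≤ d := by
    have : (l : ℝ) ≤ n := by linarith
    nlinarith
  have hBA : Real.logb 2 (B l d) ≤ Real.logb 2 (A l d) :=
    Real.logb_le_logb_of_le (by norm_num) (by exact_mod_cast one_le_B _ _)
      (by exact_mod_cast B_le_A _ _)
  have hAl := hA l d hdl
  have hBl := hB l d hdl
  have hdw : δ * w ≤ d := by
    have : (w : ℝ) ≤ n := by linarith
    nlinarith
  have hAw := hA w d hdw
  have hb1 : C.card ≤ 2 ^ (m / d) * B l d * (A w d * A 0 d) := by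
    rw [A_zero, mul_one]; exact hbound
  have hb2 := log_card hb1 (one_le_B _ _) (one_le_A _ _) (one_le_A _ _)
  rw [A_zero] at hb2
  simp only [Nat.cast_one, Real.logb_one, add_zero] at hb2
  refine ⟨?_, ?_, ?_, ?_⟩
  · exact real_nonaff hρ hR hε0 hε1 hnr hm0' hpart' hmd hc1 hc2 hn2 hlog hb2
      (hBA.trans hAl) hAw
  · exact real_lin hρ hR hε0 hε2 hnr hm0' hpart' hmd hc1 hc2 hn2 hlog hb2 hBl hAw
  · have h1 := pair_bound hδ hρ0 hc1 hA (n := n) (u := l) (v := w) (d := d) (by omega) hdn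
    exact real_pair (l := 0) (LB := 0) (md := ((m / d : ℕ) : ℝ)) hρ hR hε0 hε1 hη hηδ hnr hl0'
      hw0' (by linarith) hmd hc1 hc2 hn2 hlog (by linarith) (by rw [mul_zero]; linarith) h1
  · intro φ hφ
    have hbu2 := hbu φ hφ
    have hpart2 := (hparts φ).2
    generalize hu : (univ.filter fun i => ¬ NonAff (Pol C) i ∧ ¬ Lin (Pol C) i ∧
      Perm φ i).card = u at *
    generalize hv : (univ.filter fun i => ¬ NonAff (Pol C) i ∧ ¬ Lin (Pol C) i ∧
      ¬ Perm φ i).card = v at *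
    have hpart2' : (u : ℝ) + v = w := by exact_mod_cast hpart2
    have hb3 := log_card hbu2 (one_le_B _ _) (one_le_A _ _) (one_le_A _ _)
    have h1 := pair_bound hδ hρ0 hc1 hA (n := n) (u := u) (v := v) (d := d) (by omega) hdn
    exact real_pair (md := ((m / d : ℕ) : ℝ)) hρ hR hε0 hε1 hη hηδ hnr (by positivity)
      (by positivity) (by linarith) hmd hc1 hc2 hn2 hlog hb3 (hBA.trans hAl) h1

end Pool.Agent.Q257.PC
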