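import Mathlib
import Pool.Agent.Q257.PC.Near

set_option autoImplicit false
set_option linter.unusedSectionVars false

/-!
# The rate is positive, and the two kinds of nearly optimal codes
-/

open Finset Function Filter Topology

namespace Pool.Agent.Q257.PC

lemma sum_pow_dist {n : ℕ} (x : Fin n → K) (t : ℝ) :
    ∑ y : Fin n → K, t ^ hammingDist x y = (1 + t) ^ n := by
  classical
  have h1 : ∀ y : Fin n → K, t ^ hammingDist x y = ∏ i, if x i ≠ y i then t else 1 := by
    intro y
    rw [Finset.prod_ite, Finset.prod_const_one, mul_one, Finset.prod_const]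
    rfl
  simp_rw [h1]
  have h2 := (Finset.prod_univ_sum (fun _ : Fin n => (univ : Finset K))
    (fun i b => if x i ≠ b then t else 1)).symm
  rw [Fintype.piFinset_univ] at h2
  rw [h2]
  have h3 : ∀ i, ∑ b : K, (if x i ≠ b then t else 1) = 1 + t := by
    intro i
    have h4 : (univ : Finset K) = {0, 1} := by decide
    rw [h4, Finset.sum_pair (by decide)]
    rcases two_values (x i) with h | h <;> rw [h] <;> simp [add_comm]
  simp_rw [h3]
  simp

lemma gv {n d : ℕ} {t : ℝ} (ht : 0 < t) (ht1 : t ≤ 1) :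
    (2 : ℝ) ^ n * t ^ (d - 1) ≤ A n d * (1 + t) ^ n := by
  classical
  obtain ⟨C, hC, hcard⟩ := exists_A (Fin n) d
  rw [Fintype.card_fin] at hcard
  have hcov : ∀ y : Fin n → K, ∃ x ∈ C, hammingDist x y ≤ d - 1 := by
    intro y
    by_contra hcon
    push Not at hcon
    have hy : y ∉ C := fun hy => by
      have := hcon y hy
      rw [hammingDist_self] at this
      omega
    have hfar : Far d (insert y C) := by
      intro a ha b hb hab
      rcases Finset.mem_insert.1 ha with h | h <;> rcases Finset.mem_insert.1 hb with h' | h'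
      · exact absurd (h.trans h'.symm) hab
      · subst h
        have := hcon b h'
        rw [hammingDist_comm]
        omega
      · subst h'
        have := hcon a h
        omega
      · exact hC a h b h' hab
    have h1 : (insert y C).card ≤ A n d := le_csSup (A_bdd n d) ⟨_, hfar, rfl⟩
    rw [Finset.card_insert_of_notMem hy] at h1
    omega
  have h1 : ∀ y : Fin n → K, t ^ (d - 1) ≤ ∑ x ∈ C, t ^ hammingDist x y := by
    intro y
    obtain ⟨x, hx, hxy⟩ := hcov y
    have h2 : t ^ (d - 1) ≤ t ^ hammingDist x y := pow_le_pow_of_le_one ht.le ht1 hxy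
    exact h2.trans (Finset.single_le_sum (f := fun x => t ^ hammingDist x y)
      (fun x _ => by positivity) hx)
  have h2 : ∑ _y : Fin n → K, t ^ (d - 1) ≤ ∑ y : Fin n → K, ∑ x ∈ C, t ^ hammingDist x y :=
    Finset.sum_le_sum fun y _ => h1 y
  rw [Finset.sum_comm] at h2
  simp_rw [sum_pow_dist] at h2
  rw [Finset.sum_const, Finset.sum_const, Finset.card_univ, Fintype.card_fun, Fintype.card_fin,
    ZMod.card, nsmul_eq_mul, nsmul_eq_mul, hcard] at h2
  push_cast at h2
  exact h2

/-- the rate is positive (Gilbert and Varshamov) -/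
lemma R_pos {δ : ℝ} (hδ : 0 < δ) (hδ1 : δ < 1 / 2) : 0 < R δ := by
  set t : ℝ := 1 / 2 + δ with ht
  have ht0 : 0 < t := by linarith
  have ht1 : t < 1 := by linarith
  set κ : ℝ := 1 + δ * Real.logb 2 t - Real.logb 2 (1 + t) with hκ
  have hl2 : 0 < Real.log 2 := Real.log_pos (by norm_num)
  have hκ0 : 0 < κ := by
    have h1 : Real.log (1 + t) ≤ Real.log 2 - (1 - t) / 2 := by
      have h2 : Real.log ((1 + t) / 2) ≤ (1 + t) / 2 - 1 := Real.log_le_sub_one_of_pos (by linarith)
      rw [Real.log_div (by linarith) (by norm_num)] at h2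
      linarith
    have h3 : 1 - t⁻¹ ≤ Real.log t := Real.one_sub_inv_le_log_of_pos ht0
    have h4 : 0 < Real.log 2 + δ * Real.log t - Real.log (1 + t) := by
      have h5 : δ * (1 - t⁻¹) ≤ δ * Real.log t := mul_le_mul_of_nonneg_left h3 hδ.le
      have h6 : 0 < (1 - t) / 2 + δ * (1 - t⁻¹) := by
        have h7 : (1 - t) / 2 + δ * (1 - t⁻¹) = (1 - t) * (t - 2 * δ) / (2 * t) := by
          field_simp
          ring
        rw [h7]
        apply div_pos _ (by linarith)
        apply mul_pos (by linarith)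
        rw [ht]; linarith
      linarith
    have h8 : κ = (Real.log 2 + δ * Real.log t - Real.log (1 + t)) / Real.log 2 := by
      rw [hκ]
      unfold Real.logb
      field_simp
    rw [h8]
    exact div_pos h4 hl2
  refine lt_of_lt_of_le hκ0 ?_
  unfold R
  refine le_limsup_of_frequently_le ?_ ?_
  · refine (Filter.Eventually.frequently ?_)
    filter_upwards [eventually_ge_atTop 1] with n hn
    have hn0 : (0 : ℝ) < n := by exact_mod_cast hn
    rw [le_div_iff₀ hn0]
    have h1 := gv (n := n) (d := ⌈δ * n⌉₊) ht0 ht1.le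
    have hA0 : (0 : ℝ) < A n ⌈δ * n⌉₊ := by exact_mod_cast one_le_A _ _
    have h2 := Real.logb_le_logb_of_le (b := 2) (by norm_num) (by positivity) h1
    rw [Real.logb_mul (by positivity) (by positivity), Real.logb_mul (by positivity)
      (by positivity), Real.logb_pow, Real.logb_pow, Real.logb_pow] at h2
    have h3 : Real.logb 2 2 = 1 := Real.logb_self_eq_one (by norm_num)
    rw [h3] at h2
    have h4 : Real.logb 2 t ≤ 0 := Real.logb_nonpos (by norm_num) ht0.le ht1.le
    have h5 : ((⌈δ * n⌉₊ - 1 : ℕ) : ℝ) ≤ δ * n := by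
      have h6 : 1 ≤ ⌈δ * n⌉₊ := Nat.one_le_ceil_iff.2 (by positivity)
      rw [Nat.cast_sub h6]
      have h7 := Nat.ceil_lt_add_one (show 0 ≤ δ * n by positivity)
      push_cast
      linarith
    have h6 : δ * n * Real.logb 2 t ≤ ((⌈δ * n⌉₊ - 1 : ℕ) : ℝ) * Real.logb 2 t :=
      mul_le_mul_of_nonpos_right h5 h4
    rw [hκ]
    nlinarith
  · refine isBoundedUnder_of ⟨1, fun n => ?_⟩
    rcases Nat.eq_zero_or_pos n with h0 | h0
    · subst h0; simp
    · rw [div_le_one (by exact_mod_cast h0)]
      have h4 : (A n ⌈δ * n⌉₊ : ℝ) ≤ 2 ^ n := by exact_mod_cast A_le_pow n _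
      have h5 : (0 : ℝ) < A n ⌈δ * n⌉₊ := by exact_mod_cast one_le_A n _
      calc Real.logb 2 (A n ⌈δ * n⌉₊) ≤ Real.logb 2 ((2 : ℝ) ^ n) :=
            Real.logb_le_logb_of_le (by norm_num) h5 h4
        _ = n := by rw [Real.logb_pow]; simp

lemma put_un {n : ℕ} {C : Finset (Fin n → K)} {F : Op (Fin n)} (hF : F ∈ Pol C)
    (S : Finset (Fin F.1)) {c : Fin n → K} (hc : c ∈ C) :
    Un C (fun i t => put (F.2 i) S (c i) t) := by
  intro z hz
  have h1 := hF (fun k => if k ∈ S then z else c) (fun k => by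
    by_cases hk : k ∈ S
    · simpa [hk] using hz
    · simpa [hk] using hc)
  have h2 : F.val (fun k => if k ∈ S then z else c) =
      ap (fun i t => put (F.2 i) S (c i) t) z := by
    funext i
    show F.2 i (fun k => (if k ∈ S then z else c) i) =
      F.2 i (fun k => if k ∈ S then z i else c i)
    refine congrArg (F.2 i) (funext fun k => ?_)
    by_cases hk : k ∈ S <;> simp [hk]
  rwa [h2] at h1

open Classical in
lemma terminal_of_small {ι : Type*} [Fintype ι] [DecidableEq ι] {P : Set (Op ι)}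
    {C : Finset (ι → K)} {Z : Finset ι} (hC : Closed P C) {d : ℕ} (hd : Far d C)
    (h : (univ.filter fun i => NonAff P i).card < d) : Terminal P C Z := by
  intro x y hxy i hi ⟨F, hF, hna⟩
  have h1 := (hxy.two_patterns hC hF hi hna).2
  have h2 := hd x hxy.hx y hxy.hy hxy.ne
  have h3 : hammingDist x y ≤ (univ.filter fun i => NonAff P i).card := by
    apply Finset.card_le_card
    intro j hj
    rw [Finset.mem_filter] at hj ⊢
    exact ⟨hj.1, F, hF, h1 j hj.2⟩
  omega

lemma B_zero (d : ℕ) : B 0 d = 1 :=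
  le_antisymm ((B_le_A 0 d).trans_eq (A_zero d)) (one_le_B 0 d)

/-- one function in all coordinates -/
theorem single {n d r : ℕ} (hd1 : 1 ≤ d) (hdn : d ≤ n) {f : (Fin r → K) → K}
    (hf : ¬ Affine f) :
    (∀ C : Finset (Fin n → K), Closed {⟨r, fun _ => f⟩} C → Far d C → C.card ≤ 2 ^ (n / d)) ∧
      ∃ C : Finset (Fin n → K), Closed {⟨r, fun _ => f⟩} C ∧ Far d C ∧ C.card = 2 ^ (n / d) := by
  classical
  constructor
  · intro C hC hfar
    have h1 := bound hC hd1 hfar
    have hN : ∀ i : Fin n, NonAff {⟨r, fun _ => f⟩} i := fun i => ⟨_, rfl, hf⟩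
    have e1 : (univ.filter fun i : Fin n => NonAff {(⟨r, fun _ => f⟩ : Op (Fin n))} i) = univ :=
      Finset.filter_true_of_mem fun i _ => hN i
    have e2 : (univ.filter fun i : Fin n => Lin {(⟨r, fun _ => f⟩ : Op (Fin n))} i) = ∅ :=
      Finset.filter_eq_empty_iff.2 fun i _ h => hf (h.1 _ rfl)
    have e3 : (univ.filter fun i : Fin n => ¬ NonAff {(⟨r, fun _ => f⟩ : Op (Fin n))} i ∧
        ¬ Lin {(⟨r, fun _ => f⟩ : Op (Fin n))} i) = ∅ :=
      Finset.filter_eq_empty_iff.2 fun i _ h => h.1 (hN i)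
    rw [e1, e2, e3, Finset.card_empty, A_zero, B_zero, mul_one, mul_one, Finset.card_univ,
      Fintype.card_fin] at h1
    exact h1
  · obtain ⟨C, h1, h2, h3⟩ := exists_rep (Fin n) hd1 (by rwa [Fintype.card_fin])
    rw [Fintype.card_fin] at h2
    refine ⟨C, ?_, h1, h2⟩
    intro F hF z hz
    rw [Set.mem_singleton_iff] at hF
    subst hF
    exact h3 r f z hz

open Classical in
/-- nearly optimal codes are of one of two kinds -/
theorem dichotomy {δ η : ℝ} (hδ : 0 < δ) (hδ1 : δ < 1 / 2) (hη : 0 < η) :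
    ∃ ε : ℝ, 0 < ε ∧ ∃ n0 : ℕ, ∀ n ≥ n0, ∀ (C : Finset (Fin n → K)),
      Far ⌈δ * n⌉₊ C → (R δ - ε) * n ≤ Real.logb 2 C.card →
      ((1 - η) * n ≤ (univ.filter fun i => Lin (Pol C) i).card ∧
        (∃ V : Submodule K (Fin n → K), (∀ w ∈ V, w ≠ 0 → δ * n ≤ hammingNorm w) ∧
          ∀ a ∈ C, ∀ b ∈ C, ∃ w ∈ V, ∀ i, Lin (Pol C) i → a i + b i = w i) ∧
        R δ - η ≤ RL δ) ∨
      ((1 - η) * n ≤ (univ.filter fun i => ¬ NonAff (Pol C) i ∧ ¬ Lin (Pol C) i).card ∧
        ∀ F ∈ Pol C,
          (∃ k, (1 - η) * n ≤ (univ.filter fun i => ∃ b, ∀ z, F.2 i z = z k + b).card) ∨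
          (1 - η) * n ≤ (univ.filter fun i => ∃ b, ∀ z, F.2 i z = b).card) := by
  have hR := R_pos hδ hδ1
  obtain ⟨η', hη'⟩ : ∃ η' : ℝ, η' = min η δ / 4 := ⟨_, rfl⟩
  have hm0 : 0 < min η δ := lt_min hη hδ
  have hη0 : 0 < η' := by rw [hη']; positivity
  have h4η : 4 * η' ≤ η := by
    rw [hη']
    have := min_le_left η δ
    linarith
  have h4δ : 4 * η' ≤ δ := by
    rw [hη']
    have := min_le_right η δ
    linarith
  obtain ⟨ε, hε0, hεR, n0, hn0, hnear⟩ := near hδ (by linarith) hR hη0 (by linarith)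
  refine ⟨ε, hε0, n0, ?_⟩
  intro n hn C hC hlog
  obtain ⟨h1, h2, h3, h4⟩ := hnear n hn C hC hlog
  have hn1 : 1 ≤ n := hn0.trans hn
  have hnr : (1 : ℝ) ≤ n := by exact_mod_cast hn1
  have hparts := fun φ => card_parts (Pol C) φ
  have hCne : C.Nonempty := by
    by_contra hcon
    rw [Finset.not_nonempty_iff_eq_empty] at hcon
    rw [hcon] at hlog
    simp only [Finset.card_empty, Nat.cast_zero, Real.logb_zero] at hlog
    have : 0 < (R δ - ε) * n := mul_pos (by linarith) (by linarith)
    linarith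
  obtain ⟨c, hc⟩ := hCne
  have hun : ∀ i, ¬ NonAff (Pol C) i → ¬ Lin (Pol C) i → ∀ F ∈ Pol C, Unary (F.2 i) := by
    intro i hi hi' F hF
    by_contra hu
    refine hi' ⟨fun G hG => ?_, F, hF, hu⟩
    by_contra hG'
    exact hi ⟨G, hG, hG'⟩
  have hpart := (hparts fun _ t => t).1
  have hpart' : ((univ.filter fun i => NonAff (Pol C) i).card : ℝ) +
      (univ.filter fun i => Lin (Pol C) i).card +
      (univ.filter fun i => ¬ NonAff (Pol C) i ∧ ¬ Lin (Pol C) i).card = n := by
    exact_mod_cast hpart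
  have hηn : 0 ≤ η' * n := by positivity
  have h4n : 4 * (η' * n) ≤ η * n := by
    have := mul_le_mul_of_nonneg_right h4η (by linarith : (0 : ℝ) ≤ n)
    linarith
  rcases min_choice ((univ.filter fun i => Lin (Pol C) i).card : ℝ)
    ((univ.filter fun i => ¬ NonAff (Pol C) i ∧ ¬ Lin (Pol C) i).card : ℝ) with h5 | h5
  · -- few linear coordinates
    right
    rw [h5] at h3
    refine ⟨by linarith, ?_⟩
    intro F hF
    obtain ⟨v, hv⟩ : ∃ v : Finset (Fin F.1) → ℕ, ∀ S, v S = (univ.filter fun i =>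
      ¬ NonAff (Pol C) i ∧ ¬ Lin (Pol C) i ∧
        Perm (fun i t => put (F.2 i) S (c i) t) i).card := ⟨_, fun _ => rfl⟩
    have hvmin : ∀ S, (v S : ℝ) ≤ η' * n ∨
        ((univ.filter fun i => ¬ NonAff (Pol C) i ∧ ¬ Lin (Pol C) i).card : ℝ) - v S ≤
          η' * n := by
      intro S
      have h6 := h4 _ (put_un hF S hc)
      have h7 := (hparts (fun i t => put (F.2 i) S (c i) t)).2
      have h8 : (v S : ℝ) + (univ.filter fun i => ¬ NonAff (Pol C) i ∧ ¬ Lin (Pol C) i ∧
          ¬ Perm (fun i t => put (F.2 i) S (c i) t) i).card =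
          (univ.filter fun i => ¬ NonAff (Pol C) i ∧ ¬ Lin (Pol C) i).card := by
        rw [hv S]
        exact_mod_cast h7
      rw [← hv S] at h6
      rcases min_choice (v S : ℝ) ((univ.filter fun i => ¬ NonAff (Pol C) i ∧
        ¬ Lin (Pol C) i ∧ ¬ Perm (fun i t => put (F.2 i) S (c i) t) i).card : ℝ) with h9 | h9
      · left
        rw [h9] at h6
        exact h6
      · right
        rw [h9] at h6
        linarith
    by_cases hall : ∀ S, (v S : ℝ) ≤ η' * n
    · -- constant
      right
      have h6 := hall univ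
      have h7 := (hparts (fun i t => put (F.2 i) univ (c i) t)).2
      have h8 : (v univ : ℝ) + (univ.filter fun i => ¬ NonAff (Pol C) i ∧ ¬ Lin (Pol C) i ∧
          ¬ Perm (fun i t => put (F.2 i) univ (c i) t) i).card =
          (univ.filter fun i => ¬ NonAff (Pol C) i ∧ ¬ Lin (Pol C) i).card := by
        rw [hv univ]
        exact_mod_cast h7
      have h9 : (univ.filter fun i => ¬ NonAff (Pol C) i ∧ ¬ Lin (Pol C) i ∧
          ¬ Perm (fun i t => put (F.2 i) univ (c i) t) i).card ≤
          (univ.filter fun i => ∃ b, ∀ z, F.2 i z = b).card := by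
        apply Finset.card_le_card
        intro i hi
        rw [Finset.mem_filter] at hi ⊢
        exact ⟨hi.1, unary_const (hun i hi.2.1 hi.2.2.1 F hF) (c i) hi.2.2.2⟩
      have h10 : ((univ.filter fun i => ¬ NonAff (Pol C) i ∧ ¬ Lin (Pol C) i ∧
          ¬ Perm (fun i t => put (F.2 i) univ (c i) t) i).card : ℝ) ≤
          (univ.filter fun i => ∃ b, ∀ z, F.2 i z = b).card := by exact_mod_cast h9
      linarith
    · -- one variable
      left
      push Not at hall
      obtain ⟨S0, hS0⟩ := hall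
      obtain ⟨S, hS, hSmin⟩ : ∃ S : Finset (Fin F.1), η' * n < v S ∧
          ∀ T ⊂ S, (v T : ℝ) ≤ η' * n := by
        have hfin : (univ.filter fun S : Finset (Fin F.1) => η' * n < v S).Nonempty :=
          ⟨S0, by rw [Finset.mem_filter]; exact ⟨Finset.mem_univ _, hS0⟩⟩
        obtain ⟨S, hS, hmin⟩ := Finset.exists_min_image _ (fun S => S.card) hfin
        refine ⟨S, (Finset.mem_filter.1 hS).2, fun T hT => ?_⟩
        by_contra hcon
        push Not at hcon
        have h6 := hmin T (by rw [Finset.mem_filter]; exact ⟨Finset.mem_univ _, hcon⟩)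
        have h7 := Finset.card_lt_card hT
        omega
      obtain ⟨k, hk⟩ : S.Nonempty := by
        by_contra hcon
        rw [Finset.not_nonempty_iff_eq_empty] at hcon
        subst hcon
        have h6 : v ∅ = 0 := by
          rw [hv, Finset.card_eq_zero, Finset.filter_eq_empty_iff]
          intro i _ h
          exact put_zero (c i) h.2.2
        rw [h6] at hS
        push_cast at hS
        linarith
      refine ⟨k, ?_⟩
      have h6 := hSmin (S.erase k) (Finset.erase_ssubset hk)
      have h7 : ((univ.filter fun i => ¬ NonAff (Pol C) i ∧ ¬ Lin (Pol C) i).card : ℝ) - v S ≤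
          η' * n := by
        rcases hvmin S with h | h
        · linarith
        · exact h
      have h8 : v S ≤ v (S.erase k) + v {k} := by
        rw [hv, hv, hv]
        refine le_trans (Finset.card_le_card ?_) (Finset.card_union_le _ _)
        intro i hi
        rw [Finset.mem_filter] at hi
        rw [Finset.mem_union, Finset.mem_filter, Finset.mem_filter]
        rcases unary_split (hun i hi.2.1 hi.2.2.1 F hF) (c i) k hi.2.2.2 with h | h
        · exact Or.inl ⟨hi.1, hi.2.1, hi.2.2.1, h⟩
        · exact Or.inr ⟨hi.1, hi.2.1, hi.2.2.1, h⟩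
      have h9 : v {k} ≤ (univ.filter fun i => ∃ b, ∀ z, F.2 i z = z k + b).card := by
        rw [hv]
        apply Finset.card_le_card
        intro i hi
        rw [Finset.mem_filter] at hi ⊢
        exact ⟨hi.1, unary_single (hun i hi.2.1 hi.2.2.1 F hF) (c i) hi.2.2.2⟩
      have h10 : (v S : ℝ) ≤ v (S.erase k) + v {k} := by exact_mod_cast h8
      have h11 : (v {k} : ℝ) ≤ (univ.filter fun i => ∃ b, ∀ z, F.2 i z = z k + b).card := by
        exact_mod_cast h9
      linarith
  · -- few unary coordinates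
    left
    rw [h5] at h3
    have h6 : (1 - 2 * η') * n ≤ (univ.filter fun i => Lin (Pol C) i).card := by linarith
    refine ⟨by linarith, ?_, ?_⟩
    · have hsmall : (univ.filter fun i => NonAff (Pol C) i).card < ⌈δ * n⌉₊ := by
        rw [Nat.lt_ceil]
        nlinarith
      have hT : Terminal (Pol C) C ∅ := terminal_of_small (closed_Pol C) hC hsmall
      refine ⟨W (Pol C) C ∅, ?_, ?_⟩
      · intro w hw hw0
        exact Nat.ceil_le.1 (W_far (closed_Pol C) hC hw hw0)
      · intro a ha b hb
        refine ⟨res (Lin (Pol C)) (a + b), lin_part (closed_Pol C) hT ha hb (by simp), ?_⟩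
        intro i hi
        rw [res_pos hi]
        rfl
    by_contra hcon
    push Not at hcon
    have h7 : η < R δ - RL δ := by linarith
    have h8 : η * ((1 - 2 * η') * n) ≤
        (R δ - RL δ) * (univ.filter fun i => Lin (Pol C) i).card := by
      refine mul_le_mul h7.le h6 ?_ (by linarith)
      apply mul_nonneg _ (by linarith)
      linarith
    have h9 : η * (1 / 2 * n) ≤ η * ((1 - 2 * η') * n) := by
      refine mul_le_mul_of_nonneg_left ?_ hη.le
      refine mul_le_mul_of_nonneg_right ?_ (by linarith)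
      linarith
    have h10 : 0 < η * n := by positivity
    linarith

end Pool.Agent.Q257.PC
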