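import Mathlib
import Pool.Agent.Q257.PC.Final

set_option autoImplicit false
set_option linter.unusedSectionVars false

/-!
# Operations which preserve a nearly optimal code are sums of some of their arguments
-/

open Finset Function Filter Topology

namespace Pool.Agent.Q257.PC

section counting

variable {n : ℕ}

open Classical in
/-- the words of a code which a unary map keeps in the code -/
lemma unary_count {d : ℕ} {C : Finset (Fin n → K)} (hd : Far d C) (φ : Fin n → K → K) :
    (C.filter fun y => ap φ y ∈ C).card ≤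
      A (univ.filter fun i => Perm φ i).card d * A (univ.filter fun i => ¬ Perm φ i).card d := by
  have h1 : ((C.filter fun y => ap φ y ∈ C).image
      (fun (a : Fin n → K) (i : {i // Perm φ i}) => a i)).card ≤
        A (Fintype.card {i // Perm φ i}) d := by
    refine far_image hd (fun i => Perm φ i) _ ?_
    rintro a ha b hb ⟨i, hQ, hi⟩
    rw [Finset.mem_filter] at ha hb
    refine ⟨ap φ a, ha.2, ap φ b, hb.2, fun heq => (perm_iff hi).1 hQ (congrFun heq i), ?_⟩
    intro j hj
    refine ⟨?_, ?_⟩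
    · by_contra hp
      exact hj (not_perm hp _ _)
    · intro heq
      apply hj
      unfold ap
      rw [heq]
  have h2 : ∀ σ ∈ (C.filter fun y => ap φ y ∈ C).image
      (fun (a : Fin n → K) (i : {i // Perm φ i}) => a i),
      ((C.filter fun y => ap φ y ∈ C).filter fun a =>
        (fun (i : {i // Perm φ i}) => a i) = σ).card ≤ A (Fintype.card {i // ¬ Perm φ i}) d := by
    intro σ _
    have hinj : Set.InjOn (fun (a : Fin n → K) (i : {i // ¬ Perm φ i}) => a i)
        ((C.filter fun y => ap φ y ∈ C).filter fun a =>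
        (fun (i : {i // Perm φ i}) => a i) = σ) := by
      intro a ha b hb heq
      rw [Finset.mem_coe, Finset.mem_filter] at ha hb
      funext i
      by_cases hp : Perm φ i
      · exact congrFun (ha.2.trans hb.2.symm) ⟨i, hp⟩
      · exact congrFun heq ⟨i, hp⟩
    rw [← Finset.card_image_of_injOn hinj]
    refine far_image hd (fun i => ¬ Perm φ i) _ ?_
    rintro a ha b hb ⟨i, -, hi⟩
    rw [Finset.mem_filter, Finset.mem_filter] at ha hb
    refine ⟨a, ha.1.1, b, hb.1.1, fun heq => hi (by rw [heq]), ?_⟩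
    intro j hj
    refine ⟨fun hp => hj ?_, hj⟩
    exact congrFun (ha.2.trans hb.2.symm) ⟨j, hp⟩
  have h3 := (Finset.card_le_mul_card_image _ _ h2).trans (Nat.mul_le_mul_left _ h1)
  rw [Fintype.card_subtype, Fintype.card_subtype] at h3
  calc _ ≤ _ := h3
    _ = _ := by ring

end counting

open Classical in
/-- a unary map which preserves a nearly optimal code is nearly constant or nearly a translation -/
lemma near_unary {δ : ℝ} (hδ : 0 < δ) (hδ1 : δ < 1 / 2) {η : ℝ} (hη : 0 < η) (hηδ : η < δ) :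
    ∃ ε : ℝ, 0 < ε ∧ ε < R δ ∧ ∃ n0 : ℕ, 1 ≤ n0 ∧ ∀ n ≥ n0, ∀ (C : Finset (Fin n → K)),
      Far ⌈δ * n⌉₊ C → (R δ - ε) * n ≤ Real.logb 2 C.card →
      ((univ.filter fun i => NonAff (Pol C) i).card : ℝ) ≤ η * n ∧
      ∀ φ, Un C φ → ((univ.filter fun i => Perm φ i).card : ℝ) ≤ η * n ∨
        ((univ.filter fun i => ¬ Perm φ i).card : ℝ) ≤ η * n := by
  have hR := R_pos hδ hδ1
  obtain ⟨ε, hε⟩ : ∃ ε : ℝ, ε = min (R δ) 1 * η / 4 := ⟨_, rfl⟩
  have hm0 : 0 < min (R δ) 1 := lt_min hR one_pos
  have hε0 : 0 < ε := by rw [hε]; positivity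
  have hmR : min (R δ) 1 ≤ R δ := min_le_left _ _
  have hε1 : 4 * ε ≤ R δ * η := by
    rw [hε]; nlinarith
  obtain ⟨ε', hε'0, hε'R, n0', hn0', hnear⟩ := near hδ (by linarith) hR hη hηδ
  obtain ⟨ρ, hρ⟩ : ∃ ρ, ρ = R δ + ε := ⟨_, rfl⟩
  have hρ0 : 0 ≤ ρ := by linarith
  obtain ⟨c1, hc1, hA⟩ := log_bound A one_le_A A_le_pow (fun n d d' h => A_anti h) (δ := δ)
    (ρ := ρ) hρ0 (by
      have : R δ < ρ := by linarith
      exact this)
  obtain ⟨Kc, hKc⟩ : ∃ Kc : ℝ, Kc = 1 / δ + 4 * c1 + 0 + 2 * ρ := ⟨_, rfl⟩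
  refine ⟨min ε ε', lt_min hε0 hε'0, (min_le_right _ _).trans_lt hε'R, max n0' ⌈Kc / ε⌉₊,
    hn0'.trans (le_max_left _ _), ?_⟩
  intro n hn C hC hlog
  have hn1 : 1 ≤ n := hn0'.trans ((le_max_left _ _).trans hn)
  have hnr : (1 : ℝ) ≤ n := by exact_mod_cast hn1
  have hlog1 : (R δ - ε) * n ≤ Real.logb 2 C.card := by
    have := min_le_left ε ε'
    nlinarith
  have hlog2 : (R δ - ε') * n ≤ Real.logb 2 C.card := by
    have := min_le_right ε ε'
    nlinarith
  refine ⟨(hnear n ((le_max_left _ _).trans hn) C hC hlog2).1, ?_⟩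
  intro φ hφ
  have hn2 : 1 / δ + 4 * c1 + 0 + 2 * ρ ≤ ε * n := by
    have h1 : Kc / ε ≤ n := (Nat.le_ceil _).trans (by exact_mod_cast (le_max_right _ _).trans hn)
    rw [div_le_iff₀ hε0] at h1
    linarith
  have hcount := unary_count hC φ
  rw [Finset.filter_true_of_mem fun y hy => hφ y hy] at hcount
  have hsum := Finset.card_filter_add_card_filter_not (s := (univ : Finset (Fin n)))
      (fun i => Perm φ i)
  rw [Finset.card_univ, Fintype.card_fin] at hsum
  generalize (univ.filter fun i => Perm φ i).card = u at *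
  generalize (univ.filter fun i => ¬ Perm φ i).card = v at *
  have hb : C.card ≤ 2 ^ 0 * 1 * (A u ⌈δ * n⌉₊ * A v ⌈δ * n⌉₊) := by simpa using hcount
  have hb3 := log_card hb le_rfl (one_le_A _ _) (one_le_A _ _)
  have h1 := pair_bound hδ hρ0 hc1 hA (n := n) (u := u) (v := v) (d := ⌈δ * n⌉₊) (by omega)
    (Nat.le_ceil _)
  have hsum' : (u : ℝ) + v = n := by exact_mod_cast hsum
  have h2 := real_pair (l := 0) (LB := Real.logb 2 (1 : ℕ)) (md := ((0 : ℕ) : ℝ)) hρ hR hε0 hε1
    hη hηδ hnr (u := (u : ℝ)) (v := (v : ℝ)) (by positivity) (by positivity) (by linarith)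
    (by rw [Nat.cast_zero]; positivity) hc1 le_rfl hn2 hlog1 hb3 (by simpa using hc1) h1
  rcases min_choice (u : ℝ) v with h3 | h3
  · left; rw [h3] at h2; exact h2
  · right; rw [h3] at h2; exact h2

/-- an average argument over the subsets of the arguments -/
lemma half_subsets {r : ℕ} {a : Fin r → K} (ha : a ≠ 0) :
    2 * (univ.filter fun S : Finset (Fin r) => ∑ k ∈ S, a k ≠ 0).card = 2 ^ r := by
  classical
  obtain ⟨k0, hk0⟩ : ∃ k, a k ≠ 0 := by
    by_contra hcon
    push Not at hcon
    exact ha (funext hcon)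
  have h1 : (univ.filter fun S : Finset (Fin r) => ∑ k ∈ S, a k ≠ 0).card =
      (univ.filter fun S : Finset (Fin r) => ¬ ∑ k ∈ S, a k ≠ 0).card := by
    have hflip : ∀ S : Finset (Fin r), ∑ k ∈ symmDiff S {k0}, a k = ∑ k ∈ S, a k + a k0 := by
      intro S
      by_cases hS : k0 ∈ S
      · have e : symmDiff S {k0} = S.erase k0 := by
          ext k
          simp only [Finset.mem_symmDiff, Finset.mem_singleton, Finset.mem_erase]
          constructor
          · rintro (⟨h1, h2⟩ | ⟨h1, h2⟩)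
            · exact ⟨h2, h1⟩
            · exact absurd (h1 ▸ hS) h2
          · rintro ⟨h1, h2⟩
            exact Or.inl ⟨h2, h1⟩
        rw [e, ← Finset.sum_erase_add S a hS]
        have : ∀ x y : K, x = x + y + y := by decide
        exact this _ _
      · have e : symmDiff S {k0} = insert k0 S := by
          ext k
          simp only [Finset.mem_symmDiff, Finset.mem_singleton, Finset.mem_insert]
          constructor
          · rintro (⟨h1, h2⟩ | ⟨h1, h2⟩)
            · exact Or.inr h1
            · exact Or.inl h1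
          · rintro (h1 | h1)
            · exact Or.inr ⟨h1, h1 ▸ hS⟩
            · exact Or.inl ⟨h1, fun h => hS (h ▸ h1)⟩
        rw [e, Finset.sum_insert hS, add_comm]
    have hflip2 : ∀ x y : K, y ≠ 0 → (x + y ≠ 0 ↔ ¬ x ≠ 0) := by decide
    refine Finset.card_bij (fun S _ => symmDiff S {k0}) ?_ ?_ ?_
    · intro S hS
      rw [Finset.mem_filter] at hS ⊢
      refine ⟨Finset.mem_univ _, ?_⟩
      rw [hflip, hflip2 _ _ hk0, not_not]
      exact hS.2
    · intro S _ T _ h
      exact symmDiff_left_injective _ h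
    · intro S hS
      rw [Finset.mem_filter] at hS
      refine ⟨symmDiff S {k0}, ?_, by simp⟩
      rw [Finset.mem_filter]
      refine ⟨Finset.mem_univ _, ?_⟩
      rw [hflip, hflip2 _ _ hk0]
      exact hS.2
  have h2 := Finset.card_filter_add_card_filter_not (s := (univ : Finset (Finset (Fin r))))
      (fun S : Finset (Fin r) => ∑ k ∈ S, a k ≠ 0)
  rw [Finset.card_univ, Fintype.card_finset, Fintype.card_fin] at h2
  omega

end Pool.Agent.Q257.PC
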