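import Mathlib
import Pool.Agent.Q257.PC.Uni

set_option autoImplicit false
set_option linter.unusedSectionVars false

/-!
# Operations which preserve a nearly optimal code are sums of some of their arguments
-/

open Finset Function Filter Topology

namespace Pool.Agent.Q257.PC

lemma put_affine {r : ℕ} {f : (Fin r → K) → K} {a : Fin r → K} {b : K}
    (h : ∀ z, f z = b + ∑ k, a k * z k) (S : Finset (Fin r)) (c : K) :
    put f S c 0 + put f S c 1 = ∑ k ∈ S, a k := by
  classical
  unfold put
  rw [h, h]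
  have h1 : ∀ x y : K, b + x + (b + y) = x + y := by
    intro x y
    revert x y
    generalize b = b'
    revert b'
    decide
  rw [h1, ← Finset.sum_add_distrib]
  have h2 : ∀ k, a k * (if k ∈ S then 0 else c) + a k * (if k ∈ S then 1 else c) =
      if k ∈ S then a k else 0 := by
    intro k
    by_cases hk : k ∈ S
    · simp [hk]
    · simp only [hk, if_false]
      exact add_eq_zero_iff'.2 rfl
  simp_rw [h2]
  simp

open Classical in
theorem sum_form {δ η : ℝ} (hδ : 0 < δ) (hδ1 : δ < 1 / 2) (hη : 0 < η) :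
    ∃ ε : ℝ, 0 < ε ∧ ∃ n0 : ℕ, ∀ n ≥ n0, ∀ (C : Finset (Fin n → K)),
      Far ⌈δ * n⌉₊ C → (R δ - ε) * n ≤ Real.logb 2 C.card → ∀ F ∈ Pol C,
        ∃ I : Finset (Fin F.1), (1 - η) * n ≤
          (univ.filter fun i => ∃ b, ∀ z, F.2 i z = b + ∑ k ∈ I, z k).card := by
  obtain ⟨η', hη'⟩ : ∃ η' : ℝ, η' = min η δ / 8 := ⟨_, rfl⟩
  have hm0 : 0 < min η δ := lt_min hη hδ
  have hη0 : 0 < η' := by rw [hη']; positivity
  have h8η : 8 * η' ≤ η := by
    rw [hη']
    have := min_le_left η δ
    linarith
  have h8δ : 8 * η' ≤ δ := by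
    rw [hη']
    have := min_le_right η δ
    linarith
  obtain ⟨ε, hε0, hεR, n0, hn0, hnear⟩ := near_unary hδ hδ1 hη0 (by linarith)
  refine ⟨ε, hε0, n0, ?_⟩
  intro n hn C hC hlog F hF
  obtain ⟨hna, hun⟩ := hnear n hn C hC hlog
  have hn1 : 1 ≤ n := hn0.trans hn
  have hnr : (1 : ℝ) ≤ n := by exact_mod_cast hn1
  have hηn : 0 < η' * n := by positivity
  have h8n : 8 * (η' * n) ≤ η * n := by
    have := mul_le_mul_of_nonneg_right h8η (by linarith : (0 : ℝ) ≤ n)
    linarith
  have h8n' : 8 * (η' * n) < n := by nlinarith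
  have hCne : C.Nonempty := by
    by_contra hcon
    rw [Finset.not_nonempty_iff_eq_empty] at hcon
    rw [hcon] at hlog
    simp only [Finset.card_empty, Nat.cast_zero, Real.logb_zero] at hlog
    have : 0 < (R δ - ε) * n := mul_pos (by linarith) (by linarith)
    linarith
  obtain ⟨c, hc⟩ := hCne
  -- coefficients
  obtain ⟨a, ha⟩ : ∃ a : Fin n → Fin F.1 → K, ∀ i, Affine (F.2 i) →
      ∃ b, ∀ z, F.2 i z = b + ∑ k, a i k * z k := by
    refine ⟨fun i => if h : Affine (F.2 i) then h.choose else 0, fun i h => ?_⟩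
    simp only [h, dif_pos]
    exact h.choose_spec
  have hperm : ∀ S : Finset (Fin F.1), ∀ i, Affine (F.2 i) →
      (Perm (fun i t => put (F.2 i) S (c i) t) i ↔ ∑ k ∈ S, a i k ≠ 0) := by
    intro S i hi
    obtain ⟨b, hb⟩ := ha i hi
    have h1 := put_affine hb S (c i)
    rw [← h1]
    unfold Perm
    rw [Ne, Ne, add_eq_zero_iff']
  -- the majority
  obtain ⟨χ, hχ⟩ : ∃ χ : Finset (Fin F.1) → K, ∀ S, χ S =
      if ((univ.filter fun i => Perm (fun i t => put (F.2 i) S (c i) t) i).card : ℝ) ≤ η' * n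
        then 0 else 1 := ⟨_, fun _ => rfl⟩
  have hexc : ∀ S, ((univ.filter fun i => Affine (F.2 i) ∧ ∑ k ∈ S, a i k ≠ χ S).card : ℝ) ≤
      η' * n := by
    intro S
    by_cases h1 : ((univ.filter fun i =>
        Perm (fun i t => put (F.2 i) S (c i) t) i).card : ℝ) ≤ η' * n
    · have h2 : χ S = 0 := by rw [hχ, if_pos h1]
      refine le_trans ?_ h1
      have h3 : (univ.filter fun i => Affine (F.2 i) ∧ ∑ k ∈ S, a i k ≠ χ S).card ≤
          (univ.filter fun i => Perm (fun i t => put (F.2 i) S (c i) t) i).card := by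
        apply Finset.card_le_card
        intro i hi
        rw [Finset.mem_filter] at hi ⊢
        rw [h2] at hi
        exact ⟨hi.1, (hperm S i hi.2.1).2 hi.2.2⟩
      exact_mod_cast h3
    · have h2 : χ S = 1 := by rw [hχ, if_neg h1]
      have h4 := (hun _ (put_un hF S hc)).resolve_left h1
      refine le_trans ?_ h4
      have h3 : (univ.filter fun i => Affine (F.2 i) ∧ ∑ k ∈ S, a i k ≠ χ S).card ≤
          (univ.filter fun i => ¬ Perm (fun i t => put (F.2 i) S (c i) t) i).card := by
        apply Finset.card_le_card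
        intro i hi
        rw [Finset.mem_filter] at hi ⊢
        rw [h2] at hi
        refine ⟨hi.1, ?_⟩
        rw [hperm S i hi.2.1]
        have : ∀ x : K, x ≠ 1 → ¬ x ≠ 0 := by decide
        exact this _ hi.2.2
      exact_mod_cast h3
  have hnaF : ((univ.filter fun i => ¬ Affine (F.2 i)).card : ℝ) ≤ η' * n := by
    refine le_trans ?_ hna
    have h3 : (univ.filter fun i => ¬ Affine (F.2 i)).card ≤
        (univ.filter fun i => NonAff (Pol C) i).card := by
      apply Finset.card_le_card
      intro i hi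
      rw [Finset.mem_filter] at hi ⊢
      exact ⟨hi.1, F, hF, hi.2⟩
    exact_mod_cast h3
  -- the majority is additive
  have hadd : ∀ (k : Fin F.1) (S : Finset (Fin F.1)), k ∉ S →
      χ (insert k S) = χ {k} + χ S := by
    intro k S hk
    have hcov : ∃ i, Affine (F.2 i) ∧ ∑ j ∈ insert k S, a i j = χ (insert k S) ∧
        ∑ j ∈ S, a i j = χ S ∧ ∑ j ∈ {k}, a i j = χ {k} := by
      by_contra hcon
      push Not at hcon
      have h1 : (univ : Finset (Fin n)) ⊆ (univ.filter fun i => ¬ Affine (F.2 i)) ∪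
          ((univ.filter fun i => Affine (F.2 i) ∧ ∑ j ∈ insert k S, a i j ≠ χ (insert k S)) ∪
          ((univ.filter fun i => Affine (F.2 i) ∧ ∑ j ∈ S, a i j ≠ χ S) ∪
          (univ.filter fun i => Affine (F.2 i) ∧ ∑ j ∈ {k}, a i j ≠ χ {k}))) := by
        intro i _
        simp only [Finset.mem_union, Finset.mem_filter, Finset.mem_univ, true_and]
        by_cases h2 : Affine (F.2 i)
        · by_cases h3 : ∑ j ∈ insert k S, a i j = χ (insert k S)
          · by_cases h4 : ∑ j ∈ S, a i j = χ S
            · exact Or.inr (Or.inr (Or.inr ⟨h2, hcon i h2 h3 h4⟩))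
            · exact Or.inr (Or.inr (Or.inl ⟨h2, h4⟩))
          · exact Or.inr (Or.inl ⟨h2, h3⟩)
        · exact Or.inl h2
      have h2 := (Finset.card_le_card h1).trans ((Finset.card_union_le _ _).trans
        (Nat.add_le_add_left ((Finset.card_union_le _ _).trans
        (Nat.add_le_add_left (Finset.card_union_le _ _) _)) _))
      rw [Finset.card_univ, Fintype.card_fin] at h2
      have h3 : (n : ℝ) ≤ (univ.filter fun i => ¬ Affine (F.2 i)).card +
          ((univ.filter fun i => Affine (F.2 i) ∧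
            ∑ j ∈ insert k S, a i j ≠ χ (insert k S)).card +
          ((univ.filter fun i => Affine (F.2 i) ∧ ∑ j ∈ S, a i j ≠ χ S).card +
          (univ.filter fun i => Affine (F.2 i) ∧ ∑ j ∈ {k}, a i j ≠ χ {k}).card)) := by
        exact_mod_cast h2
      have h4 := hexc (insert k S)
      have h5 := hexc S
      have h6 := hexc {k}
      linarith
    obtain ⟨i, -, h1, h2, h3⟩ := hcov
    rw [← h1, ← h2, ← h3, Finset.sum_insert hk, Finset.sum_singleton]
  have hzero : χ ∅ = 0 := by
    rw [hχ, if_pos]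
    have : (univ.filter fun i => Perm (fun i t => put (F.2 i) ∅ (c i) t) i) = ∅ := by
      rw [Finset.filter_eq_empty_iff]
      intro i _ h
      exact put_zero (c i) h
    rw [this]
    simpa using hηn.le
  have hsum : ∀ S, χ S = ∑ k ∈ S, χ {k} := by
    intro S
    induction S using Finset.induction_on with
    | empty => rw [hzero]; simp
    | insert k S hk ih => rw [hadd k S hk, ih, Finset.sum_insert hk]
  -- average over the subsets
  have hdouble : (univ.filter fun i => Affine (F.2 i) ∧ a i ≠ fun k => χ {k}).card * 2 ^ F.1 ≤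
      2 * ∑ S : Finset (Fin F.1),
        (univ.filter fun i => Affine (F.2 i) ∧ ∑ k ∈ S, a i k ≠ χ S).card := by
    have h1 : ∑ S : Finset (Fin F.1),
        (univ.filter fun i => Affine (F.2 i) ∧ ∑ k ∈ S, a i k ≠ χ S).card =
        ∑ i : Fin n, (univ.filter fun S : Finset (Fin F.1) =>
          Affine (F.2 i) ∧ ∑ k ∈ S, a i k ≠ χ S).card := by
      simp_rw [Finset.card_filter]
      exact Finset.sum_comm
    rw [h1, Finset.mul_sum, ← smul_eq_mul, ← Finset.sum_const]
    refine (Finset.sum_le_sum fun i hi => ?_).trans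
      (Finset.sum_le_sum_of_subset (Finset.filter_subset _ _))
    rw [Finset.mem_filter] at hi
    have h2 : (a i + fun k => χ {k}) ≠ 0 := by
      intro h0
      apply hi.2.2
      funext k
      exact add_eq_zero_iff'.1 (congrFun h0 k)
    rw [← half_subsets h2]
    refine Nat.mul_le_mul_left _ (Finset.card_le_card ?_)
    intro S hS
    rw [Finset.mem_filter] at hS ⊢
    refine ⟨hS.1, hi.2.1, ?_⟩
    intro h3
    apply hS.2
    have h4 : ∑ k ∈ S, (a i + fun k => χ {k}) k = ∑ k ∈ S, a i k + ∑ k ∈ S, χ {k} :=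
      Finset.sum_add_distrib
    rw [h4, h3, hsum S]
    exact add_eq_zero_iff'.2 rfl
  have hbad : ((univ.filter fun i => Affine (F.2 i) ∧ a i ≠ fun k => χ {k}).card : ℝ) ≤
      2 * (η' * n) := by
    have h1 : ((univ.filter fun i => Affine (F.2 i) ∧ a i ≠ fun k => χ {k}).card : ℝ) *
        2 ^ F.1 ≤ 2 * ∑ S : Finset (Fin F.1),
        ((univ.filter fun i => Affine (F.2 i) ∧ ∑ k ∈ S, a i k ≠ χ S).card : ℝ) := by
      exact_mod_cast hdouble
    have h2 : ∑ S : Finset (Fin F.1),
        ((univ.filter fun i => Affine (F.2 i) ∧ ∑ k ∈ S, a i k ≠ χ S).card : ℝ) ≤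
        2 ^ F.1 * (η' * n) := by
      refine (Finset.sum_le_sum fun S _ => hexc S).trans ?_
      rw [Finset.sum_const, Finset.card_univ, Fintype.card_finset, Fintype.card_fin,
        nsmul_eq_mul]
      push_cast
      exact le_rfl
    have h3 : (0 : ℝ) < 2 ^ F.1 := by positivity
    have h4 : ((univ.filter fun i => Affine (F.2 i) ∧ a i ≠ fun k => χ {k}).card : ℝ) *
        2 ^ F.1 ≤ 2 * (η' * n) * 2 ^ F.1 := by linarith
    exact le_of_mul_le_mul_right h4 h3
  refine ⟨univ.filter fun k => χ {k} ≠ 0, ?_⟩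
  have hcov : (univ : Finset (Fin n)) ⊆
      (univ.filter fun i => ∃ b, ∀ z, F.2 i z = b + ∑ k ∈ univ.filter (fun k => χ {k} ≠ 0), z k) ∪
        ((univ.filter fun i => ¬ Affine (F.2 i)) ∪
          (univ.filter fun i => Affine (F.2 i) ∧ a i ≠ fun k => χ {k})) := by
    intro i _
    simp only [Finset.mem_union, Finset.mem_filter, Finset.mem_univ, true_and]
    by_cases h2 : Affine (F.2 i)
    · by_cases h3 : a i = fun k => χ {k}
      · left
        obtain ⟨b, hb⟩ := ha i h2
        refine ⟨b, fun z => ?_⟩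
        rw [hb z, h3, Finset.sum_filter]
        congr 1
        refine Finset.sum_congr rfl fun k _ => ?_
        rcases two_values (χ {k}) with h | h <;> simp [h]
      · exact Or.inr (Or.inr ⟨h2, h3⟩)
    · exact Or.inr (Or.inl h2)
  have h2 := (Finset.card_le_card hcov).trans ((Finset.card_union_le _ _).trans
        (Nat.add_le_add_left (Finset.card_union_le _ _) _))
  rw [Finset.card_univ, Fintype.card_fin] at h2
  have h3 : (n : ℝ) ≤ (univ.filter fun i => ∃ b, ∀ z, F.2 i z =
      b + ∑ k ∈ univ.filter (fun k => χ {k} ≠ 0), z k).card +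
        ((univ.filter fun i => ¬ Affine (F.2 i)).card +
          (univ.filter fun i => Affine (F.2 i) ∧ a i ≠ fun k => χ {k}).card) := by
    exact_mod_cast h2
  linarith

end Pool.Agent.Q257.PC
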