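import Mathlib
import Pool.Agent.Q257.PC.SumForm

set_option autoImplicit false
set_option linter.unusedSectionVars false

/-!
# Operations which often lead back to a nearly optimal code: preparations
-/

open Finset Function Filter Topology

namespace Pool.Agent.Q257.PC

lemma le_rpow_of_logb {N : ℕ} {x : ℝ} (h : Real.logb 2 N ≤ x) : (N : ℝ) ≤ (2 : ℝ) ^ x := by
  rcases Nat.eq_zero_or_pos N with h0 | h0
  · subst h0
    rw [Nat.cast_zero]
    positivity
  · exact (Real.logb_le_iff_le_rpow (by norm_num) (by exact_mod_cast h0)).1 h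

lemma rpow_le_of_logb {N : ℕ} {x : ℝ} (hN : 0 < N) (h : x ≤ Real.logb 2 N) :
    (2 : ℝ) ^ x ≤ N :=
  (Real.le_logb_iff_rpow_le (by norm_num) (by exact_mod_cast hN)).1 h

open Classical in
/-- small balls -/
lemma ball {θ : ℝ} (hθ : 0 < θ) : ∃ η0 : ℝ, 0 < η0 ∧ ∀ n : ℕ,
    ((univ.filter fun w : Fin n → K => (hammingNorm w : ℝ) ≤ η0 * n).card : ℝ) ≤
      (2 : ℝ) ^ (θ * n) := by
  have hl2 : 0 < Real.log 2 := Real.log_pos (by norm_num)
  obtain ⟨t, ht⟩ : ∃ t : ℝ, t = min (1 / 2) (θ * Real.log 2 / 2) := ⟨_, rfl⟩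
  have ht0 : 0 < t := by rw [ht]; exact lt_min (by norm_num) (by positivity)
  have ht1 : t ≤ 1 / 2 := by rw [ht]; exact min_le_left _ _
  have ht2 : t ≤ θ * Real.log 2 / 2 := by rw [ht]; exact min_le_right _ _
  have hlt : Real.logb 2 t < 0 := Real.logb_neg (by norm_num) ht0 (by linarith)
  obtain ⟨η0, hη0⟩ : ∃ η0 : ℝ, η0 = θ / 2 / (- Real.logb 2 t) := ⟨_, rfl⟩
  have hη0' : 0 < η0 := by
    rw [hη0]
    exact div_pos (by linarith) (by linarith)
  refine ⟨η0, hη0', ?_⟩
  intro n
  have h1 : Real.logb 2 (1 + t) ≤ θ / 2 := by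
    unfold Real.logb
    rw [div_le_iff₀ hl2]
    have h2 : Real.log (1 + t) ≤ 1 + t - 1 := Real.log_le_sub_one_of_pos (by linarith)
    linarith
  have h2 : η0 * (- Real.logb 2 t) = θ / 2 := by
    rw [hη0]
    exact div_mul_cancel₀ _ (by linarith)
  -- the sum over all words
  have h3 := sum_pow_dist (0 : Fin n → K) t
  have h4 : ((univ.filter fun w : Fin n → K => (hammingNorm w : ℝ) ≤ η0 * n).card : ℝ) *
      t ^ (η0 * n) ≤ (1 + t) ^ n := by
    rw [← h3, ← nsmul_eq_mul, ← Finset.sum_const]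
    refine (Finset.sum_le_sum fun w hw => ?_).trans
      (Finset.sum_le_sum_of_subset_of_nonneg (Finset.filter_subset _ _)
        (fun w _ _ => by positivity))
    rw [Finset.mem_filter] at hw
    rw [← Real.rpow_natCast]
    refine Real.rpow_le_rpow_of_exponent_ge ht0 (by linarith) ?_
    rw [hammingDist_zero_left]
    exact hw.2
  have ht2' : (2 : ℝ) ^ Real.logb 2 t = t := Real.rpow_logb (by norm_num) (by norm_num) ht0
  have ht3' : (2 : ℝ) ^ Real.logb 2 (1 + t) = 1 + t :=
    Real.rpow_logb (by norm_num) (by norm_num) (by linarith)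
  have h5 : t ^ (η0 * n) = (2 : ℝ) ^ (-(θ / 2 * n)) := by
    nth_rewrite 1 [← ht2']
    rw [← Real.rpow_mul (by norm_num)]
    congr 1
    linear_combination (-(n : ℝ)) * h2
  have h6 : (1 + t) ^ n ≤ (2 : ℝ) ^ (θ / 2 * n) := by
    calc (1 + t) ^ n = ((2 : ℝ) ^ Real.logb 2 (1 + t)) ^ n := by rw [ht3']
      _ = (2 : ℝ) ^ (Real.logb 2 (1 + t) * n) := by rw [← Real.rpow_natCast, ← Real.rpow_mul
          (by norm_num)]
      _ ≤ (2 : ℝ) ^ (θ / 2 * n) := by
          refine Real.rpow_le_rpow_of_exponent_le (by norm_num) ?_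
          exact mul_le_mul_of_nonneg_right h1 (by positivity)
  rw [h5] at h4
  have h7 : (0 : ℝ) < (2 : ℝ) ^ (-(θ / 2 * n)) := by positivity
  have h8 : ((univ.filter fun w : Fin n → K => (hammingNorm w : ℝ) ≤ η0 * n).card : ℝ) *
      (2 : ℝ) ^ (-(θ / 2 * n)) ≤ (2 : ℝ) ^ (θ * n) * (2 : ℝ) ^ (-(θ / 2 * n)) := by
    refine h4.trans (h6.trans (le_of_eq ?_))
    rw [← Real.rpow_add (by norm_num)]
    congr 1
    ring
  exact le_of_mul_le_mul_right h8 h7

open Classical in
/-- the words of a code which are nearly determined on the set of the `i` with `Q i` -/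
lemma nearby {n d : ℕ} {C : Finset (Fin n → K)} (hd : Far d C) (Q : Fin n → Prop)
    (a : Fin n → K) (τ : ℝ) :
    (C.filter fun y => ((univ.filter fun i => Q i ∧ y i ≠ a i).card : ℝ) ≤ τ).card ≤
      (univ.filter fun w : Fin n → K => (hammingNorm w : ℝ) ≤ τ).card *
        A (univ.filter fun i => ¬ Q i).card d := by
  have h2 : ∀ σ ∈ (C.filter fun y => ((univ.filter fun i => Q i ∧ y i ≠ a i).card : ℝ) ≤ τ).image
      (fun y => res Q (y + a)),
      ((C.filter fun y => ((univ.filter fun i => Q i ∧ y i ≠ a i).card : ℝ) ≤ τ).filter fun y =>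
        res Q (y + a) = σ).card ≤ A (Fintype.card {i // ¬ Q i}) d := by
    intro σ _
    have hag : ∀ x y : Fin n → K, res Q (x + a) = res Q (y + a) → ∀ i, Q i → x i = y i := by
      intro x y h i hi
      have h3 := congrFun h i
      rw [res_pos hi, res_pos hi] at h3
      have h4 : x i + a i = y i + a i := h3
      exact add_right_cancel h4
    have hinj : Set.InjOn (fun (x : Fin n → K) (i : {i // ¬ Q i}) => x i)
        ((C.filter fun y => ((univ.filter fun i => Q i ∧ y i ≠ a i).card : ℝ) ≤ τ).filter fun y =>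
        res Q (y + a) = σ) := by
      intro x hx y hy heq
      rw [Finset.mem_coe, Finset.mem_filter] at hx hy
      funext i
      by_cases hp : Q i
      · exact hag x y (hx.2.trans hy.2.symm) i hp
      · exact congrFun heq ⟨i, hp⟩
    rw [← Finset.card_image_of_injOn hinj]
    refine far_image hd (fun i => ¬ Q i) _ ?_
    rintro x hx y hy ⟨i, -, hi⟩
    rw [Finset.mem_filter, Finset.mem_filter] at hx hy
    refine ⟨x, hx.1.1, y, hy.1.1, fun heq => hi (by rw [heq]), ?_⟩
    intro j hj
    exact ⟨fun hp => hj (hag x y (hx.2.trans hy.2.symm) j hp), hj⟩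
  have h1 : ((C.filter fun y => ((univ.filter fun i => Q i ∧ y i ≠ a i).card : ℝ) ≤ τ).image
      (fun y => res Q (y + a))).card ≤
      (univ.filter fun w : Fin n → K => (hammingNorm w : ℝ) ≤ τ).card := by
    apply Finset.card_le_card
    intro w hw
    obtain ⟨y, hy, rfl⟩ := Finset.mem_image.1 hw
    rw [Finset.mem_filter] at hy ⊢
    refine ⟨Finset.mem_univ _, le_trans (le_of_eq ?_) hy.2⟩
    unfold hammingNorm
    congr 2
    ext i
    simp only [Finset.mem_filter, Finset.mem_univ, true_and]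
    by_cases hi : Q i
    · rw [res_pos hi]
      have : (y + a) i ≠ 0 ↔ y i ≠ a i := sum_ne i
      rw [this]
      exact ⟨fun h => ⟨hi, h⟩, fun h => h.2⟩
    · rw [res_neg hi]
      simp [hi]
  have h3 := (Finset.card_le_mul_card_image _ _ h2).trans (Nat.mul_le_mul_left _ h1)
  rw [Fintype.card_subtype] at h3
  calc _ ≤ _ := h3
    _ = _ := by ring

/-- the tuples of words of `C` -/
def tup {n : ℕ} (s : ℕ) (C : Finset (Fin n → K)) : Finset (Fin s → Fin n → K) :=
  Fintype.piFinset fun _ => C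

lemma card_tup {n : ℕ} (s : ℕ) (C : Finset (Fin n → K)) : (tup s C).card = C.card ^ s := by
  unfold tup
  rw [Fintype.card_piFinset_const]

lemma mem_tup {n s : ℕ} {C : Finset (Fin n → K)} {z : Fin s → Fin n → K} :
    z ∈ tup s C ↔ ∀ k, z k ∈ C := Fintype.mem_piFinset

open Classical in
/-- count the tuples by fixing all words but one -/
lemma fib {n s : ℕ} {C : Finset (Fin n → K)} (k : Fin (s + 1))
    (Q : (Fin (s + 1) → Fin n → K) → Prop) (Bad : (Fin s → Fin n → K) → Prop) {M : ℝ}
    (hM : 0 ≤ M)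
    (h : ∀ z' ∈ tup s C, ¬ Bad z' → ((C.filter fun y => Q (k.insertNth y z')).card : ℝ) ≤ M) :
    (((tup (s + 1) C).filter Q).card : ℝ) ≤
      ((tup s C).filter Bad).card * C.card + (C.card : ℝ) ^ s * M := by
  have h1 : ((tup (s + 1) C).filter Q).card ≤
      ((tup s C ×ˢ C).filter fun p => Q (k.insertNth p.2 p.1)).card := by
    refine Finset.card_le_card_of_injOn (fun z => (k.removeNth z, z k)) ?_ ?_
    · intro z hz
      rw [Finset.mem_coe, Finset.mem_filter, mem_tup] at hz
      rw [Finset.mem_coe, Finset.mem_filter, Finset.mem_product, mem_tup]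
      refine ⟨⟨fun l => hz.1 _, hz.1 k⟩, ?_⟩
      have h2 : (k.insertNth (z k) (k.removeNth z) : Fin (s + 1) → Fin n → K) = z :=
        Fin.insertNth_self_removeNth k z
      show Q (k.insertNth (z k) (k.removeNth z))
      rw [h2]
      exact hz.2
    · intro z hz z' hz' heq
      have h3 := Prod.mk.inj heq
      rw [← Fin.insertNth_self_removeNth k z, ← Fin.insertNth_self_removeNth k z', h3.1, h3.2]
  have h2 : ((tup s C ×ˢ C).filter fun p => Q (k.insertNth p.2 p.1)).card =
      ∑ z' ∈ tup s C, (C.filter fun y => Q (k.insertNth y z')).card := by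
    rw [Finset.card_filter, Finset.sum_product]
    refine Finset.sum_congr rfl fun z' _ => ?_
    rw [Finset.card_filter]
  have h3 : (((tup (s + 1) C).filter Q).card : ℝ) ≤
      ∑ z' ∈ tup s C, ((C.filter fun y => Q (k.insertNth y z')).card : ℝ) := by
    rw [h2] at h1
    exact_mod_cast h1
  refine h3.trans ?_
  have h4 : ∀ z' ∈ tup s C, ((C.filter fun y => Q (k.insertNth y z')).card : ℝ) ≤
      (if Bad z' then (C.card : ℝ) else 0) + M := by
    intro z' hz'
    by_cases hb : Bad z'
    · rw [if_pos hb]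
      have : (C.filter fun y => Q (k.insertNth y z')).card ≤ C.card :=
        Finset.card_le_card (Finset.filter_subset _ _)
      have : ((C.filter fun y => Q (k.insertNth y z')).card : ℝ) ≤ C.card := by
        exact_mod_cast this
      linarith
    · rw [if_neg hb, zero_add]
      exact h z' hz' hb
  refine (Finset.sum_le_sum h4).trans ?_
  rw [Finset.sum_add_distrib, Finset.sum_const, card_tup, nsmul_eq_mul]
  push_cast
  refine add_le_add (le_of_eq ?_) le_rfl
  rw [← Finset.sum_filter, Finset.sum_const, nsmul_eq_mul]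

lemma insertNth_coord {n s : ℕ} (k : Fin (s + 1)) (y : Fin n → K) (z : Fin s → Fin n → K)
    (i : Fin n) : (fun j => (k.insertNth y z : Fin (s + 1) → Fin n → K) j i) =
      k.insertNth (y i) fun j => z j i := by
  funext j
  rcases Fin.eq_self_or_eq_succAbove k j with h | ⟨l, h⟩
  · subst h; simp
  · subst h; simp

end Pool.Agent.Q257.PC
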