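import Mathlib
import Pool.Agent.Q257.PC.Rob

set_option autoImplicit false
set_option linter.unusedSectionVars false

/-!
# Typical tuples of words of a nearly optimal code
-/

open Finset Function Filter Topology

namespace Pool.Agent.Q257.PC

lemma two_pow_mul {a b x y : ℝ} (h : a + b ≤ x) (hy : (2 : ℝ) ^ b ≤ y) :
    (2 : ℝ) ^ a ≤ (2 : ℝ) ^ (x - 2 * b) * y := by
  have h1 : (2 : ℝ) ^ a ≤ (2 : ℝ) ^ (x - 2 * b) * (2 : ℝ) ^ b := by
    rw [← Real.rpow_add (by norm_num)]
    exact Real.rpow_le_rpow_of_exponent_le (by norm_num) (by linarith)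
  exact h1.trans (mul_le_mul_of_nonneg_left hy (by positivity))

open Classical in
/-- few words of a nearly optimal code are nearly determined on many coordinates -/
lemma few_nearby {δ ρ lam c1 κ η0' η0'' : ℝ} (hδ : 0 < δ) (hR : 0 < R δ) (hlam0 : 0 < lam)
    (hlam : lam = R δ * η0' / 8) (hη0' : 0 < η0') (hρ : ρ = R δ + lam) (hκ2 : κ ≤ lam)
    (hA : ∀ x d : ℕ, δ * x ≤ d → Real.logb 2 (A x d) ≤ ρ * x + c1) {n : ℕ} (hnr : (1 : ℝ) ≤ n)
    (hball : ((univ.filter fun w : Fin n → K => (hammingNorm w : ℝ) ≤ η0'' * n).card : ℝ) ≤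
      (2 : ℝ) ^ (lam * n)) (hnc : c1 ≤ lam * n) {C : Finset (Fin n → K)}
    (hC : Far ⌈δ * n⌉₊ C) (hlog : (R δ - κ) * n ≤ Real.logb 2 C.card) (hCpos : 0 < C.card)
    (Q : Fin n → Prop) (a : Fin n → K) (hQ : η0' * n ≤ (univ.filter fun i => Q i).card) :
    ((C.filter fun y => ((univ.filter fun i => Q i ∧ y i ≠ a i).card : ℝ) ≤ η0'' * n).card : ℝ) ≤
      (2 : ℝ) ^ (-(4 * lam * n)) * C.card := by
  have hρ0 : 0 ≤ ρ := by linarith
  have hnear := nearby hC Q a (η0'' * n)
  have h1 : ((C.filter fun y => ((univ.filter fun i => Q i ∧ y i ≠ a i).card : ℝ) ≤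
      η0'' * n).card : ℝ) ≤
      ((univ.filter fun w : Fin n → K => (hammingNorm w : ℝ) ≤ η0'' * n).card : ℝ) *
        A (univ.filter fun i => ¬ Q i).card ⌈δ * n⌉₊ := by
    exact_mod_cast hnear
  refine h1.trans ?_
  have hcomp := Finset.card_filter_add_card_filter_not (s := (univ : Finset (Fin n)))
    (fun i => Q i)
  rw [Finset.card_univ, Fintype.card_fin] at hcomp
  generalize (univ.filter fun i => Q i).card = u at *
  generalize (univ.filter fun i => ¬ Q i).card = v at *
  have hcomp' : (u : ℝ) + v = n := by exact_mod_cast hcomp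
  have hv0 : (0 : ℝ) ≤ v := by positivity
  have hu0 : (0 : ℝ) ≤ u := by positivity
  have hvd : δ * v ≤ (⌈δ * n⌉₊ : ℝ) := by
    have := Nat.le_ceil (δ * n)
    nlinarith
  have hAv := le_rpow_of_logb (hA v _ hvd)
  have h2 : (2 : ℝ) ^ (ρ * v + c1) ≤ (2 : ℝ) ^ ((R δ - 6 * lam) * n) := by
    refine Real.rpow_le_rpow_of_exponent_le (by norm_num) ?_
    have h3 : ρ * v ≤ ρ * (n - η0' * n) := mul_le_mul_of_nonneg_left (by linarith) hρ0
    have h4 : R δ * (η0' * n) = 8 * (lam * n) := by rw [hlam]; ring
    have h5 : 0 ≤ lam * (η0' * n) := by positivity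
    have h6 : ρ * (n - η0' * n) = R δ * n + lam * n - R δ * (η0' * n) - lam * (η0' * n) := by
      rw [hρ]; ring
    linarith
  have h3 : (2 : ℝ) ^ ((R δ - κ) * n) ≤ C.card := rpow_le_of_logb hCpos hlog
  have hκn : κ * n ≤ lam * n := mul_le_mul_of_nonneg_right hκ2 (by linarith)
  calc ((univ.filter fun w : Fin n → K => (hammingNorm w : ℝ) ≤ η0'' * n).card : ℝ) *
        A v ⌈δ * n⌉₊ ≤ (2 : ℝ) ^ (lam * n) * (2 : ℝ) ^ ((R δ - 6 * lam) * n) :=
        mul_le_mul hball (hAv.trans h2) (by positivity) (by positivity)
    _ = (2 : ℝ) ^ ((R δ - 5 * lam) * n) := by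
        rw [← Real.rpow_add (by norm_num)]
        congr 1
        ring
    _ ≤ (2 : ℝ) ^ (-(4 * lam * n) + (R δ - κ) * n) := by
        refine Real.rpow_le_rpow_of_exponent_le (by norm_num) ?_
        linarith
    _ = (2 : ℝ) ^ (-(4 * lam * n)) * (2 : ℝ) ^ ((R δ - κ) * n) :=
        Real.rpow_add (by norm_num) _ _
    _ ≤ (2 : ℝ) ^ (-(4 * lam * n)) * C.card :=
        mul_le_mul_of_nonneg_left h3 (by positivity)

open Classical in
/-- Coordinatewise functions which are not zero in many coordinates are seldom small on tuples of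
words of a nearly optimal code. -/
lemma typical {δ : ℝ} (hδ : 0 < δ) (hδ1 : δ < 1 / 2) : ∀ (s : ℕ) (η1 : ℝ), 0 < η1 →
    ∃ η0 : ℝ, 0 < η0 ∧ ∃ κ : ℝ, 0 < κ ∧ ∃ n0 : ℕ, ∀ n ≥ n0, ∀ C : Finset (Fin n → K),
      Far ⌈δ * n⌉₊ C → (R δ - κ) * n ≤ Real.logb 2 C.card → 0 < C.card →
      ∀ g : Fin n → (Fin s → K) → K, η1 * n ≤ (univ.filter fun i => ∃ w, g i w ≠ 0).card →
        (((tup s C).filter fun z =>
          ((univ.filter fun i => g i (fun k => z k i) ≠ 0).card : ℝ) < η0 * n).card : ℝ) ≤
            (2 : ℝ) ^ (-(κ * n)) * (C.card : ℝ) ^ s := by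
  have hR := R_pos hδ hδ1
  intro s
  induction s with
  | zero =>
    intro η1 hη1
    refine ⟨η1, hη1, 1, one_pos, 0, ?_⟩
    intro n _ C _ _ _ g hg
    have h1 : (tup 0 C).filter (fun z =>
        ((univ.filter fun i => g i (fun k => z k i) ≠ 0).card : ℝ) < η1 * n) = ∅ := by
      rw [Finset.filter_eq_empty_iff]
      intro z _
      rw [not_lt]
      refine hg.trans (le_of_eq ?_)
      congr 2
      refine Finset.filter_congr fun i _ => ?_
      constructor
      · rintro ⟨w, hw⟩
        rwa [Subsingleton.elim (fun k => z k i) w]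
      · intro hw
        exact ⟨_, hw⟩
    rw [h1, Finset.card_empty, Nat.cast_zero]
    positivity
  | succ s ih =>
    intro η1 hη1
    obtain ⟨η0', hη0', κ', hκ', n0', hIH⟩ := ih (η1 / 2) (by linarith)
    obtain ⟨lam, hlam⟩ : ∃ lam : ℝ, lam = R δ * η0' / 8 := ⟨_, rfl⟩
    have hlam0 : 0 < lam := by rw [hlam]; positivity
    obtain ⟨η0'', hη0'', hball⟩ := ball hlam0
    obtain ⟨ρ, hρ⟩ : ∃ ρ, ρ = R δ + lam := ⟨_, rfl⟩
    have hρ0 : 0 ≤ ρ := by linarith
    obtain ⟨c1, hc1, hA⟩ := log_bound A one_le_A A_le_pow (fun n d d' h => A_anti h) (δ := δ)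
      (ρ := ρ) hρ0 (by
        have : R δ < ρ := by linarith
        exact this)
    obtain ⟨κ, hκ⟩ : ∃ κ : ℝ, κ = min (κ' / 2) lam := ⟨_, rfl⟩
    have hκ0 : 0 < κ := by rw [hκ]; exact lt_min (by linarith) hlam0
    have hκ1 : κ ≤ κ' / 2 := by rw [hκ]; exact min_le_left _ _
    have hκ2 : κ ≤ lam := by rw [hκ]; exact min_le_right _ _
    refine ⟨min η0' η0'', lt_min hη0' hη0'', κ, hκ0, max (max 1 n0') (max ⌈c1 / lam⌉₊ ⌈1 / κ⌉₊),
      ?_⟩
    intro n hn C hC hlog hCpos g hg
    have hn1 : 1 ≤ n := (le_max_left _ _).trans ((le_max_left _ _).trans hn)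
    have hn0' : n0' ≤ n := (le_max_right _ _).trans ((le_max_left _ _).trans hn)
    have hnr : (1 : ℝ) ≤ n := by exact_mod_cast hn1
    have hnc : c1 ≤ lam * n := by
      have h1 : c1 / lam ≤ n := (Nat.le_ceil _).trans
        (by exact_mod_cast (le_max_left _ _).trans ((le_max_right _ _).trans hn))
      rw [div_le_iff₀ hlam0] at h1
      linarith
    have hnk : 1 ≤ κ * n := by
      have h1 : 1 / κ ≤ n := (Nat.le_ceil _).trans
        (by exact_mod_cast (le_max_right _ _).trans ((le_max_right _ _).trans hn))
      rw [div_le_iff₀ hκ0] at h1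
      linarith
    have hlog' : (R δ - κ') * n ≤ Real.logb 2 C.card := by
      have : (R δ - κ') * n ≤ (R δ - κ) * n :=
        mul_le_mul_of_nonneg_right (by linarith) (by linarith)
      linarith
    have hCr : (0 : ℝ) < C.card := by exact_mod_cast hCpos
    have hCs : (0 : ℝ) < (C.card : ℝ) ^ s := by positivity
    -- the two functions
    set h : Fin n → (Fin s → K) → K := fun i w =>
      g i (Fin.insertNth 0 0 w) + g i (Fin.insertNth 0 1 w) with hh
    set g' : Fin n → (Fin s → K) → K := fun i w =>
      if ∀ w', h i w' = 0 then g i (Fin.insertNth 0 0 w) else 0 with hg'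
    have hsplit : (univ.filter fun i => ∃ w, g i w ≠ 0).card ≤
        (univ.filter fun i => ∃ w, h i w ≠ 0).card +
          (univ.filter fun i => ∃ w, g' i w ≠ 0).card := by
      refine le_trans (Finset.card_le_card ?_) (Finset.card_union_le _ _)
      intro i hi
      rw [Finset.mem_filter] at hi
      rw [Finset.mem_union, Finset.mem_filter, Finset.mem_filter]
      by_cases hz : ∀ w', h i w' = 0
      · right
        refine ⟨Finset.mem_univ _, ?_⟩
        obtain ⟨w, hw⟩ := hi.2
        refine ⟨Fin.removeNth 0 w, ?_⟩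
        rw [hg']
        simp only [hz, implies_true, if_true]
        have h1 : (Fin.insertNth 0 (w 0) (Fin.removeNth 0 w) : Fin (s + 1) → K) = w :=
          Fin.insertNth_self_removeNth 0 w
        rcases two_values (w 0) with h0 | h0
        · rw [h0] at h1
          rw [h1]
          exact hw
        · rw [h0] at h1
          have h2 := hz (Fin.removeNth 0 w)
          rw [hh] at h2
          simp only at h2
          rw [h1] at h2
          rw [add_eq_zero_iff'.1 h2]
          exact hw
      · left
        push Not at hz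
        exact ⟨Finset.mem_univ _, hz⟩
    have hsplit' : η1 * n ≤ ((univ.filter fun i => ∃ w, h i w ≠ 0).card : ℝ) +
        (univ.filter fun i => ∃ w, g' i w ≠ 0).card := by
      refine hg.trans ?_
      exact_mod_cast hsplit
    have hfin : ∀ x : ℝ, 0 ≤ x → x ≤ (2 : ℝ) ^ (-(4 * lam * n)) * C.card →
        (2 : ℝ) ^ (-(κ' * n)) * (C.card : ℝ) ^ s * C.card + (C.card : ℝ) ^ s * x ≤
          (2 : ℝ) ^ (-(κ * n)) * (C.card : ℝ) ^ (s + 1) := by
      intro x hx0 hx
      have e1 : (2 : ℝ) ^ (-(κ' * n)) ≤ (2 : ℝ) ^ (-(κ * n)) / 2 := by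
        rw [le_div_iff₀ (by norm_num)]
        have : (2 : ℝ) ^ (-(κ' * n)) * 2 = (2 : ℝ) ^ (-(κ' * n) + 1) := by
          rw [Real.rpow_add (by norm_num), Real.rpow_one]
        rw [this]
        refine Real.rpow_le_rpow_of_exponent_le (by norm_num) ?_
        nlinarith
      have e2 : (2 : ℝ) ^ (-(4 * lam * n)) ≤ (2 : ℝ) ^ (-(κ * n)) / 2 := by
        rw [le_div_iff₀ (by norm_num)]
        have : (2 : ℝ) ^ (-(4 * lam * n)) * 2 = (2 : ℝ) ^ (-(4 * lam * n) + 1) := by
          rw [Real.rpow_add (by norm_num), Real.rpow_one]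
        rw [this]
        refine Real.rpow_le_rpow_of_exponent_le (by norm_num) ?_
        nlinarith
      have e3 : (2 : ℝ) ^ (-(κ' * n)) * (C.card : ℝ) ^ s * C.card ≤
          (2 : ℝ) ^ (-(κ * n)) / 2 * ((C.card : ℝ) ^ s * C.card) := by
        rw [mul_assoc]
        exact mul_le_mul_of_nonneg_right e1 (by positivity)
      have e4 : (C.card : ℝ) ^ s * x ≤ (2 : ℝ) ^ (-(κ * n)) / 2 * ((C.card : ℝ) ^ s * C.card) := by
        calc (C.card : ℝ) ^ s * x ≤ (C.card : ℝ) ^ s * ((2 : ℝ) ^ (-(4 * lam * n)) * C.card) :=
              mul_le_mul_of_nonneg_left hx hCs.le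
          _ = (2 : ℝ) ^ (-(4 * lam * n)) * ((C.card : ℝ) ^ s * C.card) := by ring
          _ ≤ _ := mul_le_mul_of_nonneg_right e2 (by positivity)
      rw [pow_succ]
      linarith
    by_cases hcase : η1 / 2 * n ≤ (univ.filter fun i => ∃ w, h i w ≠ 0).card
    · -- many coordinates where the first argument matters
      have hbad := hIH n hn0' C hC hlog' hCpos h hcase
      have hM : ∀ z' ∈ tup s C, ¬ (((univ.filter fun i => h i (fun k => z' k i) ≠ 0).card : ℝ) <
          η0' * n) → ((C.filter fun y => ((univ.filter fun i =>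
            g i (fun k => (Fin.insertNth 0 y z' : Fin (s + 1) → Fin n → K) k i) ≠ 0).card : ℝ) <
              min η0' η0'' * n).card : ℝ) ≤ (2 : ℝ) ^ (-(4 * lam * n)) * C.card := by
        intro z' _ hz'
        rw [not_lt] at hz'
        obtain ⟨Q, hQ⟩ : ∃ Q : Fin n → Prop, ∀ i, Q i ↔ h i (fun k => z' k i) ≠ 0 :=
          ⟨_, fun i => Iff.rfl⟩
        have hQcard : η0' * n ≤ (univ.filter fun i => Q i).card := by
          refine hz'.trans (le_of_eq ?_)
          congr 2
          exact Finset.filter_congr fun i _ => (hQ i).symm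
        have hfew := few_nearby hδ hR hlam0 hlam hη0' hρ hκ2 hA hnr (hball n) hnc hC hlog hCpos Q
          (fun i => g i (Fin.insertNth 0 0 fun k => z' k i)) hQcard
        refine le_trans ?_ hfew
        have hsub : (C.filter fun y => ((univ.filter fun i =>
            g i (fun k => (Fin.insertNth 0 y z' : Fin (s + 1) → Fin n → K) k i) ≠ 0).card : ℝ) <
              min η0' η0'' * n).card ≤
            (C.filter fun y => ((univ.filter fun i => Q i ∧
              y i ≠ g i (Fin.insertNth 0 0 fun k => z' k i)).card : ℝ) ≤ η0'' * n).card := by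
          apply Finset.card_le_card
          intro y hy
          rw [Finset.mem_filter] at hy ⊢
          refine ⟨hy.1, ?_⟩
          have h1 : (univ.filter fun i => Q i ∧
              y i ≠ g i (Fin.insertNth 0 0 fun k => z' k i)).card ≤
              (univ.filter fun i =>
                g i (fun k => (Fin.insertNth 0 y z' : Fin (s + 1) → Fin n → K) k i) ≠ 0).card := by
            apply Finset.card_le_card
            intro i hi
            rw [Finset.mem_filter] at hi ⊢
            refine ⟨hi.1, ?_⟩
            rw [insertNth_coord]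
            have h2 := (hQ i).1 hi.2.1
            rw [hh] at h2
            simp only at h2
            have h3 := hi.2.2
            revert h2 h3
            rcases two_values (y i) with h0 | h0
            · rw [h0]
              generalize g i (Fin.insertNth 0 0 fun k => z' k i) = a
              generalize g i (Fin.insertNth 0 1 fun k => z' k i) = b
              revert a b
              decide
            · rw [h0]
              generalize g i (Fin.insertNth 0 0 fun k => z' k i) = a
              generalize g i (Fin.insertNth 0 1 fun k => z' k i) = b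
              revert a b
              decide
          have h2 : ((univ.filter fun i => Q i ∧
              y i ≠ g i (Fin.insertNth 0 0 fun k => z' k i)).card : ℝ) ≤
              (univ.filter fun i =>
                g i (fun k => (Fin.insertNth 0 y z' : Fin (s + 1) → Fin n → K) k i) ≠ 0).card :=
            Nat.cast_le.2 h1
          have h3 : min η0' η0'' * n ≤ η0'' * n :=
            mul_le_mul_of_nonneg_right (min_le_right _ _) (by linarith)
          exact h2.trans (hy.2.le.trans h3)
        exact Nat.cast_le.2 hsub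
      refine (fib 0 _ (fun z' => ((univ.filter fun i => h i (fun k => z' k i) ≠ 0).card : ℝ) <
          η0' * n) (by positivity) hM).trans ?_
      refine le_trans ?_ (hfin _ (by positivity) le_rfl)
      exact add_le_add (mul_le_mul_of_nonneg_right hbad hCr.le) le_rfl
    · -- many coordinates where the first argument does not matter
      have hcase' : η1 / 2 * n ≤ (univ.filter fun i => ∃ w, g' i w ≠ 0).card := by
        push Not at hcase
        linarith
      have hbad := hIH n hn0' C hC hlog' hCpos g' hcase'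
      have hM : ∀ z' ∈ tup s C, ¬ (((univ.filter fun i => g' i (fun k => z' k i) ≠ 0).card : ℝ) <
          η0' * n) → ((C.filter fun y => ((univ.filter fun i =>
            g i (fun k => (Fin.insertNth 0 y z' : Fin (s + 1) → Fin n → K) k i) ≠ 0).card : ℝ) <
              min η0' η0'' * n).card : ℝ) ≤ 0 := by
        intro z' _ hz'
        rw [not_lt] at hz'
        have h0 : (C.filter fun y => ((univ.filter fun i =>
            g i (fun k => (Fin.insertNth 0 y z' : Fin (s + 1) → Fin n → K) k i) ≠ 0).card : ℝ) <
              min η0' η0'' * n) = ∅ := by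
          rw [Finset.filter_eq_empty_iff]
          intro y _
          rw [not_lt]
          have h1 : (univ.filter fun i => g' i (fun k => z' k i) ≠ 0).card ≤
              (univ.filter fun i =>
                g i (fun k => (Fin.insertNth 0 y z' : Fin (s + 1) → Fin n → K) k i) ≠ 0).card := by
            apply Finset.card_le_card
            intro i hi
            rw [Finset.mem_filter] at hi ⊢
            refine ⟨hi.1, ?_⟩
            rw [insertNth_coord]
            have h2 := hi.2
            rw [hg'] at h2
            simp only at h2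
            by_cases hz : ∀ w', h i w' = 0
            · rw [if_pos hz] at h2
              rcases two_values (y i) with h0 | h0
              · rw [h0]; exact h2
              · rw [h0]
                have h3 := hz (fun k => z' k i)
                rw [hh] at h3
                simp only at h3
                rw [← add_eq_zero_iff'.1 h3]
                exact h2
            · rw [if_neg hz] at h2
              exact absurd rfl h2
          have h2 : ((univ.filter fun i => g' i (fun k => z' k i) ≠ 0).card : ℝ) ≤
              (univ.filter fun i =>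
                g i (fun k => (Fin.insertNth 0 y z' : Fin (s + 1) → Fin n → K) k i) ≠ 0).card := by
            exact_mod_cast h1
          have h3 : min η0' η0'' * n ≤ η0' * n :=
            mul_le_mul_of_nonneg_right (min_le_left _ _) (by linarith)
          linarith
        rw [h0, Finset.card_empty, Nat.cast_zero]
      refine (fib 0 _ (fun z' => ((univ.filter fun i => g' i (fun k => z' k i) ≠ 0).card : ℝ) <
          η0' * n) le_rfl hM).trans ?_
      refine le_trans ?_ (hfin 0 le_rfl (by positivity))
      exact add_le_add (mul_le_mul_of_nonneg_right hbad hCr.le) le_rfl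

end Pool.Agent.Q257.PC
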