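import Mathlib
import Pool.Agent.Q257.PC.Typical

set_option autoImplicit false
set_option linter.unusedSectionVars false

/-!
# Operations which often lead back to a nearly optimal code
-/

open Finset Function Filter Topology

namespace Pool.Agent.Q257.PC

lemma form_of_der {r : ℕ} {f : (Fin r → K) → K} {a : Fin r → K}
    (h : ∀ k w, der f k w = a k) : ∀ z, f z = f 0 + ∑ k, a k * z k := by
  classical
  have key : ∀ w : Fin r → K, ∀ s : Finset (Fin r),
      f (s.piecewise w 0) = f 0 + ∑ k ∈ s, a k * w k := by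
    intro w s
    induction s using Finset.induction_on with
    | empty => simp
    | insert k s hk ih =>
      rw [Finset.piecewise_insert, Finset.sum_insert hk]
      have e0 : update (s.piecewise w 0) k 0 = s.piecewise w 0 := by
        funext j
        by_cases hj : j = k
        · subst hj; simp [hk]
        · simp [hj]
      rcases two_values (w k) with h0 | h0
      · rw [h0, e0, ih]; ring
      · rw [h0]
        have h1 := h k (s.piecewise w 0)
        unfold der at h1
        rw [e0, ih] at h1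
        have h3 : ∀ a b c : K, a + b = c → b = a + c := by decide
        rw [h3 _ _ _ h1]
        ring
  intro z
  have h1 := key z Finset.univ
  simpa using h1

open Classical in
/-- the number of words `y` for which an operation leads back to the code -/
lemma few_return {δ ρ lam c κ μ : ℝ} (hδ : 0 < δ) (hR : 0 < R δ) (hlam0 : 0 < lam)
    (hμ : 0 < μ) (hμδ : μ ≤ δ) (hlam : lam = R δ * μ / 8) (hρ : ρ = R δ + lam) (hκ2 : κ ≤ lam)
    (hc : 0 ≤ c) (hA : ∀ x d : ℕ, δ * x ≤ d → Real.logb 2 (A x d) ≤ ρ * x + c) {n : ℕ}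
    (hnr : (1 : ℝ) ≤ n) (hnc : 2 * c + 2 * ρ ≤ lam * n) {C : Finset (Fin n → K)}
    (hC : Far ⌈δ * n⌉₊ C) (hlog : (R δ - κ) * n ≤ Real.logb 2 C.card) (hCpos : 0 < C.card)
    (φ : Fin n → K → K) (h1 : μ * n ≤ (univ.filter fun i => Perm φ i).card)
    (h2 : μ * n ≤ (univ.filter fun i => ¬ Perm φ i).card) :
    ((C.filter fun y => ap φ y ∈ C).card : ℝ) ≤ (2 : ℝ) ^ (-(5 * lam * n)) * C.card := by
  have hρ0 : 0 ≤ ρ := by linarith
  have hcount := unary_count hC φ
  have hsum := Finset.card_filter_add_card_filter_not (s := (univ : Finset (Fin n)))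
      (fun i => Perm φ i)
  rw [Finset.card_univ, Fintype.card_fin] at hsum
  generalize (univ.filter fun i => Perm φ i).card = u at *
  generalize (univ.filter fun i => ¬ Perm φ i).card = v at *
  have hb : (C.filter fun y => ap φ y ∈ C).card ≤
      2 ^ 0 * 1 * (A u ⌈δ * n⌉₊ * A v ⌈δ * n⌉₊) := by simpa using hcount
  have hb3 := log_card hb le_rfl (one_le_A _ _) (one_le_A _ _)
  have h3 := pair_bound hδ hρ0 hc hA (n := n) (u := u) (v := v) (d := ⌈δ * n⌉₊) (by omega)
    (Nat.le_ceil _)
  have hsum' : (u : ℝ) + v = n := by exact_mod_cast hsum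
  have h4 : μ * n ≤ min (min (u : ℝ) v) (δ * n) :=
    le_min (le_min h1 h2) (mul_le_mul_of_nonneg_right hμδ (by linarith))
  have h5 : Real.logb 2 ((C.filter fun y => ap φ y ∈ C).card : ℕ) ≤ (R δ - 6 * lam) * n := by
    have h6 : ρ * ((u : ℝ) + v - min (min (u : ℝ) v) (δ * n)) ≤ ρ * (n - μ * n) :=
      mul_le_mul_of_nonneg_left (by linarith) hρ0
    have h7 : R δ * (μ * n) = 8 * (lam * n) := by rw [hlam]; ring
    have h8 : ρ * (n - μ * n) = R δ * n + lam * n - R δ * (μ * n) - lam * (μ * n) := by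
      rw [hρ]; ring
    have h9 : 0 ≤ lam * (μ * n) := by positivity
    simp only [Nat.cast_zero, Nat.cast_one, Real.logb_one, zero_add] at hb3
    linarith
  refine (le_rpow_of_logb h5).trans ?_
  have h6 : (2 : ℝ) ^ ((R δ - κ) * n) ≤ C.card := rpow_le_of_logb hCpos hlog
  have hκn : κ * n ≤ lam * n := mul_le_mul_of_nonneg_right hκ2 (by linarith)
  calc (2 : ℝ) ^ ((R δ - 6 * lam) * n) ≤ (2 : ℝ) ^ (-(5 * lam * n) + (R δ - κ) * n) := by
        refine Real.rpow_le_rpow_of_exponent_le (by norm_num) ?_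
        linarith
    _ = (2 : ℝ) ^ (-(5 * lam * n)) * (2 : ℝ) ^ ((R δ - κ) * n) :=
        Real.rpow_add (by norm_num) _ _
    _ ≤ (2 : ℝ) ^ (-(5 * lam * n)) * C.card := mul_le_mul_of_nonneg_left h6 (by positivity)

open Classical in
/-- Operations which often lead back to a nearly optimal code are sums of some of their
arguments, up to few coordinates. -/
theorem approx {δ η : ℝ} (hδ : 0 < δ) (hδ1 : δ < 1 / 2) (hη : 0 < η) (r : ℕ) :
    ∃ κ : ℝ, 0 < κ ∧ ∃ n0 : ℕ, ∀ n ≥ n0, ∀ C : Finset (Fin n → K),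
      Far ⌈δ * n⌉₊ C → (R δ - κ) * n ≤ Real.logb 2 C.card → ∀ F : Fin n → (Fin r → K) → K,
      (2 : ℝ) ^ (-(κ * n)) * (C.card : ℝ) ^ r ≤
        ((tup r C).filter fun z => (fun i => F i fun k => z k i) ∈ C).card →
      ∃ I : Finset (Fin r), (1 - η) * n ≤
        (univ.filter fun i => ∃ b, ∀ z, F i z = b + ∑ k ∈ I, z k).card := by
  have hR := R_pos hδ hδ1
  rcases Nat.eq_zero_or_pos r with hr | hr
  · subst hr
    refine ⟨1, one_pos, 0, fun n _ C _ _ F _ => ⟨∅, ?_⟩⟩
    have h1 : (univ.filter fun i => ∃ b, ∀ z : Fin 0 → K, F i z = b + ∑ k ∈ (∅ : Finset (Fin 0)),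
        z k) = univ := by
      rw [Finset.filter_true_of_mem]
      intro i _
      refine ⟨F i 0, fun z => ?_⟩
      rw [Subsingleton.elim z 0]
      simp
    rw [h1, Finset.card_univ, Fintype.card_fin]
    have : (0 : ℝ) ≤ n := by positivity
    nlinarith
  obtain ⟨s, rfl⟩ : ∃ s, r = s + 1 := ⟨r - 1, by omega⟩
  obtain ⟨η1, hη1⟩ : ∃ η1 : ℝ, η1 = η / (s + 1) := ⟨_, rfl⟩
  have hη10 : 0 < η1 := by rw [hη1]; positivity
  obtain ⟨η0, hη0, κ1, hκ1, n1, htyp⟩ := typical hδ hδ1 s η1 hη10
  obtain ⟨μ, hμ⟩ : ∃ μ : ℝ, μ = min η0 δ := ⟨_, rfl⟩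
  have hμ0 : 0 < μ := by rw [hμ]; exact lt_min hη0 hδ
  have hμδ : μ ≤ δ := by rw [hμ]; exact min_le_right _ _
  have hμη : μ ≤ η0 := by rw [hμ]; exact min_le_left _ _
  obtain ⟨lam, hlam⟩ : ∃ lam : ℝ, lam = R δ * μ / 8 := ⟨_, rfl⟩
  have hlam0 : 0 < lam := by rw [hlam]; positivity
  obtain ⟨ρ, hρ⟩ : ∃ ρ, ρ = R δ + lam := ⟨_, rfl⟩
  have hρ0 : 0 ≤ ρ := by linarith
  obtain ⟨c, hc, hA⟩ := log_bound A one_le_A A_le_pow (fun n d d' h => A_anti h) (δ := δ)
    (ρ := ρ) hρ0 (by
      have : R δ < ρ := by linarith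
      exact this)
  obtain ⟨κ, hκ⟩ : ∃ κ : ℝ, κ = min (min (κ1 / 4) lam) (R δ / 2) := ⟨_, rfl⟩
  have hκ0 : 0 < κ := by
    rw [hκ]; exact lt_min (lt_min (by linarith) hlam0) (by linarith)
  have hκ1' : κ ≤ κ1 / 4 := by rw [hκ]; exact (min_le_left _ _).trans (min_le_left _ _)
  have hκ2 : κ ≤ lam := by rw [hκ]; exact (min_le_left _ _).trans (min_le_right _ _)
  have hκR : κ ≤ R δ / 2 := by rw [hκ]; exact min_le_right _ _
  refine ⟨κ, hκ0, max (max 1 n1) (max ⌈(2 * c + 2 * ρ) / lam⌉₊ ⌈1 / κ⌉₊), ?_⟩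
  intro n hn C hC hlog F hF
  have hn1 : 1 ≤ n := (le_max_left _ _).trans ((le_max_left _ _).trans hn)
  have hn1' : n1 ≤ n := (le_max_right _ _).trans ((le_max_left _ _).trans hn)
  have hnr : (1 : ℝ) ≤ n := by exact_mod_cast hn1
  have hnc : 2 * c + 2 * ρ ≤ lam * n := by
    have h1 : (2 * c + 2 * ρ) / lam ≤ n := (Nat.le_ceil _).trans
      (by exact_mod_cast (le_max_left _ _).trans ((le_max_right _ _).trans hn))
    rw [div_le_iff₀ hlam0] at h1
    linarith
  have hnk : 1 ≤ κ * n := by
    have h1 : 1 / κ ≤ n := (Nat.le_ceil _).trans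
      (by exact_mod_cast (le_max_right _ _).trans ((le_max_right _ _).trans hn))
    rw [div_le_iff₀ hκ0] at h1
    linarith
  have hCpos : 0 < C.card := by
    rcases Nat.eq_zero_or_pos C.card with h0 | h0
    · rw [h0] at hlog
      simp only [Nat.cast_zero, Real.logb_zero] at hlog
      have : 0 < (R δ - κ) * n := mul_pos (by linarith) (by linarith)
      linarith
    · exact h0
  have hCr : (0 : ℝ) < C.card := by exact_mod_cast hCpos
  have hCs : (0 : ℝ) < (C.card : ℝ) ^ s := by positivity
  have hlog1 : (R δ - κ1) * n ≤ Real.logb 2 C.card := by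
    have : (R δ - κ1) * n ≤ (R δ - κ) * n :=
      mul_le_mul_of_nonneg_right (by linarith) (by linarith)
    linarith
  set G : Fin (s + 1) → Fin n → (Fin s → K) → K := fun k i w =>
    F i (k.insertNth 0 w) + F i (k.insertNth 1 w) with hG
  -- each argument is nearly never or nearly always used
  have hdich : ∀ k, ((univ.filter fun i => ∃ w, G k i w ≠ 0).card : ℝ) < η1 * n ∨
      ((univ.filter fun i => ∃ w, G k i w + 1 ≠ 0).card : ℝ) < η1 * n := by
    intro k
    by_contra hcon
    push Not at hcon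
    obtain ⟨hc1, hc2⟩ := hcon
    have hb1 := htyp n hn1' C hC hlog1 hCpos (G k) hc1
    have hb2 := htyp n hn1' C hC hlog1 hCpos (fun i w => G k i w + 1) hc2
    obtain ⟨Bad, hBad⟩ : ∃ Bad : (Fin s → Fin n → K) → Prop, ∀ z', Bad z' ↔
        (((univ.filter fun i => G k i (fun j => z' j i) ≠ 0).card : ℝ) < η0 * n ∨
        ((univ.filter fun i => G k i (fun j => z' j i) + 1 ≠ 0).card : ℝ) < η0 * n) :=
      ⟨_, fun z' => Iff.rfl⟩
    have hbadcard : (((tup s C).filter Bad).card : ℝ) ≤
        2 * ((2 : ℝ) ^ (-(κ1 * n)) * (C.card : ℝ) ^ s) := by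
      have h1 : ((tup s C).filter Bad).card ≤
          ((tup s C).filter fun z' =>
            ((univ.filter fun i => G k i (fun j => z' j i) ≠ 0).card : ℝ) < η0 * n).card +
          ((tup s C).filter fun z' =>
            ((univ.filter fun i => G k i (fun j => z' j i) + 1 ≠ 0).card : ℝ) < η0 * n).card := by
        refine le_trans (Finset.card_le_card ?_) (Finset.card_union_le _ _)
        intro z' hz'
        rw [Finset.mem_filter, hBad] at hz'
        rw [Finset.mem_union, Finset.mem_filter, Finset.mem_filter]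
        rcases hz'.2 with h | h
        · exact Or.inl ⟨hz'.1, h⟩
        · exact Or.inr ⟨hz'.1, h⟩
      have h2 : (((tup s C).filter Bad).card : ℝ) ≤
          (((tup s C).filter fun z' =>
            ((univ.filter fun i => G k i (fun j => z' j i) ≠ 0).card : ℝ) < η0 * n).card : ℝ) +
          (((tup s C).filter fun z' =>
            ((univ.filter fun i => G k i (fun j => z' j i) + 1 ≠ 0).card : ℝ) <
              η0 * n).card : ℝ) := by
        have := (Nat.cast_le (α := ℝ)).2 h1
        rwa [Nat.cast_add] at this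
      linarith
    have hM : ∀ z' ∈ tup s C, ¬ Bad z' → ((C.filter fun y =>
        (fun i => F i fun j => (k.insertNth y z' : Fin (s + 1) → Fin n → K) j i) ∈ C).card : ℝ) ≤
          (2 : ℝ) ^ (-(5 * lam * n)) * C.card := by
      intro z' _ hz'
      rw [hBad] at hz'
      push Not at hz'
      have hPerm : ∀ i, Perm (fun i t => F i (k.insertNth t fun j => z' j i)) i ↔
          G k i (fun j => z' j i) ≠ 0 := by
        intro i
        unfold Perm
        rw [hG]
        simp only
        rw [Ne, Ne, add_eq_zero_iff']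
      have hne : ∀ x : K, ¬ x ≠ 0 ↔ x + 1 ≠ 0 := by decide
      have h1 : μ * n ≤ (univ.filter fun i =>
          Perm (fun i t => F i (k.insertNth t fun j => z' j i)) i).card := by
        have h2 : (univ.filter fun i =>
            Perm (fun i t => F i (k.insertNth t fun j => z' j i)) i).card =
            (univ.filter fun i => G k i (fun j => z' j i) ≠ 0).card := by
          congr 1
          exact Finset.filter_congr fun i _ => hPerm i
        rw [h2]
        have h3 : μ * n ≤ η0 * n := mul_le_mul_of_nonneg_right hμη (by linarith)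
        linarith [hz'.1]
      have h1' : μ * n ≤ (univ.filter fun i =>
          ¬ Perm (fun i t => F i (k.insertNth t fun j => z' j i)) i).card := by
        have h2 : (univ.filter fun i =>
            ¬ Perm (fun i t => F i (k.insertNth t fun j => z' j i)) i).card =
            (univ.filter fun i => G k i (fun j => z' j i) + 1 ≠ 0).card := by
          congr 1
          refine Finset.filter_congr fun i _ => ?_
          rw [hPerm i]
          exact hne _
        rw [h2]
        have h3 : μ * n ≤ η0 * n := mul_le_mul_of_nonneg_right hμη (by linarith)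
        linarith [hz'.2]
      have h4 := few_return hδ hR hlam0 hμ0 hμδ hlam hρ hκ2 hc hA hnr hnc hC hlog hCpos _ h1 h1'
      refine le_trans (le_of_eq ?_) h4
      congr 2
      refine Finset.filter_congr fun y _ => ?_
      have h5 : (fun i => F i fun j => (k.insertNth y z' : Fin (s + 1) → Fin n → K) j i) =
          ap (fun i t => F i (k.insertNth t fun j => z' j i)) y := by
        funext i
        rw [insertNth_coord]
        rfl
      rw [h5]
    obtain ⟨Q, hQ⟩ : ∃ Q : (Fin (s + 1) → Fin n → K) → Prop, ∀ z, Q z ↔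
        (fun i => F i fun j => z j i) ∈ C := ⟨_, fun z => Iff.rfl⟩
    have hfib0 := fib (C := C) (M := (2 : ℝ) ^ (-(5 * lam * n)) * C.card) k Q Bad
      (by positivity) (fun z' hz' hb => by
        refine le_trans (le_of_eq ?_) (hM z' hz' hb)
        congr 2
        exact Finset.filter_congr fun y _ => hQ _)
    have hfib : (((tup (s + 1) C).filter fun z => (fun i => F i fun j => z j i) ∈ C).card : ℝ) ≤
        ((tup s C).filter Bad).card * C.card +
          (C.card : ℝ) ^ s * ((2 : ℝ) ^ (-(5 * lam * n)) * C.card) := by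
      refine le_trans (le_of_eq ?_) hfib0
      congr 2
      exact Finset.filter_congr fun y _ => (hQ _).symm
    have hlt : (((tup (s + 1) C).filter fun z => (fun i => F i fun j => z j i) ∈ C).card : ℝ) <
        (2 : ℝ) ^ (-(κ * n)) * (C.card : ℝ) ^ (s + 1) := by
      refine lt_of_le_of_lt hfib ?_
      have e1 : (2 : ℝ) ^ (-(κ1 * n)) ≤ (2 : ℝ) ^ (-(κ * n)) / 8 := by
        rw [le_div_iff₀ (by norm_num)]
        have : (2 : ℝ) ^ (-(κ1 * n)) * 8 = (2 : ℝ) ^ (-(κ1 * n) + 3) := by
          rw [Real.rpow_add (by norm_num)]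
          norm_num
        rw [this]
        refine Real.rpow_le_rpow_of_exponent_le (by norm_num) ?_
        nlinarith
      have e2 : (2 : ℝ) ^ (-(5 * lam * n)) ≤ (2 : ℝ) ^ (-(κ * n)) / 8 := by
        rw [le_div_iff₀ (by norm_num)]
        have : (2 : ℝ) ^ (-(5 * lam * n)) * 8 = (2 : ℝ) ^ (-(5 * lam * n) + 3) := by
          rw [Real.rpow_add (by norm_num)]
          norm_num
        rw [this]
        refine Real.rpow_le_rpow_of_exponent_le (by norm_num) ?_
        nlinarith
      have h2κ : (0 : ℝ) < (2 : ℝ) ^ (-(κ * n)) := by positivity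
      have e3 : (((tup s C).filter Bad).card : ℝ) * C.card ≤
          2 * ((2 : ℝ) ^ (-(κ * n)) / 8 * (C.card : ℝ) ^ s) * C.card := by
        refine mul_le_mul_of_nonneg_right (hbadcard.trans ?_) hCr.le
        exact mul_le_mul_of_nonneg_left (mul_le_mul_of_nonneg_right e1 hCs.le) (by norm_num)
      have e4 : (C.card : ℝ) ^ s * ((2 : ℝ) ^ (-(5 * lam * n)) * C.card) ≤
          (C.card : ℝ) ^ s * ((2 : ℝ) ^ (-(κ * n)) / 8 * C.card) :=
        mul_le_mul_of_nonneg_left (mul_le_mul_of_nonneg_right e2 hCr.le) hCs.le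
      have e5 : 0 < (2 : ℝ) ^ (-(κ * n)) * ((C.card : ℝ) ^ s * C.card) := by positivity
      rw [pow_succ]
      have e6 : 2 * ((2 : ℝ) ^ (-(κ * n)) / 8 * (C.card : ℝ) ^ s) * C.card +
          (C.card : ℝ) ^ s * ((2 : ℝ) ^ (-(κ * n)) / 8 * C.card) =
          3 / 8 * ((2 : ℝ) ^ (-(κ * n)) * ((C.card : ℝ) ^ s * C.card)) := by ring
      linarith
    linarith
  -- the set of the arguments which are used
  refine ⟨univ.filter fun k => ¬ ((univ.filter fun i => ∃ w, G k i w ≠ 0).card : ℝ) < η1 * n,
    ?_⟩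
  set I : Finset (Fin (s + 1)) :=
    univ.filter fun k => ¬ ((univ.filter fun i => ∃ w, G k i w ≠ 0).card : ℝ) < η1 * n with hI
  obtain ⟨E, hE⟩ : ∃ E : Fin (s + 1) → Finset (Fin n), ∀ k, E k =
      univ.filter fun i => ∃ w, G k i w ≠ if k ∈ I then 1 else 0 := ⟨_, fun k => rfl⟩
  have hEcard : ∀ k, ((E k).card : ℝ) ≤ η1 * n := by
    intro k
    by_cases hk : k ∈ I
    · have h1 := (Finset.mem_filter.1 (hI ▸ hk)).2
      have h2 := (hdich k).resolve_left h1
      refine le_trans (le_of_eq ?_) h2.le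
      rw [hE]
      congr 2
      refine Finset.filter_congr fun i _ => ?_
      simp only [hk, if_true]
      refine exists_congr fun w => ?_
      have : ∀ x : K, x ≠ 1 ↔ x + 1 ≠ 0 := by decide
      exact this _
    · have h1 : ((univ.filter fun i => ∃ w, G k i w ≠ 0).card : ℝ) < η1 * n := by
        by_contra h2
        exact hk (by rw [hI, Finset.mem_filter]; exact ⟨Finset.mem_univ _, h2⟩)
      refine le_trans (le_of_eq ?_) h1.le
      rw [hE]
      congr 2
      refine Finset.filter_congr fun i _ => ?_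
      simp only [hk, if_false]
  have hcov : (univ : Finset (Fin n)) ⊆
      (univ.filter fun i => ∃ b, ∀ z, F i z = b + ∑ k ∈ I, z k) ∪ univ.biUnion E := by
    intro i _
    rw [Finset.mem_union, Finset.mem_biUnion, Finset.mem_filter]
    by_cases h1 : ∃ k, i ∈ E k
    · obtain ⟨k, hk⟩ := h1
      exact Or.inr ⟨k, Finset.mem_univ _, hk⟩
    · left
      refine ⟨Finset.mem_univ _, F i 0, ?_⟩
      push Not at h1
      have h2 : ∀ k w, G k i w = if k ∈ I then 1 else 0 := by
        intro k w
        by_contra h3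
        apply h1 k
        rw [hE, Finset.mem_filter]
        exact ⟨Finset.mem_univ _, w, h3⟩
      have h3 : ∀ k w, der (F i) k w = if k ∈ I then 1 else 0 := by
        intro k w
        rw [← h2 k (k.removeNth w), hG]
        simp only
        rw [Fin.insertNth_removeNth, Fin.insertNth_removeNth]
        rfl
      intro z
      rw [form_of_der h3 z]
      congr 1
      simp only [ite_mul, one_mul, zero_mul]
      rw [Finset.sum_ite_mem, Finset.univ_inter]
  have h2 := (Finset.card_le_card hcov).trans ((Finset.card_union_le _ _).trans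
    (Nat.add_le_add_left Finset.card_biUnion_le _))
  rw [Finset.card_univ, Fintype.card_fin] at h2
  have h3 : (n : ℝ) ≤ (univ.filter fun i => ∃ b, ∀ z, F i z = b + ∑ k ∈ I, z k).card +
      ∑ k, ((E k).card : ℝ) := by exact_mod_cast h2
  have h4 : ∑ k, ((E k).card : ℝ) ≤ η * n := by
    refine (Finset.sum_le_sum fun k _ => hEcard k).trans (le_of_eq ?_)
    rw [Finset.sum_const, Finset.card_univ, Fintype.card_fin, nsmul_eq_mul, hη1]
    push_cast
    field_simp
  linarith

end Pool.Agent.Q257.PC
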